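import Pool.Agent.Lib_helper74.CHM.Defs

/-!
# Circulant Hadamard matrices: the algebraic part

Blocks by helper21, helper34, helper45, helper49, helper77; the rest by helper74.
-/

set_option autoImplicit false

namespace Pool.Agent.CHM

section

open Finset Classical

/-- The component of `x` in the eigenspace of `σ` for the eigenvalue `ω ^ k`; `ω` is a primitive
`P`-th root of unity fixed by `σ`, and `σ ^ P = 1`. -/
noncomputable def comp {K : Type*} [Field K] [Algebra ℚ K] (P : ℕ) [NeZero P] (ω : K)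
    (σ : K ≃ₐ[ℚ] K) (k : ZMod P) (x : K) : K :=
  (P : K)⁻¹ * ∑ i : ZMod P, ω ^ ((-(k * i)).val) * (σ ^ i.val) x

/-- The set of the `k` such that the component of `x` in the eigenspace of `σ` for the eigenvalue
`ω ^ k` is not `0`. -/
noncomputable def supp {K : Type*} [Field K] [Algebra ℚ K] (P : ℕ) [NeZero P] (ω : K)
    (σ : K ≃ₐ[ℚ] K) (x : K) : Finset (ZMod P) := univ.filter fun k => comp P ω σ k x ≠ 0

end

/-! ## EX1 (CHM_EX1_helper34.lean) -/

section

open Finset Classical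

theorem ex1_adj {v : ℕ} [NeZero v] {K : Type*} [Field K] [NumberField K]
    [IsCyclotomicExtension {v} ℚ K] {ζ : K} (hζ : IsPrimitiveRoot ζ v) :
    Algebra.adjoin ℚ ({ζ} : Set K) = ⊤ :=
  IsCyclotomicExtension.adjoin_primitive_root_eq_top hζ

theorem ex1_irr (v : ℕ) [NeZero v] : Irreducible (Polynomial.cyclotomic v ℚ) :=
  Polynomial.cyclotomic.irreducible_rat (NeZero.pos v)

/-- EX1 -/
theorem exists_aut {v : ℕ} [NeZero v] {K : Type*} [Field K] [NumberField K]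
    [IsCyclotomicExtension {v} ℚ K] {ζ : K} (hζ : IsPrimitiveRoot ζ v) {c : ℕ}
    (hc : c.Coprime v) : ∃ g : K ≃ₐ[ℚ] K, g ζ = ζ ^ c := by
  have h2 := hζ.pow_of_coprime c hc
  refine ⟨(IsCyclotomicExtension.fromZetaAut hζ (ex1_irr v)).symm.trans
    (IsCyclotomicExtension.fromZetaAut h2 (ex1_irr v)), ?_⟩
  have e1 := IsCyclotomicExtension.fromZetaAut_spec hζ (ex1_irr v)
  have e2 := IsCyclotomicExtension.fromZetaAut_spec h2 (ex1_irr v)
  rw [AlgEquiv.trans_apply]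
  have e3 : (IsCyclotomicExtension.fromZetaAut hζ (ex1_irr v)).symm ζ =
      IsCyclotomicExtension.zeta v ℚ K := by
    rw [AlgEquiv.symm_apply_eq]
    exact e1.symm
  rw [e3]
  exact e2

/-- EX1 -/
theorem aut_comm {v : ℕ} [NeZero v] {K : Type*} [Field K] [NumberField K]
    [IsCyclotomicExtension {v} ℚ K] (g h : K ≃ₐ[ℚ] K) (x : K) : g (h x) = h (g x) := by
  have e : g * h = h * g := by
    apply (IsCyclotomicExtension.autEquivPow K (ex1_irr v)).injective
    rw [map_mul, map_mul, mul_comm]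
  exact congrArg (fun f : K ≃ₐ[ℚ] K => f x) e

/-- EX1 -/
theorem aut_ext {v : ℕ} [NeZero v] {K : Type*} [Field K] [NumberField K]
    [IsCyclotomicExtension {v} ℚ K] {ζ : K} (hζ : IsPrimitiveRoot ζ v) {g h : K ≃ₐ[ℚ] K}
    (hgh : g ζ = h ζ) : g = h := by
  have e : (g : K →ₐ[ℚ] K) = (h : K →ₐ[ℚ] K) := by
    apply AlgHom.ext_of_adjoin_eq_top (ex1_adj hζ)
    intro x hx
    rw [Set.mem_singleton_iff] at hx
    rw [hx]
    exact hgh
  ext x
  exact congrArg (fun f : K →ₐ[ℚ] K => f x) e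

/-- EX1 -/
theorem emb_conj {v : ℕ} [NeZero v] {K : Type*} [Field K] [NumberField K]
    [IsCyclotomicExtension {v} ℚ K] {ζ : K} (hζ : IsPrimitiveRoot ζ v) {κ : K ≃ₐ[ℚ] K}
    (hκ : κ ζ = ζ⁻¹) (φ : K →+* ℂ) (x : K) : φ (κ x) = (starRingEnd ℂ) (φ x) := by
  have e : (φ.comp (κ : K ≃+* K).toRingHom).toRatAlgHom =
      ((starRingEnd ℂ).comp φ).toRatAlgHom := by
    apply AlgHom.ext_of_adjoin_eq_top (ex1_adj hζ)
    intro y hy
    rw [Set.mem_singleton_iff] at hy
    rw [hy]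
    show φ (κ ζ) = (starRingEnd ℂ) (φ ζ)
    rw [hκ, map_inv₀]
    have h1 : IsPrimitiveRoot (φ ζ) v := hζ.map_of_injective φ.injective
    exact Complex.inv_eq_conj (h1.norm'_eq_one (NeZero.ne v))
  exact congrArg (fun f : K →ₐ[ℚ] ℂ => f x) e

example : type_of% @exists_aut := @exists_aut
example : type_of% @aut_comm := @aut_comm
example : type_of% @aut_ext := @aut_ext
example : type_of% @emb_conj := @emb_conj

end

/-! ## EX2 (CHM_EX2_helper49.lean) -/

section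

open Finset Classical

theorem ex2_pow {P n s : ℕ} (hn : 1 ≤ n) (m : ℕ) :
    (1 + s * P ^ n) ^ m ≡ 1 + m * s * P ^ n [MOD P ^ (n + 1)] := by
  induction m with
  | zero => simp; rfl
  | succ m ih =>
    have h1 : (1 + s * P ^ n) ^ (m + 1) ≡ (1 + m * s * P ^ n) * (1 + s * P ^ n) [MOD P ^ (n + 1)] := by
      rw [pow_succ]; exact ih.mul_right _
    have h2 : (1 + m * s * P ^ n) * (1 + s * P ^ n) =
        1 + (m + 1) * s * P ^ n + P ^ (n + 1) * (m * s * s * P ^ (n - 1)) := by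
      have e : P ^ (n + 1) * P ^ (n - 1) = P ^ n * P ^ n := by
        rw [← pow_add, ← pow_add]; congr 1; omega
      calc (1 + m * s * P ^ n) * (1 + s * P ^ n) =
          1 + (m + 1) * s * P ^ n + (P ^ n * P ^ n) * (m * s * s) := by ring
        _ = _ := by rw [← e]; ring
    have h3 : 1 + (m + 1) * s * P ^ n + P ^ (n + 1) * (m * s * s * P ^ (n - 1)) ≡
        1 + (m + 1) * s * P ^ n + 0 [MOD P ^ (n + 1)] :=
      Nat.ModEq.add_left _ ((Nat.modEq_zero_iff_dvd).mpr (dvd_mul_right _ _))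
    rw [add_zero] at h3
    rw [h2] at h1
    exact h1.trans h3

theorem ex2_val {P q N n : ℕ} (hP : P.Prime) (hP2 : P ≠ 2) (hq : ¬ P ∣ q)
    (hgood : ¬ q ^ (P - 1) ≡ 1 [MOD P ^ 2]) (hn : 1 ≤ n) (hN : ¬ P ∣ N) :
    ∃ s : ℕ, ¬ P ∣ s ∧ (q ^ (P - 1)) ^ (N * P ^ (n - 1)) = 1 + s * P ^ n := by
  have hfer : q ^ (P - 1) ≡ 1 [MOD P] := by
    have h := Nat.ModEq.pow_totient (x := q) (n := P) ((hP.coprime_iff_not_dvd.mpr hq).symm)
    rwa [Nat.totient_prime hP] at h
  have hqpos : 1 ≤ q := by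
    rcases Nat.eq_zero_or_pos q with h | h
    · exfalso; apply hq; rw [h]; exact dvd_zero _
    · exact h
  set x := q ^ (P - 1) with hx
  have hx1 : 1 ≤ x := Nat.one_le_pow _ _ hqpos
  have hdvd : P ∣ x - 1 := (Nat.modEq_iff_dvd' hx1).mp hfer.symm
  have hndvd : ¬ P ^ 2 ∣ x - 1 := by
    intro h
    exact hgood ((Nat.modEq_iff_dvd' hx1).mpr h).symm
  have hPx : ¬ P ∣ x := fun h => hq (hP.dvd_of_dvd_pow h)
  have hx2 : 1 < x := by
    rcases Nat.lt_or_ge 1 x with h | h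
    · exact h
    · exfalso
      apply hndvd
      have : x - 1 = 0 := by omega
      rw [this]; exact dvd_zero _
  have : Fact P.Prime := ⟨hP⟩
  have hodd : Odd P := hP.odd_of_ne_two hP2
  have hN0 : N ≠ 0 := by
    intro h; apply hN; rw [h]; exact dvd_zero _
  have hE0 : N * P ^ (n - 1) ≠ 0 := mul_ne_zero hN0 (pow_ne_zero _ hP.ne_zero)
  have hv := padicValNat.pow_sub_pow hodd hx2 hdvd hPx hE0
  rw [one_pow] at hv
  have hv1 : padicValNat P (x - 1) = 1 := by
    have hne : x - 1 ≠ 0 := by omega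
    have h1 : 1 ≤ padicValNat P (x - 1) := one_le_padicValNat_of_dvd hne hdvd
    have h2 : ¬ 2 ≤ padicValNat P (x - 1) := by
      intro h
      exact hndvd ((padicValNat_dvd_iff_le hne).mpr h)
    omega
  have hv2 : padicValNat P (N * P ^ (n - 1)) = n - 1 := by
    rw [padicValNat.mul hN0 (pow_ne_zero _ hP.ne_zero), padicValNat.prime_pow,
      padicValNat.eq_zero_of_not_dvd hN, zero_add]
  rw [hv1, hv2] at hv
  have hvn : padicValNat P (x ^ (N * P ^ (n - 1)) - 1) = n := by omega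
  have hy1 : 1 < x ^ (N * P ^ (n - 1)) := Nat.one_lt_pow hE0 hx2
  have hyne : x ^ (N * P ^ (n - 1)) - 1 ≠ 0 := by omega
  have hd : P ^ n ∣ x ^ (N * P ^ (n - 1)) - 1 := (padicValNat_dvd_iff_le hyne).mpr hvn.ge
  obtain ⟨s, hs⟩ := hd
  refine ⟨s, ?_, ?_⟩
  · intro hPs
    have : P ^ (n + 1) ∣ x ^ (N * P ^ (n - 1)) - 1 := by
      rw [hs, pow_succ]
      exact mul_dvd_mul_left _ hPs
    have := (padicValNat_dvd_iff_le hyne).mp this
    omega
  · have : x ^ (N * P ^ (n - 1)) = 1 + (x ^ (N * P ^ (n - 1)) - 1) := by omega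
    rw [this, hs, mul_comm]

theorem exists_pow_modEq {P q w n t : ℕ} (hP : P.Prime) (hP2 : P ≠ 2) (hq : ¬ P ∣ q)
    (hgood : ¬ q ^ (P - 1) ≡ 1 [MOD P ^ 2]) (hn : 1 ≤ n) (hqw : q.Coprime w) (hPw : w.Coprime P)
    (hφ : ¬ P ∣ Nat.totient w) :
    ∃ f, 1 + w * t * P ^ n ≡ q ^ f [MOD w * P ^ (n + 1)] := by
  obtain ⟨s, hs, hval⟩ := ex2_val hP hP2 hq hgood hn hφ
  obtain ⟨m, hm⟩ := Nat.exists_mul_mod_eq_one_of_coprime
    ((hP.coprime_iff_not_dvd.mpr hs).symm) hP.one_lt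
  have hm' : s * m ≡ 1 [MOD P] := by
    rw [Nat.ModEq, hm.2, Nat.mod_eq_of_lt hP.one_lt]
  set M := m * (w * t) with hM
  refine ⟨(P - 1) * (Nat.totient w * P ^ (n - 1)) * M, ?_⟩
  have hcop : w.Coprime (P ^ (n + 1)) := hPw.pow_right _
  rw [← Nat.modEq_and_modEq_iff_modEq_mul hcop]
  constructor
  · have h1 : 1 + w * t * P ^ n ≡ 1 + 0 [MOD w] := by
      apply Nat.ModEq.add_left
      rw [Nat.modEq_zero_iff_dvd]
      exact ⟨t * P ^ n, by ring⟩
    have h2 : q ^ ((P - 1) * (Nat.totient w * P ^ (n - 1)) * M) ≡ 1 [MOD w] := by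
      have e : (P - 1) * (Nat.totient w * P ^ (n - 1)) * M =
        Nat.totient w * ((P - 1) * P ^ (n - 1) * M) := by ring
      rw [e, pow_mul]
      have h := (Nat.ModEq.pow_totient hqw).pow ((P - 1) * P ^ (n - 1) * M)
      rwa [one_pow] at h
    exact h1.trans h2.symm
  · rw [pow_mul q ((P - 1) * (Nat.totient w * P ^ (n - 1))) M, pow_mul q (P - 1), hval]
    refine Nat.ModEq.trans ?_ (ex2_pow hn M).symm
    have h3 : M * s ≡ w * t [MOD P] := by
      have e : M * s = (s * m) * (w * t) := by rw [hM]; ring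
      rw [e]
      have := hm'.mul_right (w * t)
      rwa [one_mul] at this
    have h4 := Nat.ModEq.mul_right' (P ^ n) h3
    rw [show P * P ^ n = P ^ (n + 1) by rw [pow_succ]; ring] at h4
    exact (h4.symm).add_left 1

theorem not_dvd_totient {P w : ℕ} (hP : P.Prime) (hw : w ≠ 0) (hPw : w.Coprime P)
    (h : ∀ r : ℕ, r.Prime → r ∣ w → ¬ P ∣ r - 1) : ¬ P ∣ Nat.totient w := by
  intro hd
  rw [Nat.totient_eq_prod_factorization hw, Finsupp.prod] at hd
  obtain ⟨r, hr, hdr⟩ := (hP.prime.dvd_finsetProd_iff _).mp hd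
  rw [Nat.support_factorization, Nat.mem_primeFactors] at hr
  obtain ⟨hrp, hrw, _⟩ := hr
  rcases (hP.dvd_mul).mp hdr with h1 | h1
  · have h2 : P ∣ r := hP.dvd_of_dvd_pow h1
    have h3 : P ∣ w := h2.trans hrw
    have h4 : P ∣ Nat.gcd w P := Nat.dvd_gcd h3 dvd_rfl
    rw [hPw] at h4
    exact hP.one_lt.ne' (Nat.dvd_one.mp h4)
  · exact h r hrp hrw h1

end

/-! ## ORB (CHM_ORB_helper77.lean) -/

section

open Finset Classical

theorem card_eq_one_of_affine {P : ℕ} [Fact P.Prime] {q : ZMod P} (hq : q ≠ 0) (c : ZMod P)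
    {S : Finset (ZMod P)} (hne : S.Nonempty) (hS : S.image (q * ·) = S.image (· + c))
    (hcard : S.card < orderOf q) : S.card = 1 := by
  have hq1 : q - 1 ≠ 0 := by
    intro h
    have h1 : q = 1 := sub_eq_zero.mp h
    rw [h1, orderOf_one] at hcard
    have := hne.card_pos
    omega
  obtain ⟨x0, hfix⟩ : ∃ x0 : ZMod P, q * x0 = x0 + c := by
    refine ⟨c / (q - 1), ?_⟩
    have h1 : (q - 1) * (c / (q - 1)) = c := mul_div_cancel₀ c hq1
    linear_combination h1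
  have hstep : ∀ x ∈ S, x0 + q⁻¹ * (x - x0) ∈ S := by
    intro x hx
    have h1 : x + c ∈ S.image (· + c) := mem_image_of_mem _ hx
    rw [← hS] at h1
    obtain ⟨y, hy, hyx⟩ := mem_image.mp h1
    have h2 : q * y = x + c := hyx
    have h3 : q * (x0 + q⁻¹ * (x - x0)) = q * y := by
      rw [h2, mul_add, ← mul_assoc, mul_inv_cancel₀ hq, hfix]
      ring
    rw [mul_left_cancel₀ hq h3]
    exact hy
  have hpow : ∀ x ∈ S, ∀ n : ℕ, x0 + q⁻¹ ^ n * (x - x0) ∈ S := by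
    intro x hx n
    induction n with
    | zero => simpa using hx
    | succ n ih =>
      have h1 := hstep _ ih
      have h2 : x0 + q⁻¹ * (x0 + q⁻¹ ^ n * (x - x0) - x0) = x0 + q⁻¹ ^ (n + 1) * (x - x0) := by
        rw [pow_succ]
        ring
      rw [h2] at h1
      exact h1
  by_cases hall : ∀ x ∈ S, x = x0
  · rw [card_eq_one]
    refine ⟨x0, ?_⟩
    obtain ⟨x, hx⟩ := hne
    ext y
    rw [mem_singleton]
    constructor
    · exact hall y
    · rintro rfl
      rw [← hall x hx]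
      exact hx
  · push Not at hall
    obtain ⟨x, hx, hxne⟩ := hall
    exfalso
    have hsub : (range (orderOf q)).image (fun n => x0 + q⁻¹ ^ n * (x - x0)) ⊆ S := by
      intro y hy
      obtain ⟨n, _, rfl⟩ := mem_image.mp hy
      exact hpow x hx n
    have hinj : Set.InjOn (fun n : ℕ => x0 + q⁻¹ ^ n * (x - x0)) (range (orderOf q) : Set ℕ) := by
      intro a ha b hb hab
      have h1 : q⁻¹ ^ a = q⁻¹ ^ b := by
        have h2 : q⁻¹ ^ a * (x - x0) = q⁻¹ ^ b * (x - x0) := add_left_cancel hab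
        exact mul_right_cancel₀ (sub_ne_zero.mpr hxne) h2
      have h3 : q ^ a = q ^ b := by
        rw [inv_pow, inv_pow] at h1
        exact inv_injective h1
      have ha' : a < orderOf q := by simpa using ha
      have hb' : b < orderOf q := by simpa using hb
      exact pow_injOn_Iio_orderOf ha' hb' h3
    have h4 := card_le_card hsub
    rw [card_image_of_injOn hinj, card_range] at h4
    omega

example : type_of% @card_eq_one_of_affine := @card_eq_one_of_affine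

end

/-! ## TOT (CHM_TOT_helper45.lean) -/

section

open Finset Classical

theorem tot_aux : ∀ N : ℕ, 1 ≤ N → ∀ S : Finset ℕ, (∀ p ∈ S, p % 2 = 1 ∧ 3 ≤ p ∧ p ≤ N) →
    (∏ p ∈ S, p) ^ 2 ≤ N * (∏ p ∈ S, (p - 1)) ^ 2 := by
  intro N
  induction N using Nat.strong_induction_on with
  | _ N ih =>
    intro hN S hS
    by_cases hmem : N ∈ S
    · obtain ⟨h1, h3, -⟩ := hS N hmem
      have h2 := ih (N - 2) (by omega) (by omega) (S.erase N) (by
        intro p hp
        obtain ⟨hne, hp⟩ := Finset.mem_erase.1 hp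
        obtain ⟨a, b, c⟩ := hS p hp
        refine ⟨a, b, ?_⟩
        omega)
      rw [← Finset.mul_prod_erase S _ hmem, ← Finset.mul_prod_erase S (fun p => p - 1) hmem]
      obtain ⟨M, rfl⟩ : ∃ M, N = M + 2 := ⟨N - 2, by omega⟩
      have e1 : M + 2 - 2 = M := by omega
      have e2 : M + 2 - 1 = M + 1 := by omega
      rw [e1] at h2
      rw [e2]
      set X := ∏ p ∈ S.erase (M + 2), p
      set Y := ∏ p ∈ S.erase (M + 2), (p - 1)
      calc ((M + 2) * X) ^ 2 = (M + 2) ^ 2 * X ^ 2 := by ring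
        _ ≤ (M + 2) ^ 2 * (M * Y ^ 2) := Nat.mul_le_mul_left _ h2
        _ = (M + 2) * ((M + 2) * M) * Y ^ 2 := by ring
        _ ≤ (M + 2) * ((M + 1) * (M + 1)) * Y ^ 2 := by
          refine Nat.mul_le_mul_right _ (Nat.mul_le_mul_left _ ?_)
          nlinarith
        _ = (M + 2) * ((M + 1) * Y) ^ 2 := by ring
    · rcases Nat.lt_or_ge 1 N with h1 | h1
      · have h2 := ih (N - 1) (by omega) (by omega) S (by
          intro p hp
          obtain ⟨a, b, c⟩ := hS p hp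
          refine ⟨a, b, ?_⟩
          have : p ≠ N := fun h => hmem (h ▸ hp)
          omega)
        refine h2.trans (Nat.mul_le_mul_right _ (by omega))
      · have : S = ∅ := by
          refine Finset.eq_empty_of_forall_notMem fun p hp => ?_
          obtain ⟨a, b, c⟩ := hS p hp
          omega
        subst this
        simp
        omega

theorem lt_mul_totient {u P : ℕ} (hu : 1 ≤ u) (h5 : 5 ≤ P)
    (hmax : ∀ r : ℕ, r.Prime → r ∣ u → r ≤ P) :
    4 * u ^ 2 < P * Nat.totient (4 * u ^ 2) := by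
  have hn : 4 * u ^ 2 ≠ 0 := by positivity
  set n := 4 * u ^ 2 with hndef
  have h2mem : 2 ∈ n.primeFactors := by
    rw [Nat.mem_primeFactors]
    exact ⟨Nat.prime_two, ⟨2 * u ^ 2, by rw [hndef]; ring⟩, hn⟩
  have key := Nat.totient_mul_prod_primeFactors n
  have haux := tot_aux P (by omega) (n.primeFactors.erase 2) (by
    intro p hp
    obtain ⟨hne, hp⟩ := Finset.mem_erase.1 hp
    obtain ⟨hpp, hpd, -⟩ := Nat.mem_primeFactors.1 hp
    have hodd := hpp.eq_two_or_odd.resolve_left hne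
    have h2 := hpp.two_le
    refine ⟨hodd, by omega, ?_⟩
    refine hmax p hpp ?_
    rw [hndef] at hpd
    rcases (Nat.Prime.dvd_mul hpp).1 hpd with h4 | h4
    · have h4' : p ∣ 2 ^ 2 := h4
      have := (Nat.prime_dvd_prime_iff_eq hpp Nat.prime_two).1 (hpp.dvd_of_dvd_pow h4')
      exact absurd this hne
    · exact hpp.dvd_of_dvd_pow h4)
  rw [← Finset.mul_prod_erase _ _ h2mem, ← Finset.mul_prod_erase _ (fun p => p - 1) h2mem] at key
  have hYpos : 0 < ∏ p ∈ n.primeFactors.erase 2, (p - 1) := by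
    refine Finset.prod_pos fun p hp => ?_
    have := (Nat.prime_of_mem_primeFactors (Finset.mem_of_mem_erase hp)).two_le
    omega
  set X := ∏ p ∈ n.primeFactors.erase 2, p
  set Y := ∏ p ∈ n.primeFactors.erase 2, (p - 1)
  have e : (2 - 1) * Y = Y := by simp
  rw [e] at key
  have hXpos : 0 < X := by
    rcases Nat.eq_zero_or_pos X with h | h
    · rw [h] at key
      have : n * Y = 0 := by rw [← key]; ring
      rcases Nat.mul_eq_zero.1 this with h | h
      · exact absurd h hn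
      · omega
    · exact h
  have hlt : 2 * X < P * Y := by
    have : (2 * X) ^ 2 < (P * Y) ^ 2 := by
      calc (2 * X) ^ 2 = 4 * X ^ 2 := by ring
        _ ≤ 4 * (P * Y ^ 2) := Nat.mul_le_mul_left _ haux
        _ < P * (P * Y ^ 2) := Nat.mul_lt_mul_of_pos_right (by omega) (by positivity)
        _ = (P * Y) ^ 2 := by ring
    exact lt_of_pow_lt_pow_left₀ 2 (Nat.zero_le _) this
  have hnpos : 0 < n := Nat.pos_of_ne_zero hn
  have : n * (2 * X) < P * n.totient * (2 * X) := by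
    calc n * (2 * X) < n * (P * Y) := Nat.mul_lt_mul_of_pos_left hlt hnpos
      _ = P * (n * Y) := by ring
      _ = P * (n.totient * (2 * X)) := by rw [key]
      _ = P * n.totient * (2 * X) := by ring
  exact Nat.lt_of_mul_lt_mul_right this

end

/-! ## YY (CHM_YY_helper45.lean) -/

section

open Finset Classical

theorem yy_row {n : ℕ} {H : Fin (n + 1) → Fin (n + 1) → ℤ} (hH : IsCirculantHadamard (n + 1) H)
    (i j : Fin (n + 1)) : H i (j + i) = H 0 j := by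
  obtain ⟨i, hi⟩ := i
  induction i with
  | zero =>
    have : (⟨0, hi⟩ : Fin (n + 1)) = 0 := rfl
    rw [this, add_zero]
  | succ i ih =>
    rw [← ih (by omega)]
    refine hH.circ ⟨i, by omega⟩ ⟨i + 1, hi⟩ _ _ rfl ?_
    simp only [Fin.val_add]
    rw [Nat.mod_add_mod, Nat.add_assoc]

theorem yy_auto {n : ℕ} {H : Fin (n + 1) → Fin (n + 1) → ℤ} (hH : IsCirculantHadamard (n + 1) H)
    {k : Fin (n + 1)} (hk : k ≠ 0) : ∑ j, H 0 j * H 0 (j + k) = 0 := by
  rw [← hH.orth k 0 hk]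
  refine Fintype.sum_equiv (Equiv.addRight k) _ _ fun j => ?_
  simp only [Equiv.coe_addRight]
  rw [yy_row hH k j]

theorem yy_prod {n : ℕ} {B : Fin (n + 1) → ℤ} (hB : ∀ i, B i = 1 ∨ B i = -1)
    (hauto : ∀ k ≠ 0, ∑ j, B j * B (j + k) = 0) {K : Type} [Field K] {ζ : K}
    (hζ : ζ ^ (n + 1) = 1) :
    (∑ i, (B i : K) * ζ ^ (i : ℕ)) * (∑ i, (B i : K) * ζ⁻¹ ^ (i : ℕ)) = (n + 1 : ℕ) := by
  have hζ0 : ζ ≠ 0 := by
    rintro rfl
    rw [zero_pow (by omega)] at hζ
    exact zero_ne_one hζ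
  have hadd : ∀ i j : Fin (n + 1), ζ ^ ((i + j : Fin (n + 1)) : ℕ) = ζ ^ (i : ℕ) * ζ ^ (j : ℕ) := by
    intro i j
    rw [Fin.val_add, ← pow_eq_pow_mod _ hζ, pow_add]
  rw [mul_comm, Finset.sum_mul_sum]
  have h1 : ∀ j : Fin (n + 1), ∑ i, (B j : K) * ζ⁻¹ ^ (j : ℕ) * ((B i : K) * ζ ^ (i : ℕ)) =
      ∑ k, ((B j * B (j + k) : ℤ) : K) * ζ ^ (k : ℕ) := by
    intro j
    refine (Fintype.sum_equiv (Equiv.addLeft j) _ _ fun k => ?_).symm
    simp only [Equiv.coe_addLeft]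
    rw [hadd j k]
    have : ζ⁻¹ ^ (j : ℕ) * ζ ^ (j : ℕ) = 1 := by rw [← mul_pow, inv_mul_cancel₀ hζ0, one_pow]
    push_cast
    linear_combination (-(B j : K) * (B (j + k) : K) * ζ ^ (k : ℕ)) * this
  rw [Finset.sum_congr rfl fun j _ => h1 j, Finset.sum_comm]
  have h2 : ∀ k : Fin (n + 1), ∑ j, ((B j * B (j + k) : ℤ) : K) * ζ ^ (k : ℕ) =
      if k = 0 then ((n + 1 : ℕ) : K) else 0 := by
    intro k
    rw [← Finset.sum_mul, ← Int.cast_sum]
    split_ifs with hk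
    · subst hk
      have : ∑ j, B j * B (j + 0) = ((n + 1 : ℕ) : ℤ) := by
        rw [Finset.sum_congr rfl (g := fun _ => (1 : ℤ))]
        · simp
        · intro j _
          rw [add_zero]
          rcases hB j with h | h <;> rw [h] <;> norm_num
      rw [this]
      simp
    · rw [hauto k hk]
      simp
  rw [Finset.sum_congr rfl fun k _ => h2 k]
  simp

theorem yy_two {n : ℕ} (hn : 1 ≤ n) {B : Fin (n + 1) → ℤ} (hB : ∀ i, B i = 1 ∨ B i = -1)
    {K : Type} [Field K] {ζ : K} (hζ : IsPrimitiveRoot ζ (n + 1)) :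
    ∑ i, (B i : K) * ζ ^ (i : ℕ) =
      2 * ∑ i ∈ (univ.filter fun i => B i = 1).map Fin.valEmbedding, ζ ^ i := by
  have h0 : ∑ i : Fin (n + 1), ζ ^ (i : ℕ) = 0 := by
    rw [← Finset.sum_range (fun i => ζ ^ i)]
    exact hζ.geom_sum_eq_zero (by omega)
  have h5 : ∑ i, (B i : K) * ζ ^ (i : ℕ) =
      ∑ i, ((B i : K) * ζ ^ (i : ℕ) + ζ ^ (i : ℕ)) := by
    rw [Finset.sum_add_distrib, h0, add_zero]
  rw [h5, Finset.sum_map, Finset.mul_sum, Finset.sum_filter]
  refine Finset.sum_congr rfl fun i _ => ?_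
  simp only [Fin.valEmbedding_apply]
  rcases hB i with h | h <;> rw [h]
  · simp
    ring
  · norm_num

theorem chm_norm {u : ℕ} (hu : 1 ≤ u) (h : CHMOrder (4 * u ^ 2)) :
    ∃ A ⊆ range (4 * u ^ 2), ∀ (K : Type) (_ : Field K) (_ : CharZero K) (ζ : K),
      IsPrimitiveRoot ζ (4 * u ^ 2) → (∑ i ∈ A, ζ ^ i) * (∑ i ∈ A, ζ⁻¹ ^ i) = (u : K) ^ 2 := by
  obtain ⟨n, hn⟩ : ∃ n, 4 * u ^ 2 = n + 1 := ⟨4 * u ^ 2 - 1, by
    have : 0 < 4 * u ^ 2 := by positivity
    omega⟩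
  have hn1 : 1 ≤ n := by
    have : 0 < u ^ 2 := by positivity
    omega
  have hcast : ∀ (K : Type) [Field K], ((n + 1 : ℕ) : K) = 4 * (u : K) ^ 2 := by
    intro K _
    rw [← hn]
    push_cast
    ring
  rw [hn] at h ⊢
  obtain ⟨H, hH⟩ := h
  refine ⟨(univ.filter fun i => H 0 i = 1).map Fin.valEmbedding, ?_, ?_⟩
  · intro i hi
    obtain ⟨j, -, rfl⟩ := Finset.mem_map.1 hi
    exact Finset.mem_range.2 j.isLt
  · intro K _ _ ζ hζ
    have h1 := yy_two hn1 (fun i => hH.sign 0 i) hζ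
    have h2 := yy_two hn1 (fun i => hH.sign 0 i) hζ.inv
    have h3 := yy_prod (fun i => hH.sign 0 i) (fun k hk => yy_auto hH hk) hζ.pow_eq_one
    rw [h1, h2, hcast K] at h3
    have h4 : (4 : K) ≠ 0 := by norm_num
    apply mul_left_cancel₀ h4
    linear_combination h3

end

/-! ## DIV (CHM_DIV_helper77.lean) -/

section

open Finset Classical

/-- an automorphism which fixes all primes above `n` keeps divisibility by `n` of products -/
theorem div_gen {R : Type*} [CommRing R] [IsDedekindDomain R] (s : R ≃+* R) {n : R} (hn : n ≠ 0)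
    (hfix : ∀ I : Ideal R, I.IsPrime → n ∈ I → ∀ x, s x ∈ I ↔ x ∈ I) {X Z : R}
    (h : n ∣ X * Z) : n ∣ X * s Z := by
  have key : ∀ a b : R, a ∣ b ↔ Ideal.span {a} ∣ Ideal.span {b} := by
    intro a b
    rw [Ideal.dvd_iff_le, Ideal.span_singleton_le_span_singleton]
  have hn0 : (Ideal.span {n} : Ideal R) ≠ 0 := by
    rw [Ne, Ideal.zero_eq_bot, Ideal.span_singleton_eq_bot]
    exact hn
  rw [key, UniqueFactorizationMonoid.dvd_iff_emultiplicity_le hn0] at h ⊢
  intro P hP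
  have h1 := h P hP
  rw [← Ideal.span_singleton_mul_span_singleton, emultiplicity_mul hP] at h1 ⊢
  by_cases hnP : n ∈ P
  · have hPp : P.IsPrime := Ideal.isPrime_of_prime hP
    have hmap : P.map s = P := by
      ext x
      constructor
      · intro hx
        obtain ⟨y, hy, rfl⟩ := (Ideal.mem_map_of_equiv s x).mp hx
        exact (hfix P hPp hnP y).mpr hy
      · intro hx
        refine (Ideal.mem_map_of_equiv s x).mpr ⟨s.symm x, ?_, s.apply_symm_apply x⟩
        rw [← hfix P hPp hnP, s.apply_symm_apply]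
        exact hx
    have hk : ∀ k : ℕ, s Z ∈ P ^ k ↔ Z ∈ P ^ k := by
      intro k
      have h2 : (P ^ k).map s = P ^ k := by
        have h3 := Ideal.map_pow (s : R →+* R) P k
        have h4 : P.map (s : R →+* R) = P := hmap
        rw [h4] at h3
        exact h3
      constructor
      · intro hx
        rw [← h2] at hx
        exact Ideal.apply_mem_of_equiv_iff.mp hx
      · intro hx
        rw [← h2]
        exact Ideal.apply_mem_of_equiv_iff.mpr hx
    have h5 : emultiplicity P (Ideal.span {Z}) ≤ emultiplicity P (Ideal.span {s Z}) := by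
      rw [emultiplicity_le_emultiplicity_iff]
      intro k hkd
      rw [Ideal.dvd_span_singleton] at hkd ⊢
      exact (hk k).mpr hkd
    exact h1.trans (by gcongr)
  · have h6 : emultiplicity P (Ideal.span {n}) = 0 := by
      rw [emultiplicity_eq_zero, Ideal.dvd_span_singleton]
      exact hnP
    rw [h6]
    exact zero_le

theorem div_integral {v : ℕ} [NeZero v] {K : Type*} [Field K] [NumberField K]
    [IsCyclotomicExtension {v} ℚ K] {ζ : K} (hζ : IsPrimitiveRoot ζ v)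
    (g : K ≃ₐ[ℚ] K) {c : ℕ} (hg : g ζ = ζ ^ c) {n : ℕ} (hn : n ≠ 0)
    (hfix : ∀ q : ℕ, q.Prime → q ∣ n → ∃ f e w : ℕ, v = q ^ e * w ∧ c ≡ q ^ f [MOD w])
    {X Z Y : K} (hX : IsIntegral ℤ X) (hZ : IsIntegral ℤ Z) (hY : IsIntegral ℤ Y)
    (h : X * Z = n * Y) : IsIntegral ℤ (X * g Z / n) := by
  have hn' : (n : K) ≠ 0 := by exact_mod_cast hn
  have hnO : ((n : ℕ) : NumberField.RingOfIntegers K) ≠ 0 := by exact_mod_cast hn
  have hmain := div_gen
    (NumberField.RingOfIntegers.mapRingEquiv (g : K ≃+* K)) hnO (X := ⟨X, hX⟩) (Z := ⟨Z, hZ⟩)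
    (by
      intro I hI hnI x
      have hdom : IsDomain (NumberField.RingOfIntegers K ⧸ I) := Ideal.Quotient.isDomain I
      obtain ⟨q, hq⟩ := CharP.exists (NumberField.RingOfIntegers K ⧸ I)
      have hqn : q ∣ n := by
        rw [← CharP.cast_eq_zero_iff (NumberField.RingOfIntegers K ⧸ I) q n]
        have h1 : Ideal.Quotient.mk I ((n : ℕ) : NumberField.RingOfIntegers K) = 0 :=
          Ideal.Quotient.eq_zero_iff_mem.mpr hnI
        rw [map_natCast] at h1
        exact h1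
      have hqp : q.Prime := by
        rcases CharP.char_is_prime_or_zero (NumberField.RingOfIntegers K ⧸ I) q with h1 | h1
        · exact h1
        · rw [h1] at hqn
          exact absurd (Nat.eq_zero_of_zero_dvd hqn) hn
      have hqf : Fact q.Prime := ⟨hqp⟩
      obtain ⟨f, e, w, hv, hc⟩ := hfix q hqp hqn
      set z : NumberField.RingOfIntegers K := hζ.toInteger with hz
      have hzv : z ^ v = 1 := hζ.toInteger_isPrimitiveRoot.pow_eq_one
      set zb := Ideal.Quotient.mk I z with hzb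
      have hzw : zb ^ w = 1 := by
        have h1 : (zb ^ w) ^ (q ^ e) = 1 := by
          rw [← pow_mul, mul_comm w, ← hv, hzb, ← map_pow, hzv, map_one]
        have h2 : (zb ^ w - 1) ^ (q ^ e) = 0 := by
          rw [sub_pow_char_pow, h1, one_pow, sub_self]
        exact sub_eq_zero.mp (pow_eq_zero_iff (pow_ne_zero _ hqp.ne_zero) |>.mp h2)
      have hzc : zb ^ c = zb ^ (q ^ f) := by
        rw [pow_eq_pow_mod c hzw, pow_eq_pow_mod (q ^ f) hzw, hc]
      have hhom : (((Ideal.Quotient.mk I).comp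
          (NumberField.RingOfIntegers.mapRingEquiv (g : K ≃+* K) :
            NumberField.RingOfIntegers K →+* NumberField.RingOfIntegers K)).toIntAlgHom :
            NumberField.RingOfIntegers K →ₐ[ℤ] (NumberField.RingOfIntegers K ⧸ I)) =
          ((iterateFrobenius (NumberField.RingOfIntegers K ⧸ I) q f).comp
            (Ideal.Quotient.mk I)).toIntAlgHom := by
        apply AlgHom.ext_of_adjoin_eq_top
          (IsCyclotomicExtension.Rat.adjoin_singleton_eq_top hζ)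
        intro y hy
        rw [Set.mem_singleton_iff] at hy
        rw [hy]
        show Ideal.Quotient.mk I (NumberField.RingOfIntegers.mapRingEquiv (g : K ≃+* K) z) =
          iterateFrobenius (NumberField.RingOfIntegers K ⧸ I) q f (Ideal.Quotient.mk I z)
        rw [iterateFrobenius_def]
        have h3 : NumberField.RingOfIntegers.mapRingEquiv (g : K ≃+* K) z = z ^ c := by
          apply NumberField.RingOfIntegers.ext
          exact hg
        rw [h3, map_pow]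
        exact hzc
      have hx : Ideal.Quotient.mk I (NumberField.RingOfIntegers.mapRingEquiv (g : K ≃+* K) x) =
          (Ideal.Quotient.mk I x) ^ (q ^ f) := by
        have h4 := DFunLike.congr_fun hhom x
        exact h4
      rw [← Ideal.Quotient.eq_zero_iff_mem, ← Ideal.Quotient.eq_zero_iff_mem, hx,
        pow_eq_zero_iff (pow_ne_zero _ hqp.ne_zero)])
    ⟨⟨Y, hY⟩, by
      apply NumberField.RingOfIntegers.ext
      exact h⟩
  obtain ⟨W, hW⟩ := hmain
  have hW' : X * g Z = n * (W : K) := by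
    have h5 := congrArg (fun t : NumberField.RingOfIntegers K => (t : K)) hW
    exact h5
  rw [hW', mul_div_cancel_left₀ _ hn']
  exact W.isIntegral_coe

example : type_of% @div_integral := @div_integral

end

/-! ## COMP (CHM_COMP_helper21.lean) -/

section

open Finset Classical

theorem comp_pw_add {M : Type*} [Monoid M] {P : ℕ} [NeZero P] {g : M} (hg : g ^ P = 1)
    (a b : ZMod P) : g ^ (a + b).val = g ^ a.val * g ^ b.val := by
  rw [ZMod.val_add, ← pow_eq_pow_mod _ hg, pow_add]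

theorem comp_pw_mul {M : Type*} [Monoid M] {P : ℕ} [NeZero P] {g : M} (hg : g ^ P = 1)
    (a b : ZMod P) : g ^ (a * b).val = (g ^ a.val) ^ b.val := by
  rw [ZMod.val_mul, ← pow_eq_pow_mod _ hg, pow_mul]

theorem comp_pw_nat {M : Type*} [Monoid M] {P : ℕ} [NeZero P] {g : M} (hg : g ^ P = 1)
    (n : ℕ) : g ^ (n : ZMod P).val = g ^ n := by
  rw [ZMod.val_natCast, ← pow_eq_pow_mod _ hg]

section comp

variable {K : Type*} [Field K] [Algebra ℚ K] {P : ℕ} [Fact P.Prime] {ω : K} {σ : K ≃ₐ[ℚ] K}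

theorem comp_P_ne : ((P : ℕ) : K) ≠ 0 := by
  have : CharZero K := algebraRat.charZero K
  exact_mod_cast (Fact.out : P.Prime).ne_zero

/-- orthogonality -/
theorem comp_sum_om (hω : IsPrimitiveRoot ω P) (a : ZMod P) :
    ∑ i : ZMod P, ω ^ (a * i).val = if a = 0 then (P : K) else 0 := by
  by_cases ha : a = 0
  · rw [if_pos ha, ha]
    simp [ZMod.card]
  · rw [if_neg ha]
    have h1 : ω ^ a.val * ∑ i : ZMod P, ω ^ (a * i).val = ∑ i : ZMod P, ω ^ (a * i).val := by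
      rw [Finset.mul_sum]
      refine Fintype.sum_equiv (Equiv.addRight (1 : ZMod P)) _ _ fun i => ?_
      rw [Equiv.coe_addRight, mul_add, mul_one, comp_pw_add hω.pow_eq_one, mul_comm]
    have h2 : (ω ^ a.val - 1) * ∑ i : ZMod P, ω ^ (a * i).val = 0 := by
      rw [sub_mul, one_mul, h1, sub_self]
    rcases mul_eq_zero.1 h2 with h3 | h3
    · exfalso
      have h4 : P ∣ a.val := (hω.pow_eq_one_iff_dvd a.val).1 (sub_eq_zero.1 h3)
      have h5 : a.val = 0 := Nat.eq_zero_of_dvd_of_lt h4 (ZMod.val_lt a)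
      exact ha ((ZMod.val_eq_zero a).1 h5)
    · exact h3

/-- the components sum up -/
theorem comp_sum (hω : IsPrimitiveRoot ω P) (x : K) :
    ∑ k : ZMod P, comp P ω σ k x = x := by
  unfold comp
  rw [← Finset.mul_sum, Finset.sum_comm]
  have h1 : ∀ i : ZMod P, ∑ k : ZMod P, ω ^ ((-(k * i)).val) * (σ ^ i.val) x =
      if i = 0 then (P : K) * x else 0 := by
    intro i
    rw [← Finset.sum_mul]
    have h2 : ∑ k : ZMod P, ω ^ ((-(k * i)).val) = ∑ k : ZMod P, ω ^ ((-i * k).val) := by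
      refine Finset.sum_congr rfl fun k _ => ?_
      congr 2
      ring
    rw [h2, comp_sum_om hω]
    by_cases hi : i = 0
    · rw [if_pos (by rw [hi, neg_zero]), if_pos hi, hi]
      simp
    · rw [if_neg (by rwa [neg_eq_zero]), if_neg hi, zero_mul]
  rw [Finset.sum_congr rfl fun i _ => h1 i, Finset.sum_ite_eq' Finset.univ (0 : ZMod P)]
  rw [if_pos (Finset.mem_univ _), ← mul_assoc, inv_mul_cancel₀ comp_P_ne, one_mul]

/-- the components are eigenvectors -/
theorem comp_eig (hω : IsPrimitiveRoot ω P) (hσω : σ ω = ω) (hσ : σ ^ P = 1) (k : ZMod P) (x : K) :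
    σ (comp P ω σ k x) = ω ^ k.val * comp P ω σ k x := by
  unfold comp
  rw [map_mul, map_inv₀, map_natCast, mul_left_comm]
  congr 1
  rw [map_sum, Finset.mul_sum]
  refine Fintype.sum_equiv (Equiv.addRight (1 : ZMod P)) _ _ fun i => ?_
  rw [Equiv.coe_addRight, map_mul, map_pow, hσω]
  have h1 : (σ ^ (i + 1).val) x = σ ((σ ^ i.val) x) := by
    rw [add_comm, comp_pw_add hσ, AlgEquiv.mul_apply]
    congr 1
    have h2 := comp_pw_nat hσ 1
    rw [Nat.cast_one, pow_one] at h2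
    rw [h2]
  have h3 : ω ^ (-(k * i)).val = ω ^ k.val * ω ^ (-(k * (i + 1))).val := by
    rw [← comp_pw_add hω.pow_eq_one]
    congr 2
    ring
  rw [h1, h3]
  ring

/-- powers of `σ` on an eigenvector -/
theorem comp_pow_hom (hσω : σ ω = ω) {y : K} {n : ℕ} (hy : σ y = ω ^ n * y) (m : ℕ) :
    (σ ^ m) y = ω ^ (n * m) * y := by
  induction m with
  | zero => simp
  | succ m ih =>
      rw [pow_succ, AlgEquiv.mul_apply, hy, map_mul, ih, map_pow]
      have h1 : (σ ^ m) ω = ω := by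
        clear ih
        induction m with
        | zero => simp
        | succ m ih => rw [pow_succ, AlgEquiv.mul_apply, hσω, ih]
      rw [h1, Nat.mul_succ, pow_add]
      ring

theorem comp_mul (hω : IsPrimitiveRoot ω P) (hσω : σ ω = ω) {y : K}
    {j : ZMod P} (hy : σ y = ω ^ j.val * y) (x : K) (k : ZMod P) :
    comp P ω σ k (y * x) = y * comp P ω σ (k - j) x := by
  unfold comp
  rw [mul_left_comm]
  congr 1
  rw [Finset.mul_sum]
  refine Finset.sum_congr rfl fun i _ => ?_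
  rw [map_mul, comp_pow_hom hσω hy, pow_mul, ← comp_pw_mul hω.pow_eq_one]
  have h3 : ω ^ (-((k - j) * i)).val = ω ^ (-(k * i)).val * ω ^ (j * i).val := by
    rw [← comp_pw_add hω.pow_eq_one]
    congr 2
    ring
  rw [h3]
  ring

theorem comp_tau (hω : IsPrimitiveRoot ω P) {τ : K ≃ₐ[ℚ] K}
    (hτσ : ∀ x, τ (σ x) = σ (τ x)) {q : ℕ} (hτ : τ ω = ω ^ q) (x : K) (k : ZMod P) :
    comp P ω σ ((q : ZMod P) * k) (τ x) = τ (comp P ω σ k x) := by
  unfold comp
  rw [map_mul, map_inv₀, map_natCast]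
  congr 1
  rw [map_sum]
  refine Finset.sum_congr rfl fun i _ => ?_
  have h1 : ∀ (m : ℕ) (x : K), τ ((σ ^ m) x) = (σ ^ m) (τ x) := by
    intro m
    induction m with
    | zero => intro x; simp
    | succ m ih => intro x; rw [pow_succ, AlgEquiv.mul_apply, ih, hτσ, AlgEquiv.mul_apply]
  rw [map_mul, map_pow, hτ, h1]
  congr 1
  rw [← comp_pw_nat hω.pow_eq_one q, ← comp_pw_mul hω.pow_eq_one]
  congr 2
  ring

/-- COMP -/
theorem supp_nonempty (hω : IsPrimitiveRoot ω P) (hσω : σ ω = ω) (hσ : σ ^ P = 1) {x : K}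
    (hx : x ≠ 0) : (supp P ω σ x).Nonempty := by
  by_contra h
  rw [Finset.not_nonempty_iff_eq_empty] at h
  refine hx ?_
  rw [← comp_sum (σ := σ) hω x]
  refine Finset.sum_eq_zero fun k _ => ?_
  by_contra hk
  have : k ∈ supp P ω σ x := by
    unfold supp
    rw [Finset.mem_filter]
    exact ⟨Finset.mem_univ _, hk⟩
  rw [h] at this
  exact absurd this (Finset.notMem_empty _)

/-- COMP -/
theorem supp_mul (hω : IsPrimitiveRoot ω P) (hσω : σ ω = ω) (hσ : σ ^ P = 1) {y : K}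
    {j : ZMod P} (hy : σ y = ω ^ j.val * y) (hy0 : y ≠ 0) (x : K) :
    supp P ω σ (y * x) = (supp P ω σ x).image (· + j) := by
  ext k
  simp only [supp, Finset.mem_filter, Finset.mem_univ, true_and, Finset.mem_image]
  rw [comp_mul hω hσω hy]
  constructor
  · intro h
    exact ⟨k - j, right_ne_zero_of_mul h, sub_add_cancel k j⟩
  · rintro ⟨a, ha, rfl⟩
    rw [add_sub_cancel_right]
    exact mul_ne_zero hy0 ha

/-- COMP -/
theorem supp_tau (hω : IsPrimitiveRoot ω P) (hσω : σ ω = ω) (hσ : σ ^ P = 1) {τ : K ≃ₐ[ℚ] K}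
    (hτσ : ∀ x, τ (σ x) = σ (τ x)) {q : ℕ} (hq : q.Coprime P) (hτ : τ ω = ω ^ q) (x : K) :
    supp P ω σ (τ x) = (supp P ω σ x).image ((q : ZMod P) * ·) := by
  have hq0 : (q : ZMod P) ≠ 0 := by
    intro h
    rw [ZMod.natCast_eq_zero_iff] at h
    have h1 := Nat.Coprime.eq_one_of_dvd hq.symm h
    exact (Fact.out : P.Prime).one_lt.ne' h1
  ext k
  simp only [supp, Finset.mem_filter, Finset.mem_univ, true_and, Finset.mem_image]
  constructor
  · intro h
    refine ⟨(q : ZMod P)⁻¹ * k, ?_, mul_inv_cancel_left₀ hq0 k⟩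
    intro h0
    refine h ?_
    rw [← mul_inv_cancel_left₀ hq0 k, comp_tau hω hτσ hτ, h0, map_zero]
  · rintro ⟨a, ha, rfl⟩
    rw [comp_tau hω hτσ hτ]
    intro h0
    exact ha ((map_eq_zero_iff τ τ.injective).1 h0)

/-- COMP -/
theorem hom_of_card_supp (hω : IsPrimitiveRoot ω P) (hσω : σ ω = ω) (hσ : σ ^ P = 1) {x : K}
    (hx : (supp P ω σ x).card = 1) : ∃ j : ZMod P, σ x = ω ^ j.val * x := by
  obtain ⟨j, hj⟩ := Finset.card_eq_one.1 hx
  refine ⟨j, ?_⟩
  have h1 : x = comp P ω σ j x := by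
    conv_lhs => rw [← comp_sum (σ := σ) hω x]
    refine Finset.sum_eq_single j (fun k _ hk => ?_) (fun h => absurd (Finset.mem_univ _) h)
    by_contra h0
    have : k ∈ supp P ω σ x := by
      unfold supp
      rw [Finset.mem_filter]
      exact ⟨Finset.mem_univ _, h0⟩
    rw [hj, Finset.mem_singleton] at this
    exact hk this
  rw [h1]
  exact comp_eig hω hσω hσ j x

/-- COMP -/
theorem comp_of_hom (hω : IsPrimitiveRoot ω P) (hσω : σ ω = ω) (hσ : σ ^ P = 1) {x : K}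
    {j : ZMod P} (hx : σ x = ω ^ j.val * x) (k : ZMod P) :
    comp P ω σ k x = if k = j then x else 0 := by
  unfold comp
  have h1 : ∀ i : ZMod P, ω ^ ((-(k * i)).val) * (σ ^ i.val) x = ω ^ ((j - k) * i).val * x := by
    intro i
    rw [comp_pow_hom hσω hx, pow_mul, ← comp_pw_mul hω.pow_eq_one, ← mul_assoc,
      ← comp_pw_add hω.pow_eq_one]
    congr 3
    ring
  rw [Finset.sum_congr rfl fun i _ => h1 i, ← Finset.sum_mul, comp_sum_om hω]
  by_cases hk : k = j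
  · rw [if_pos (by rw [hk, sub_self]), if_pos hk, ← mul_assoc, inv_mul_cancel₀ comp_P_ne, one_mul]
  · rw [if_neg (fun h => hk (sub_eq_zero.1 h).symm), if_neg hk, zero_mul, mul_zero]

end comp

end

/-! ## Base.lean -/

section

open Finset Classical

section base

variable {v : ℕ} [NeZero v] {K : Type*} [Field K] [NumberField K]
    [IsCyclotomicExtension {v} ℚ K] {ζ : K} {P : ℕ} [Fact P.Prime]
    {σ κ : K ≃ₐ[ℚ] K}

theorem base_omega (hζ : IsPrimitiveRoot ζ v) (hP : P ^ 2 ∣ v) :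
    IsPrimitiveRoot (ζ ^ (v / P)) P := by
  have hPv : P ∣ v := (Dvd.intro_left P (by ring : P * P = P ^ 2)).trans hP
  exact hζ.pow (NeZero.pos v) (Nat.div_mul_cancel hPv).symm

theorem base_sigma_pow (hζ : IsPrimitiveRoot ζ v) (hP : P ^ 2 ∣ v)
    (hσ : σ ζ = ζ ^ (1 + v / P)) (i : ℕ) : (σ ^ i) ζ = ζ ^ (1 + i * (v / P)) := by
  have hσω : σ (ζ ^ (v / P)) = ζ ^ (v / P) := by
    rw [map_pow, hσ, ← pow_mul, add_mul, one_mul, pow_add]
    obtain ⟨t, ht⟩ := hP
    have hPp : 0 < P := (Fact.out : P.Prime).pos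
    have h1 : v / P = P * t := by
      apply Nat.div_eq_of_eq_mul_left hPp; rw [ht]; ring
    have h2 : v / P * (v / P) = v * t := by rw [h1, ht]; ring
    rw [h2, pow_mul, hζ.pow_eq_one, one_pow, mul_one]
  induction i with
  | zero => simp
  | succ i ih =>
    rw [pow_succ', AlgEquiv.mul_apply, ih, map_pow, hσ]
    have h3 : (ζ ^ (1 + v / P)) ^ (1 + i * (v / P)) =
        ζ ^ (1 + i * (v / P)) * ((ζ ^ (v / P)) ^ (1 + i * (v / P))) := by
      rw [← pow_mul, ← pow_mul, ← pow_add]; congr 1; ring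
    have h4 : (ζ ^ (v / P)) ^ (i * (v / P)) = 1 := by
      obtain ⟨t, ht⟩ := hP
      have hPp : 0 < P := (Fact.out : P.Prime).pos
      have h1 : v / P = P * t := by
        apply Nat.div_eq_of_eq_mul_left hPp; rw [ht]; ring
      have h2 : v / P * (i * (v / P)) = v * (t * i) := by rw [h1, ht]; ring
      rw [← pow_mul, h2, pow_mul, hζ.pow_eq_one, one_pow]
    rw [h3, pow_add (ζ ^ (v / P)), h4, pow_one, mul_one, ← pow_add]
    congr 1; ring

theorem base_sigma_omega (hζ : IsPrimitiveRoot ζ v) (hP : P ^ 2 ∣ v)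
    (hσ : σ ζ = ζ ^ (1 + v / P)) : σ (ζ ^ (v / P)) = ζ ^ (v / P) := by
  rw [map_pow, hσ, ← pow_mul, add_mul, one_mul, pow_add]
  obtain ⟨t, ht⟩ := hP
  have hPp : 0 < P := (Fact.out : P.Prime).pos
  have h1 : v / P = P * t := by
    apply Nat.div_eq_of_eq_mul_left hPp; rw [ht]; ring
  have h2 : v / P * (v / P) = v * t := by rw [h1, ht]; ring
  rw [h2, pow_mul, hζ.pow_eq_one, one_pow, mul_one]

theorem base_sigma_one (hζ : IsPrimitiveRoot ζ v) (hP : P ^ 2 ∣ v)
    (hσ : σ ζ = ζ ^ (1 + v / P)) : σ ^ P = 1 := by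
  apply aut_ext hζ
  rw [base_sigma_pow hζ hP hσ P, AlgEquiv.one_apply]
  have hPv : P ∣ v := (Dvd.intro_left P (by ring : P * P = P ^ 2)).trans hP
  rw [Nat.mul_div_cancel' hPv, pow_add, hζ.pow_eq_one, pow_one, mul_one]

end base

end

/-! ## CntPart.lean -/

section

open Finset Classical

theorem cnt_comp_sum {K : Type*} [Field K] [Algebra ℚ K] {P : ℕ} [NeZero P] {ω : K}
    {σ : K ≃ₐ[ℚ] K} (k : ZMod P) {ι : Type*} (A : Finset ι) (f : ι → K) :
    comp P ω σ k (∑ i ∈ A, f i) = ∑ i ∈ A, comp P ω σ k (f i) := by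
  unfold comp
  rw [← Finset.mul_sum, Finset.sum_comm]
  congr 1
  refine Finset.sum_congr rfl fun i _ => ?_
  rw [map_sum, Finset.mul_sum]

theorem cnt_comp_zsmul {K : Type*} [Field K] [Algebra ℚ K] {P : ℕ} [NeZero P] {ω : K}
    {σ : K ≃ₐ[ℚ] K} (k : ZMod P) (a : ℤ) (x : K) :
    comp P ω σ k (a • x) = a • comp P ω σ k x := by
  unfold comp
  rw [← mul_smul_comm, Finset.smul_sum]
  congr 1
  refine Finset.sum_congr rfl fun i _ => ?_
  rw [map_zsmul, mul_smul_comm]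

/-- a nonzero algebraic integer has mean absolute square at least one -/
theorem cnt_mean {K : Type*} [Field K] [NumberField K] {y : K} (hy : IsIntegral ℤ y)
    (hy0 : y ≠ 0) : (Fintype.card (K →ₐ[ℚ] ℂ) : ℝ) ≤ ∑ φ : K →ₐ[ℚ] ℂ, ‖φ y‖ ^ 2 := by
  have hpos : ∀ φ : K →ₐ[ℚ] ℂ, 0 < ‖φ y‖ ^ 2 := by
    intro φ
    have : φ y ≠ 0 := by rw [Ne, map_eq_zero]; exact hy0
    positivity
  have hnorm : (1 : ℝ) ≤ ∏ φ : K →ₐ[ℚ] ℂ, ‖φ y‖ ^ 2 := by
    have h1 := Algebra.norm_eq_prod_embeddings ℚ ℂ y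
    have h2 : IsIntegral ℤ (Algebra.norm ℚ y) := Algebra.isIntegral_norm ℚ hy
    obtain ⟨z, hz⟩ := IsIntegrallyClosed.isIntegral_iff.1 h2
    have h3 : Algebra.norm ℚ y ≠ 0 := Algebra.norm_ne_zero_iff.2 hy0
    have hz0 : z ≠ 0 := by
      rintro rfl
      apply h3
      rw [← hz]; simp
    have h4 : ‖(algebraMap ℚ ℂ) (Algebra.norm ℚ y)‖ = |(z : ℝ)| := by
      rw [← hz]; simp
    rw [Finset.prod_pow, ← norm_prod, ← h1, h4]
    have h5 : (1 : ℝ) ≤ |(z : ℝ)| := by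
      have := Int.one_le_abs hz0
      exact_mod_cast this
    nlinarith [abs_nonneg (z : ℝ)]
  have h6 : ∑ φ : K →ₐ[ℚ] ℂ, Real.log (‖φ y‖ ^ 2) = Real.log (∏ φ : K →ₐ[ℚ] ℂ, ‖φ y‖ ^ 2) :=
    (Real.log_prod (fun φ _ => (hpos φ).ne')).symm
  have h7 : 0 ≤ ∑ φ : K →ₐ[ℚ] ℂ, Real.log (‖φ y‖ ^ 2) := by
    rw [h6]; exact Real.log_nonneg hnorm
  have h8 : ∑ φ : K →ₐ[ℚ] ℂ, Real.log (‖φ y‖ ^ 2) ≤ ∑ φ : K →ₐ[ℚ] ℂ, (‖φ y‖ ^ 2 - 1) :=
    Finset.sum_le_sum fun φ _ => Real.log_le_sub_one_of_pos (hpos φ)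
  rw [Finset.sum_sub_distrib] at h8
  simp only [sum_const, card_univ, nsmul_eq_mul, mul_one] at h8
  linarith

theorem card_supp_le {v : ℕ} [NeZero v] {K : Type*} [Field K] [NumberField K]
    [IsCyclotomicExtension {v} ℚ K] {ζ : K} (hζ : IsPrimitiveRoot ζ v) {P : ℕ} [Fact P.Prime]
    (hP : P ^ 2 ∣ v) {σ κ : K ≃ₐ[ℚ] K} (hσ : σ ζ = ζ ^ (1 + v / P)) (hκ : κ ζ = ζ⁻¹)
    {x : K} (hx : IsIntegral ℤ x) {m : ℕ} (h : x * κ x = (m : K) ^ 2) :
    (supp P (ζ ^ (v / P)) σ x).card ≤ m ^ 2 := by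
  have hω := base_omega (P := P) hζ hP
  have hσω := base_sigma_omega (P := P) hζ hP hσ
  have hσ1 := base_sigma_one (P := P) hζ hP hσ
  set ω := ζ ^ (v / P) with hωdef
  have hζ0 : ζ ≠ 0 := hζ.ne_zero (NeZero.ne v)
  have hω0 : ω ≠ 0 := pow_ne_zero _ hζ0
  have hpw : ∀ n : ℕ, ω ^ (n : ZMod P).val = ω ^ n := by
    intro n
    rw [ZMod.val_natCast]
    exact (pow_eq_pow_mod n hω.pow_eq_one).symm
  -- integrality of the components
  have hint : ∀ k, IsIntegral ℤ (comp P ω σ k x) := by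
    intro k
    have h1 := IsCyclotomicExtension.Rat.isIntegralClosure_adjoin_singleton (K := K) hζ
    obtain ⟨⟨y, hy⟩, rfl⟩ := h1.isIntegral_iff.1 hx
    change IsIntegral ℤ (comp P ω σ k y)
    rw [Algebra.adjoin_singleton_eq_range_aeval] at hy
    obtain ⟨p, rfl⟩ := hy
    change IsIntegral ℤ (comp P ω σ k (Polynomial.aeval ζ p))
    rw [Polynomial.aeval_eq_sum_range, cnt_comp_sum]
    refine IsIntegral.sum _ fun i _ => ?_
    rw [cnt_comp_zsmul]
    refine IsIntegral.smul _ ?_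
    rw [comp_of_hom (x := ζ ^ i) (j := (i : ZMod P)) hω hσω hσ1 (by
      rw [hpw, map_pow, hσ, hωdef, ← pow_mul, ← pow_mul, ← pow_add]
      congr 1; ring) k]
    split_ifs
    · exact (hζ.isIntegral (NeZero.pos v)).pow i
    · exact isIntegral_zero
  have hkey : ∑ k : ZMod P, comp P ω σ k x * κ (comp P ω σ k x) = (m : K) ^ 2 := by
    have h0 : comp P ω σ 0 ((m : K) ^ 2) = (m : K) ^ 2 := by
      rw [comp_of_hom (x := (m : K) ^ 2) (j := 0) hω hσω hσ1 (by simp) 0, if_pos rfl]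
    have hκω : κ ω = ω⁻¹ := by rw [hωdef, map_pow, hκ, inv_pow]
    have hκeig : ∀ k : ZMod P, σ (κ (comp P ω σ k x)) =
        ω ^ (-k).val * κ (comp P ω σ k x) := by
      intro k
      rw [aut_comm (v := v) σ κ, comp_eig hω hσω hσ1, map_mul, map_pow, hκω]
      congr 1
      have h1 : ω ^ (-k).val * ω ^ k.val = 1 := by
        rw [← pow_add, pow_eq_pow_mod _ hω.pow_eq_one, ← ZMod.val_add, neg_add_cancel,
          ZMod.val_zero, pow_zero]
      rw [inv_pow]
      exact (eq_inv_of_mul_eq_one_left h1).symm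
    have hprod : ∀ j k : ZMod P, comp P ω σ 0 (comp P ω σ j x * κ (comp P ω σ k x)) =
        if j = k then comp P ω σ j x * κ (comp P ω σ k x) else 0 := by
      intro j k
      rw [comp_of_hom (x := comp P ω σ j x * κ (comp P ω σ k x)) (j := j - k) hω hσω hσ1 (by
        rw [map_mul, comp_eig hω hσω hσ1, hκeig]
        have h2 : ω ^ (j - k).val = ω ^ j.val * ω ^ (-k).val := by
          rw [← pow_add, pow_eq_pow_mod (j.val + (-k).val) hω.pow_eq_one, ← ZMod.val_add,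
            sub_eq_add_neg]
        rw [h2]; ring) 0]
      by_cases hjk : j = k
      · rw [if_pos hjk, if_pos (by rw [hjk, sub_self])]
      · rw [if_neg hjk, if_neg (fun h3 => hjk (sub_eq_zero.1 h3.symm))]
    rw [← h0, ← h]
    have h4 : x * κ x = ∑ j : ZMod P, ∑ k : ZMod P, comp P ω σ j x * κ (comp P ω σ k x) := by
      conv_lhs => rw [← comp_sum (σ := σ) hω x, map_sum, Finset.sum_mul_sum]
    rw [h4, cnt_comp_sum]
    refine Finset.sum_congr rfl fun j _ => ?_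
    rw [cnt_comp_sum, Finset.sum_congr rfl fun k _ => hprod j k, Finset.sum_ite_eq,
      if_pos (mem_univ _)]
  -- absolute values
  have habs : ∀ φ : K →ₐ[ℚ] ℂ, ∑ k : ZMod P, ‖φ (comp P ω σ k x)‖ ^ 2 = (m : ℝ) ^ 2 := by
    intro φ
    have h1 := congrArg φ hkey
    rw [map_sum, map_pow, map_natCast] at h1
    have h2 : ∀ k : ZMod P, φ (comp P ω σ k x * κ (comp P ω σ k x)) =
        ((‖φ (comp P ω σ k x)‖ ^ 2 : ℝ) : ℂ) := by
      intro k
      have h3 := emb_conj hζ hκ φ.toRingHom (comp P ω σ k x)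
      have h4 : φ (κ (comp P ω σ k x)) = (starRingEnd ℂ) (φ (comp P ω σ k x)) := h3
      rw [map_mul, h4, Complex.mul_conj, Complex.normSq_eq_norm_sq]
    rw [Finset.sum_congr rfl fun k _ => h2 k, ← Complex.ofReal_sum] at h1
    exact_mod_cast h1
  have hcardpos : 0 < Fintype.card (K →ₐ[ℚ] ℂ) := by
    rw [AlgHom.card]
    exact Module.finrank_pos
  have htot : ∑ k : ZMod P, ∑ φ : K →ₐ[ℚ] ℂ, ‖φ (comp P ω σ k x)‖ ^ 2 =
      (Fintype.card (K →ₐ[ℚ] ℂ) : ℝ) * (m : ℝ) ^ 2 := by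
    rw [Finset.sum_comm, Finset.sum_congr rfl fun φ _ => habs φ, Finset.sum_const, card_univ,
      nsmul_eq_mul]
  have hlow : ((supp P ω σ x).card : ℝ) * (Fintype.card (K →ₐ[ℚ] ℂ) : ℝ) ≤
      ∑ k : ZMod P, ∑ φ : K →ₐ[ℚ] ℂ, ‖φ (comp P ω σ k x)‖ ^ 2 := by
    calc ((supp P ω σ x).card : ℝ) * (Fintype.card (K →ₐ[ℚ] ℂ) : ℝ)
        = ∑ k ∈ supp P ω σ x, (Fintype.card (K →ₐ[ℚ] ℂ) : ℝ) := by
          rw [Finset.sum_const, nsmul_eq_mul]
      _ ≤ ∑ k ∈ supp P ω σ x, ∑ φ : K →ₐ[ℚ] ℂ, ‖φ (comp P ω σ k x)‖ ^ 2 := by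
          refine Finset.sum_le_sum fun k hk => cnt_mean (hint k) ?_
          simp only [supp, mem_filter] at hk
          exact hk.2
      _ ≤ _ := Finset.sum_le_sum_of_subset_of_nonneg (subset_univ _)
          fun k _ _ => Finset.sum_nonneg fun φ _ => by positivity
  rw [htot, mul_comm] at hlow
  have h9 : ((supp P ω σ x).card : ℝ) ≤ (m : ℝ) ^ 2 :=
    le_of_mul_le_mul_left hlow (by exact_mod_cast hcardpos)
  exact_mod_cast h9

end

/-! ## ParPart.lean -/

section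

open Finset Classical

theorem par_comp_sum {K : Type*} [Field K] [Algebra ℚ K] {P : ℕ} [NeZero P] {ω : K}
    {σ : K ≃ₐ[ℚ] K} (k : ZMod P) (A : Finset ℕ) (f : ℕ → K) :
    comp P ω σ k (∑ i ∈ A, f i) = ∑ i ∈ A, comp P ω σ k (f i) := by
  unfold comp
  rw [← Finset.mul_sum, Finset.sum_comm]
  congr 1
  refine Finset.sum_congr rfl fun i _ => ?_
  rw [map_sum, Finset.mul_sum]

theorem par_geom {v : ℕ} (hv : 0 < v) {z : ℂ} (hz : IsPrimitiveRoot z v) {i j : ℕ} (hi : i < v)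
    (hj : j < v) : ∑ c ∈ range v, (z ^ c) ^ i * ((z ^ c)⁻¹) ^ j = if i = j then (v : ℂ) else 0 := by
  have hz0 : z ≠ 0 := hz.ne_zero hv.ne'
  have h1 : ∀ c : ℕ, (z ^ c) ^ i * ((z ^ c)⁻¹) ^ j = (z ^ i * (z⁻¹) ^ j) ^ c := by
    intro c
    rw [mul_pow, ← pow_mul, ← pow_mul, ← pow_mul, mul_comm c i, inv_pow, inv_pow, ← pow_mul,
      mul_comm c j]
  rw [Finset.sum_congr rfl fun c _ => h1 c]
  set w := z ^ i * (z⁻¹) ^ j with hw
  by_cases hij : i = j
  · subst hij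
    have : w = 1 := by rw [hw, ← mul_pow, mul_inv_cancel₀ hz0, one_pow]
    simp [this]
  · rw [if_neg hij]
    have hwv : w ^ v = 1 := by
      rw [hw, mul_pow, ← pow_mul, ← pow_mul, mul_comm i, mul_comm j, pow_mul, pow_mul, hz.pow_eq_one,
        inv_pow, hz.pow_eq_one]
      simp
    have hw1 : w ≠ 1 := by
      intro h
      apply hij
      have h2 : z ^ i = z ^ j := by
        have h3 : w * z ^ j = z ^ i := by
          rw [hw, mul_assoc, ← mul_pow, inv_mul_cancel₀ hz0, one_pow, mul_one]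
        rw [← h3, h, one_mul]
      exact hz.pow_inj hi hj h2
    have := mul_geom_sum w v
    rw [hwv, sub_self] at this
    rcases mul_eq_zero.1 this with h | h
    · exact absurd (sub_eq_zero.1 h) hw1
    · exact h

theorem par_norm_sq {v : ℕ} (hv : 0 < v) {z : ℂ} (hz : z ^ v = 1) (A : Finset ℕ) :
    ((‖∑ i ∈ A, z ^ i‖ ^ 2 : ℝ) : ℂ) = ∑ i ∈ A, ∑ j ∈ A, z ^ i * (z⁻¹) ^ j := by
  have hn : ‖z‖ = 1 := Complex.norm_eq_one_of_pow_eq_one hz hv.ne'
  have hc : (starRingEnd ℂ) z = z⁻¹ := by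
    rw [Complex.inv_def, Complex.normSq_eq_norm_sq, hn]; simp
  rw [← Complex.normSq_eq_norm_sq, ← Complex.mul_conj, map_sum, Finset.sum_mul_sum]
  refine Finset.sum_congr rfl fun i _ => Finset.sum_congr rfl fun j _ => ?_
  rw [map_pow, hc]

theorem par_parseval {v : ℕ} (hv : 0 < v) {z : ℂ} (hz : IsPrimitiveRoot z v) {A : Finset ℕ}
    (hA : A ⊆ range v) : ∑ c ∈ range v, ‖∑ i ∈ A, (z ^ c) ^ i‖ ^ 2 = (v : ℝ) * A.card := by
  have h1 : ((∑ c ∈ range v, ‖∑ i ∈ A, (z ^ c) ^ i‖ ^ 2 : ℝ) : ℂ) = (v : ℂ) * A.card := by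
    rw [Complex.ofReal_sum]
    have h2 : ∀ c ∈ range v, ((‖∑ i ∈ A, (z ^ c) ^ i‖ ^ 2 : ℝ) : ℂ) =
        ∑ i ∈ A, ∑ j ∈ A, (z ^ c) ^ i * ((z ^ c)⁻¹) ^ j := by
      intro c _
      apply par_norm_sq hv
      rw [← pow_mul, mul_comm, pow_mul, hz.pow_eq_one, one_pow]
    rw [Finset.sum_congr rfl h2, Finset.sum_comm]
    have h3 : ∀ i ∈ A, ∑ c ∈ range v, ∑ j ∈ A, (z ^ c) ^ i * ((z ^ c)⁻¹) ^ j = (v : ℂ) := by
      intro i hi
      rw [Finset.sum_comm]
      have h4 : ∀ j ∈ A, ∑ c ∈ range v, (z ^ c) ^ i * ((z ^ c)⁻¹) ^ j =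
          if i = j then (v : ℂ) else 0 := fun j hj =>
        par_geom hv hz (mem_range.1 (hA hi)) (mem_range.1 (hA hj))
      rw [Finset.sum_congr rfl h4, Finset.sum_ite_eq, if_pos hi]
    rw [Finset.sum_congr rfl h3, Finset.sum_const, nsmul_eq_mul, mul_comm]
  exact_mod_cast h1

theorem par_bound {v P F u : ℕ} (hv : v = P * F) (hv4 : v = 4 * u ^ 2) (hP : P.Prime) (hF : 1 < F)
    (hu : 1 ≤ u) {A : Finset ℕ} (hA : A ⊆ range v) {r : ℕ} (hr : ∀ i ∈ A, i % P = r)
    (hval : ∀ z : ℂ, IsPrimitiveRoot z v → ‖∑ i ∈ A, z ^ i‖ ^ 2 = (u : ℝ) ^ 2) :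
    P * Nat.totient v ≤ v := by
  have hPp := hP.pos
  have hv0 : 0 < v := by rw [hv]; positivity
  set z : ℂ := Complex.exp (2 * Real.pi * Complex.I / v) with hz'
  have hz : IsPrimitiveRoot z v := Complex.isPrimitiveRoot_exp v hv0.ne'
  have htot := par_parseval hv0 hz hA
  -- the exponents divisible by F
  have hdiv : ∑ c ∈ (range v).filter (fun c => F ∣ c), ‖∑ i ∈ A, (z ^ c) ^ i‖ ^ 2 =
      (P : ℝ) * (A.card : ℝ) ^ 2 := by
    have h1 : (range v).filter (fun c => F ∣ c) = (range P).image (fun t => F * t) := by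
      ext c
      simp only [mem_filter, mem_range, mem_image]
      constructor
      · rintro ⟨h1, t, ht⟩
        refine ⟨t, ?_, ht.symm⟩
        rw [ht, hv, mul_comm P F] at h1
        exact Nat.lt_of_mul_lt_mul_left h1
      · rintro ⟨t, ht, rfl⟩
        refine ⟨?_, Dvd.intro _ rfl⟩
        rw [hv, mul_comm P F]
        exact Nat.mul_lt_mul_of_pos_left ht (by omega)
    rw [h1, Finset.sum_image (by
      intro a _ b _ hab
      exact Nat.eq_of_mul_eq_mul_left (by omega) hab)]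
    have h2 : ∀ t ∈ range P, ‖∑ i ∈ A, (z ^ (F * t)) ^ i‖ ^ 2 = (A.card : ℝ) ^ 2 := by
      intro t _
      have hw : (z ^ (F * t)) ^ P = 1 := by
        rw [← pow_mul, show F * t * P = v * t by rw [hv]; ring, pow_mul, hz.pow_eq_one, one_pow]
      have hn : ‖z ^ (F * t)‖ = 1 := Complex.norm_eq_one_of_pow_eq_one hw hPp.ne'
      have h3 : ∀ i ∈ A, (z ^ (F * t)) ^ i = (z ^ (F * t)) ^ r := by
        intro i hi
        conv_lhs => rw [← Nat.div_add_mod i P, hr i hi, pow_add, pow_mul, hw, one_pow, one_mul]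
      rw [Finset.sum_congr rfl h3, Finset.sum_const, nsmul_eq_mul, norm_mul, norm_pow, hn]
      simp
    rw [Finset.sum_congr rfl h2, Finset.sum_const, card_range, nsmul_eq_mul]
  have hsplit := Finset.sum_filter_add_sum_filter_not (range v) (fun c => F ∣ c)
    (fun c => ‖∑ i ∈ A, (z ^ c) ^ i‖ ^ 2)
  have hcop : (Nat.totient v : ℝ) * (u : ℝ) ^ 2 ≤
      ∑ c ∈ (range v).filter (fun c => ¬ F ∣ c), ‖∑ i ∈ A, (z ^ c) ^ i‖ ^ 2 := by
    have h1 : ∑ c ∈ (range v).filter (fun c => v.Coprime c), ‖∑ i ∈ A, (z ^ c) ^ i‖ ^ 2 =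
        (Nat.totient v : ℝ) * (u : ℝ) ^ 2 := by
      have h2 : ∀ c ∈ (range v).filter (fun c => v.Coprime c),
          ‖∑ i ∈ A, (z ^ c) ^ i‖ ^ 2 = (u : ℝ) ^ 2 := by
        intro c hc
        simp only [mem_filter] at hc
        exact hval _ (hz.pow_of_coprime c hc.2.symm)
      rw [Finset.sum_congr rfl h2, Finset.sum_const, nsmul_eq_mul, Nat.totient]
    rw [← h1]
    apply Finset.sum_le_sum_of_subset_of_nonneg
    · intro c hc
      simp only [mem_filter] at hc ⊢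
      refine ⟨hc.1, fun h => ?_⟩
      have h3 : F ∣ v := ⟨P, by rw [hv]; ring⟩
      have h4 : F ∣ Nat.gcd v c := Nat.dvd_gcd h3 h
      rw [hc.2] at h4
      have := Nat.dvd_one.1 h4
      omega
    · intro c _ _; positivity
  have hkey : (Nat.totient v : ℝ) * (u : ℝ) ^ 2 ≤ (v : ℝ) * A.card - P * (A.card : ℝ) ^ 2 := by
    rw [← htot, ← hsplit, hdiv]; linarith
  have hvR : (v : ℝ) = P * F := by rw [hv]; push_cast; ring
  have hv4R : (v : ℝ) = 4 * (u : ℝ) ^ 2 := by rw [hv4]; push_cast; ring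
  have hPR : (0 : ℝ) < P := by exact_mod_cast hPp
  have huR : (0 : ℝ) < (u : ℝ) ^ 2 := by positivity
  have h5 : 4 * (P : ℝ) * ((v : ℝ) * A.card - P * (A.card : ℝ) ^ 2) ≤ (v : ℝ) ^ 2 := by
    nlinarith [sq_nonneg ((v : ℝ) - 2 * P * A.card)]
  have h6 : (P : ℝ) * (Nat.totient v : ℝ) * (4 * (u : ℝ) ^ 2) ≤ (v : ℝ) * (4 * (u : ℝ) ^ 2) := by
    have h8 : 4 * (P : ℝ) * ((Nat.totient v : ℝ) * (u : ℝ) ^ 2) ≤
        4 * (P : ℝ) * ((v : ℝ) * A.card - P * (A.card : ℝ) ^ 2) :=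
      mul_le_mul_of_nonneg_left hkey (by positivity)
    calc (P : ℝ) * (Nat.totient v : ℝ) * (4 * (u : ℝ) ^ 2)
        = 4 * (P : ℝ) * ((Nat.totient v : ℝ) * (u : ℝ) ^ 2) := by ring
      _ ≤ (v : ℝ) ^ 2 := h8.trans h5
      _ = (v : ℝ) * (4 * (u : ℝ) ^ 2) := by rw [← hv4R]; ring
  have h7 : (P : ℝ) * (Nat.totient v : ℝ) ≤ v := le_of_mul_le_mul_right h6 (by positivity)
  exact_mod_cast h7

theorem parseval_final {u P : ℕ} (hP : P.Prime) (hu : 1 ≤ u) (hPu : P ∣ u) {K : Type*} [Field K]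
    [NumberField K] [IsCyclotomicExtension {4 * u ^ 2} ℚ K] {ζ : K}
    (hζ : IsPrimitiveRoot ζ (4 * u ^ 2)) {A : Finset ℕ} (hA : A ⊆ range (4 * u ^ 2))
    {σ : K ≃ₐ[ℚ] K} (hσ : σ ζ = ζ ^ (1 + 4 * u ^ 2 / P)) {j : ℕ}
    (hhom : σ (∑ i ∈ A, ζ ^ i) = (ζ ^ (4 * u ^ 2 / P)) ^ j * ∑ i ∈ A, ζ ^ i)
    (hY : ∀ φ : K →+* ℂ, ‖φ (∑ i ∈ A, ζ ^ i)‖ ^ 2 = (u : ℝ) ^ 2) :
    P * Nat.totient (4 * u ^ 2) ≤ 4 * u ^ 2 := by
  haveI : Fact P.Prime := ⟨hP⟩
  haveI : NeZero (4 * u ^ 2) := ⟨by positivity⟩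
  have hPv : P ^ 2 ∣ 4 * u ^ 2 := Dvd.dvd.mul_left (pow_dvd_pow_of_dvd hPu 2) 4
  have hω := base_omega (P := P) hζ hPv
  have hσω := base_sigma_omega (P := P) hζ hPv hσ
  have hσ1 := base_sigma_one (P := P) hζ hPv hσ
  obtain ⟨w, hw⟩ := hPu
  have hw0 : 0 < w := by
    rcases Nat.eq_zero_or_pos w with h | h
    · subst h; omega
    · exact h
  have hdiv : 4 * u ^ 2 / P = P * (4 * w ^ 2) := by
    apply Nat.div_eq_of_eq_mul_left hP.pos
    rw [hw]; ring
  have hpw : ∀ m : ℕ, (ζ ^ (4 * u ^ 2 / P)) ^ (m : ZMod P).val = (ζ ^ (4 * u ^ 2 / P)) ^ m := by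
    intro m
    rw [ZMod.val_natCast]
    exact (pow_eq_pow_mod m hω.pow_eq_one).symm
  have hYj : ∑ i ∈ A, ζ ^ i = ∑ i ∈ A.filter (fun i : ℕ => (i : ZMod P) = (j : ZMod P)), ζ ^ i := by
    have h1 := comp_of_hom (x := ∑ i ∈ A, ζ ^ i) (j := (j : ZMod P)) hω hσω hσ1
      (by rw [hpw]; exact hhom) (j : ZMod P)
    rw [if_pos rfl, par_comp_sum] at h1
    rw [← h1, Finset.sum_filter]
    refine Finset.sum_congr rfl fun i _ => ?_
    have h2 := comp_of_hom (x := ζ ^ i) (j := (i : ZMod P)) hω hσω hσ1 (by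
      rw [hpw, map_pow, hσ, ← pow_mul, ← pow_mul, ← pow_add]
      congr 1; ring) (j : ZMod P)
    rw [h2]
    by_cases hij : (i : ZMod P) = (j : ZMod P)
    · rw [if_pos hij, if_pos hij.symm]
    · rw [if_neg hij, if_neg (fun h => hij h.symm)]
  set A' := A.filter (fun i : ℕ => (i : ZMod P) = (j : ZMod P)) with hA'
  refine par_bound (v := 4 * u ^ 2) (P := P) (F := P * (4 * w ^ 2)) (A := A') (r := j % P) (by
    rw [hw]; ring) rfl hP (by
      have h1 := hP.two_le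
      have h2 : 1 ≤ w ^ 2 := Nat.one_le_pow _ _ hw0
      nlinarith) hu ((filter_subset _ _).trans hA) ?_ ?_
  · intro i hi
    simp only [hA', mem_filter] at hi
    exact (ZMod.natCast_eq_natCast_iff' _ _ _).1 hi.2
  · intro z hz
    have hirr : Irreducible (Polynomial.cyclotomic (4 * u ^ 2) ℚ) :=
      Polynomial.cyclotomic.irreducible_rat (NeZero.pos _)
    set e := hζ.embeddingsEquivPrimitiveRoots ℂ hirr with he
    have hzm : z ∈ primitiveRoots (4 * u ^ 2) ℂ := (mem_primitiveRoots (NeZero.pos _)).2 hz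
    set φ := e.symm ⟨z, hzm⟩ with hφ
    have h1 : φ ζ = z := by
      have h2 := hζ.embeddingsEquivPrimitiveRoots_apply_coe ℂ hirr φ
      rw [← he, hφ, Equiv.apply_symm_apply] at h2
      rw [hφ]; exact h2.symm
    have h3 := hY φ.toRingHom
    rw [hYj, map_sum] at h3
    have h4 : ∑ i ∈ A', φ.toRingHom (ζ ^ i) = ∑ i ∈ A', z ^ i := by
      refine Finset.sum_congr rfl fun i _ => ?_
      rw [map_pow]
      exact congrArg (· ^ i) h1
    rw [h4] at h3
    exact h3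

end

/-! ## Chain.lean -/

section

open Finset Classical

/-! ## Elementary number theory -/

theorem exists_crt_tau {v P q : ℕ} (hv : v ≠ 0) (hP : P.Prime) (hPv : P ∣ v) (hq : q.Prime)
    (hqP : q ≠ P) : ∃ c e w : ℕ, c.Coprime v ∧ v = q ^ e * w ∧ c ≡ q [MOD w] ∧ P ∣ w := by
  obtain ⟨e, w, hw, hvw⟩ := Nat.exists_eq_pow_mul_and_not_dvd hv q hq.ne_one
  have hcop : (q ^ e).Coprime w := Nat.Coprime.pow_left e ((Nat.Prime.coprime_iff_not_dvd hq).2 hw)
  obtain ⟨c, hc1, hc2⟩ := Nat.chineseRemainder hcop 1 q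
  refine ⟨c, e, w, ?_, hvw, hc2, ?_⟩
  · rw [hvw]
    apply Nat.Coprime.mul_right
    · have := hc1.gcd_eq
      rw [Nat.gcd_one_left] at this
      exact this
    · have := hc2.gcd_eq
      rw [(Nat.Prime.coprime_iff_not_dvd hq).2 hw] at this
      exact this
  · rw [hvw] at hPv
    rcases (Nat.Prime.dvd_mul hP).1 hPv with h | h
    · exact absurd ((Nat.prime_dvd_prime_iff_eq hP hq).1 (hP.dvd_of_dvd_pow h)).symm hqP
    · exact h

theorem good_fix {u P q : ℕ} (hu : 1 ≤ u) (hP : P.Prime) (hP2 : P ≠ 2) (hPu : P ∣ u)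
    (hr : ∀ r : ℕ, r.Prime → r ∣ u → ¬ P ∣ r - 1) (hq : q.Prime)
    (hgood : ¬ Bad P q) :
    ∃ f e w : ℕ, 4 * u ^ 2 = q ^ e * w ∧ 1 + 4 * u ^ 2 / P ≡ q ^ f [MOD w] := by
  have hv : 4 * u ^ 2 ≠ 0 := by positivity
  obtain ⟨k, w, hw, hvw⟩ := Nat.exists_eq_pow_mul_and_not_dvd hv P hP.ne_one
  have hk : 2 ≤ k := by
    by_contra hk
    have h1 : P ^ 2 ∣ P ^ k * w := by
      rw [← hvw]; exact Dvd.dvd.mul_left (pow_dvd_pow_of_dvd hPu 2) 4
    have h2 : (P ^ 2).Coprime w := Nat.Coprime.pow_left 2 ((Nat.Prime.coprime_iff_not_dvd hP).2 hw)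
    have h3 := h2.dvd_of_dvd_mul_right h1
    exact hk ((Nat.pow_dvd_pow_iff_le_right hP.one_lt).1 h3)
  obtain ⟨n, rfl⟩ : ∃ n, k = n + 1 := ⟨k - 1, by omega⟩
  have hdiv : 4 * u ^ 2 / P = P ^ n * w := by
    rw [hvw, pow_succ]
    apply Nat.div_eq_of_eq_mul_left hP.pos
    ring
  by_cases hqP : q = P
  · subst hqP
    refine ⟨0, n + 1, w, hvw, ?_⟩
    rw [hdiv, pow_zero]
    have : q ^ n * w ≡ 0 [MOD w] := (Nat.modEq_zero_iff_dvd).2 (Dvd.intro_left _ rfl)
    simpa using (Nat.ModEq.refl 1).add this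
  · have hw0 : w ≠ 0 := by rintro rfl; simp at hw
    obtain ⟨e, w', hw', hww⟩ := Nat.exists_eq_pow_mul_and_not_dvd hw0 q hq.ne_one
    have hPw' : w'.Coprime P := by
      rw [Nat.coprime_comm, Nat.Prime.coprime_iff_not_dvd hP]
      intro h
      exact hw (hww ▸ Dvd.dvd.mul_left h _)
    have hPq : ¬ P ∣ q := fun h => hqP ((Nat.prime_dvd_prime_iff_eq hP hq).1 h).symm
    obtain ⟨f, hf⟩ := exists_pow_modEq (t := q ^ e) (n := n) (w := w') hP hP2 hPq
      (fun h => hgood ⟨hq, hqP, h⟩) (by omega) ((Nat.Prime.coprime_iff_not_dvd hq).2 hw') hPw' (by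
        apply not_dvd_totient hP (by rintro rfl; simp at hw') hPw'
        intro r hr1 hr2
        have h1 : r ∣ 4 * u ^ 2 := by
          rw [hvw, hww]; exact Dvd.dvd.mul_left (Dvd.dvd.mul_left hr2 _) _
        rcases (Nat.Prime.dvd_mul hr1).1 h1 with h | h
        · have h2 : r ∣ 2 := hr1.dvd_of_dvd_pow (n := 2) (by simpa using h)
          have h3 : r = 2 := (Nat.prime_dvd_prime_iff_eq hr1 Nat.prime_two).1 h2
          subst h3
          intro h4
          exact hP.one_lt.ne' (Nat.dvd_one.1 h4)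
        · exact hr r hr1 (hr1.dvd_of_dvd_pow h))
    refine ⟨f, e, w' * P ^ (n + 1), ?_, ?_⟩
    · rw [hvw, hww]; ring
    · rw [hdiv, hww]
      have : P ^ n * (q ^ e * w') = w' * q ^ e * P ^ n := by ring
      rw [this]
      exact hf

section chain

variable {v : ℕ} [NeZero v] {K : Type*} [Field K] [NumberField K]
    [IsCyclotomicExtension {v} ℚ K] {ζ : K} {P : ℕ} [Fact P.Prime]
    {σ κ : K ≃ₐ[ℚ] K}

theorem exists_tau (hζ : IsPrimitiveRoot ζ v) (hP : P ^ 2 ∣ v) {q : ℕ} (hq : q.Prime)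
    (hqP : q ≠ P) : ∃ (τ : K ≃ₐ[ℚ] K) (c e w : ℕ), τ ζ = ζ ^ c ∧ v = q ^ e * w ∧ c ≡ q [MOD w] ∧
      τ (ζ ^ (v / P)) = (ζ ^ (v / P)) ^ q := by
  have hPv : P ∣ v := (Dvd.intro_left P (by ring : P * P = P ^ 2)).trans hP
  obtain ⟨c, e, w, hc, hvw, hcw, hPw⟩ := exists_crt_tau (NeZero.ne v) (Fact.out : P.Prime) hPv hq hqP
  obtain ⟨τ, hτ⟩ := exists_aut (K := K) hζ hc
  refine ⟨τ, c, e, w, hτ, hvw, hcw, ?_⟩
  rw [map_pow, hτ, ← pow_mul, mul_comm c, pow_mul]
  have h1 : c ≡ q [MOD P] := hcw.of_dvd hPw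
  have h2 : (ζ ^ (v / P)) ^ P = 1 := (base_omega hζ hP).pow_eq_one
  rw [← pow_mod_orderOf (ζ ^ (v / P)) c, ← pow_mod_orderOf (ζ ^ (v / P)) q,
    ← (base_omega hζ hP).eq_orderOf, h1]

theorem chain (hζ : IsPrimitiveRoot ζ v) (hP : P ^ 2 ∣ v)
    (hσ : σ ζ = ζ ^ (1 + v / P)) (hκ : κ ζ = ζ⁻¹) (L : Finset ℕ)
    (hL : ∀ q ∈ L, q.Prime ∧ q ≠ P) :
    ∀ (E : ℕ → ℕ) (W : K), IsIntegral ℤ W → W * κ W = ((∏ q ∈ L, q ^ E q : ℕ) : K) ^ 2 →
      (∀ q ∈ L, (∏ q ∈ L, q ^ E q) ^ 2 ^ L.card < orderOf (q : ZMod P)) →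
      ∃ j : ZMod P, σ W = (ζ ^ (v / P)) ^ j.val * W := by
  have hω := base_omega (P := P) hζ hP
  have hσω := base_sigma_omega (P := P) hζ hP hσ
  have hσ1 := base_sigma_one (P := P) hζ hP hσ
  induction L using Finset.induction_on with
  | empty =>
    intro E W hW hWW _
    have hW0 : W ≠ 0 := by
      rintro rfl
      simp at hWW
    have h1 := card_supp_le hζ hP hσ hκ hW hWW
    have h2 := Finset.card_pos.2 (supp_nonempty hω hσω hσ1 hW0)
    apply hom_of_card_supp hω hσω hσ1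
    simp only [prod_empty, one_pow] at h1
    omega
  | insert q L hqL ih =>
    intro E W hW hWW hord
    have hL' : ∀ q ∈ L, q.Prime ∧ q ≠ P := fun q hq => hL q (mem_insert_of_mem hq)
    obtain ⟨hqp, hqP⟩ := hL q (mem_insert_self _ _)
    obtain ⟨τ, c, e, w, hτ, hvw, hcw, hτω⟩ := exists_tau hζ hP hqp hqP
    set M' : ℕ := ∏ q ∈ L, q ^ E q with hM'
    have hM : ∏ q ∈ insert q L, q ^ E q = q ^ E q * M' := by
      rw [prod_insert hqL]
    rw [hM] at hWW hord
    set M : ℕ := q ^ E q * M' with hMdef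
    have hM'pos : 0 < M' := Finset.prod_pos fun r hr => pow_pos (hL' r hr).1.pos _
    have hMpos : 0 < M := Nat.mul_pos (pow_pos hqp.pos _) hM'pos
    have hW0 : W ≠ 0 := by
      rintro rfl
      simp only [zero_mul] at hWW
      have : (M : K) ≠ 0 := Nat.cast_ne_zero.2 hMpos.ne'
      exact this (pow_eq_zero_iff two_ne_zero |>.1 hWW.symm)
    have hκint : IsIntegral ℤ (κ W) := hW.map κ
    set n : ℕ := q ^ (2 * E q) with hn
    have hn0 : n ≠ 0 := pow_ne_zero _ hqp.ne_zero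
    have hnK : (n : K) ≠ 0 := Nat.cast_ne_zero.2 hn0
    have hMn : (M : K) ^ 2 = n * (M' : K) ^ 2 := by
      rw [hMdef, hn]; push_cast; ring
    have hint : IsIntegral ℤ (κ W * τ W / n) := by
      refine div_integral hζ τ hτ hn0 ?_ hκint hW (Y := (M' : K) ^ 2)
        ((isIntegral_natCast (R := ℤ) M').pow 2) ?_
      · intro q' hq' hq'n
        have : q' = q := (Nat.prime_dvd_prime_iff_eq hq' hqp).1 (hq'.dvd_of_dvd_pow hq'n)
        subst this
        exact ⟨1, e, w, hvw, by simpa using hcw⟩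
      · rw [mul_comm, hWW, hMn]
    set W' : K := κ W * τ W / n with hW'
    have hprod : W' * κ W' = ((∏ q ∈ L, q ^ (2 * E q) : ℕ) : K) ^ 2 := by
      have h1 : κ W * κ (κ W) = (M : K) ^ 2 := by
        rw [← map_mul, hWW, map_pow, map_natCast]
      have h2 : τ W * κ (τ W) = (M : K) ^ 2 := by
        rw [aut_comm (v := v) κ τ, ← map_mul, hWW, map_pow, map_natCast]
      have h3 : κ W' = κ (κ W) * κ (τ W) / n := by
        rw [hW', map_div₀, map_mul, map_natCast]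
      have h4 : (∏ q ∈ L, q ^ (2 * E q) : ℕ) = M' ^ 2 := by
        rw [hM', ← Finset.prod_pow]
        refine Finset.prod_congr rfl fun r _ => ?_
        rw [← pow_mul, mul_comm]
      rw [h4, h3, hW']
      have : κ W * τ W / n * (κ (κ W) * κ (τ W) / n) =
          (κ W * κ (κ W)) * (τ W * κ (τ W)) / (n : K) ^ 2 := by
        field_simp
      rw [this, h1, h2, hMn]
      push_cast
      field_simp
    obtain ⟨j, hj⟩ := ih hL' (fun q => 2 * E q) W' hint hprod (by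
      intro r hr
      refine lt_of_le_of_lt ?_ (hord r (mem_insert_of_mem hr))
      have h4 : (∏ q ∈ L, q ^ (2 * E q) : ℕ) = M' ^ 2 := by
        rw [hM', ← Finset.prod_pow]
        refine Finset.prod_congr rfl fun r _ => ?_
        rw [← pow_mul, mul_comm]
      rw [h4, card_insert_of_notMem hqL, pow_succ 2, mul_comm (2 ^ L.card) 2, pow_mul]
      apply Nat.pow_le_pow_left
      apply Nat.pow_le_pow_left
      exact Nat.le_mul_of_pos_left _ (pow_pos hqp.pos _))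
    have hW'0 : W' ≠ 0 := by
      intro h0
      rw [h0, zero_mul] at hprod
      have : ((∏ q ∈ L, q ^ (2 * E q) : ℕ) : K) ≠ 0 :=
        Nat.cast_ne_zero.2 (Finset.prod_pos fun r hr => pow_pos (hL' r hr).1.pos _).ne'
      exact this (pow_eq_zero_iff two_ne_zero |>.1 hprod.symm)
    have hMK : (M : K) ≠ 0 := Nat.cast_ne_zero.2 hMpos.ne'
    set y : K := (n : K) / (M : K) ^ 2 * W' with hy
    have hyσ : σ y = (ζ ^ (v / P)) ^ j.val * y := by
      rw [hy, map_mul, map_div₀, map_pow, map_natCast, map_natCast, hj]; ring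
    have hy0 : y ≠ 0 := mul_ne_zero (div_ne_zero hnK (pow_ne_zero _ hMK)) hW'0
    have hyW : y * W = τ W := by
      have h1 : y * W = (W * κ W) * τ W / (M : K) ^ 2 := by
        rw [hy, hW']; field_simp
      rw [h1, hWW]; field_simp
    have hs1 := supp_mul hω hσω hσ1 hyσ hy0 W
    have hqPc : q.Coprime P := (Nat.coprime_primes hqp (Fact.out : P.Prime)).2 hqP
    have hs2 := supp_tau hω hσω hσ1 (fun x => aut_comm (v := v) τ σ x) hqPc hτω W
    rw [hyW, hs2] at hs1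
    have hq0 : (q : ZMod P) ≠ 0 := by
      rw [Ne, ZMod.natCast_eq_zero_iff]
      intro h
      exact hqP ((Nat.prime_dvd_prime_iff_eq (Fact.out : P.Prime) hqp).1 h).symm
    have hcard := card_supp_le hζ hP hσ hκ hW hWW
    apply hom_of_card_supp hω hσω hσ1
    refine card_eq_one_of_affine hq0 j (supp_nonempty hω hσω hσ1 hW0) hs1 ?_
    refine lt_of_le_of_lt hcard (lt_of_le_of_lt ?_ (hord q (mem_insert_self _ _)))
    apply Nat.pow_le_pow_right hMpos
    rw [card_insert_of_notMem hqL, pow_succ]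
    have := Nat.one_le_two_pow (n := L.card)
    omega

end chain

end

/-! ## ThmA.lean -/

section

open Finset Classical

section telescoping

variable {v : ℕ} [NeZero v] {K : Type*} [Field K] [NumberField K]
    [IsCyclotomicExtension {v} ℚ K] {ζ : K} {P : ℕ} [Fact P.Prime]
    {σ κ : K ≃ₐ[ℚ] K}

/-- If `Y / σ Y` is in an eigenspace of `σ`, then so is `Y`. -/
theorem hom_of_quot (hζ : IsPrimitiveRoot ζ v) (hP : P ^ 2 ∣ v) (hP2 : P ≠ 2)
    (hσ : σ ζ = ζ ^ (1 + v / P)) {Y α : K} (hY : Y ≠ 0) (hα : α = Y / σ Y) {c : ℕ}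
    (hc : σ α = (ζ ^ (v / P)) ^ c * α) : ∃ j : ℕ, σ Y = (ζ ^ (v / P)) ^ j * Y := by
  have hω := base_omega (P := P) hζ hP
  have hσω := base_sigma_omega (P := P) hζ hP hσ
  have hσ1 := base_sigma_one (P := P) hζ hP hσ
  set ω := ζ ^ (v / P) with hωdef
  have hσi : ∀ i : ℕ, (σ ^ i) Y ≠ 0 := fun i => by
    rw [Ne, EmbeddingLike.map_eq_zero_iff]; exact hY
  have h1 : ∀ i : ℕ, (σ ^ i) α = ω ^ (c * i) * α := by
    intro i
    induction i with
    | zero => simp
    | succ i ih =>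
      rw [pow_succ', AlgEquiv.mul_apply, ih, map_mul, map_pow, hσω, hc, mul_add, mul_one, pow_add]
      ring
  have h2 : ∀ i : ℕ, (σ ^ i) α = (σ ^ i) Y / (σ ^ (i + 1)) Y := by
    intro i
    rw [hα, map_div₀, pow_succ, AlgEquiv.mul_apply]
  have h3' : ∀ n : ℕ, ∏ i ∈ range n, (σ ^ i) α = Y / (σ ^ n) Y := by
    intro n
    induction n with
    | zero => rw [prod_range_zero, pow_zero, AlgEquiv.one_apply, div_self hY]
    | succ n ih => rw [prod_range_succ, ih, h2, div_mul_div_cancel₀ (hσi n)]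
  have h3 : ∏ i ∈ range P, (σ ^ i) α = 1 := by
    rw [h3', hσ1, AlgEquiv.one_apply, div_self hY]
  have h4 : ∏ i ∈ range P, (σ ^ i) α = ω ^ (c * ∑ i ∈ range P, i) * α ^ P := by
    rw [Finset.prod_congr rfl fun i _ => h1 i, Finset.prod_mul_distrib, Finset.prod_const,
      card_range, Finset.prod_pow_eq_pow_sum, ← Finset.mul_sum]
  have hPp : P.Prime := Fact.out
  have hPodd : Odd P := hPp.odd_of_ne_two hP2
  have h5 : ω ^ (c * ∑ i ∈ range P, i) = 1 := by
    obtain ⟨t, ht⟩ := hPodd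
    have h6 : ∑ i ∈ range P, i = P * t := by
      have := Finset.sum_range_id_mul_two P
      have h7 : P - 1 = 2 * t := by omega
      rw [h7] at this
      nlinarith
    rw [h6, mul_left_comm, pow_mul, hω.pow_eq_one, one_pow]
  rw [h4, h5, one_mul] at h3
  obtain ⟨i, hi, hiα⟩ := hω.eq_pow_of_pow_eq_one h3
  refine ⟨P - i, ?_⟩
  have hσY : σ Y ≠ 0 := by simpa using hσi 1
  have h8 : Y = ω ^ i * σ Y := by
    rw [hiα, hα]; field_simp
  calc σ Y = ω ^ (P - i) * ω ^ i * σ Y := by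
        rw [← pow_add, Nat.sub_add_cancel hi.le, hω.pow_eq_one, one_mul]
    _ = ω ^ (P - i) * Y := by rw [mul_assoc, ← h8]

end telescoping

theorem badPart_pos (P u : ℕ) : 0 < badPart P u := by
  apply Finset.prod_pos
  intro q hq
  simp only [mem_filter] at hq
  exact pow_pos hq.2.1.pos _

theorem badPart_mul {P u : ℕ} (hu : 1 ≤ u) : ∃ s : ℕ, u = badPart P u * s ∧ 0 < s ∧
    ∀ q : ℕ, q.Prime → q ∣ s → q ∣ u ∧ ¬ Bad P q := by
  have hu0 : u ≠ 0 := by omega
  refine ⟨∏ q ∈ u.primeFactors.filter (fun q => ¬ Bad P q), q ^ u.factorization q, ?_, ?_, ?_⟩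
  · conv_lhs => rw [← Nat.prod_factorization_pow_eq_self hu0]
    rw [Finsupp.prod, Nat.support_factorization, badPart, ← Finset.prod_filter_mul_prod_filter_not
      u.primeFactors (Bad P)]
  · apply Finset.prod_pos
    intro q hq
    simp only [mem_filter] at hq
    exact pow_pos (Nat.prime_of_mem_primeFactors hq.1).pos _
  · intro q hq hqd
    obtain ⟨r, hr, hqr⟩ := (hq.prime.dvd_finsetProd_iff _).1 hqd
    simp only [mem_filter] at hr
    have h1 : q = r := (Nat.prime_dvd_prime_iff_eq hq (Nat.prime_of_mem_primeFactors hr.1)).1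
      (hq.dvd_of_dvd_pow hqr)
    subst h1
    exact ⟨Nat.dvd_of_mem_primeFactors hr.1, hr.2⟩

theorem exc_core {u : ℕ} (hu : 1 ≤ u) (h : CHMOrder (4 * u ^ 2)) {P : ℕ} (hP : P.Prime)
    (hP2 : P ≠ 2) (hPu : P ∣ u) (hr1 : ∀ r : ℕ, r.Prime → r ∣ u → ¬ P ∣ r - 1)
    (hlt : 4 * u ^ 2 < P * Nat.totient (4 * u ^ 2)) (K : Type) [Field K]
    [NumberField K] [NeZero (4 * u ^ 2)] [IsCyclotomicExtension {4 * u ^ 2} ℚ K]
    (hcon : ∀ q : ℕ, q ∣ u → Bad P q →
      badPart P u ^ 2 ^ (badNum P u + 1) < orderOf (q : ZMod P)) : False := by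
  have hu0 : u ≠ 0 := by omega
  haveI : Fact P.Prime := ⟨hP⟩
  have hPv : P ^ 2 ∣ 4 * u ^ 2 := Dvd.dvd.mul_left (pow_dvd_pow_of_dvd hPu 2) 4
  have hPv1 : P ∣ 4 * u ^ 2 := (Dvd.intro_left P (by ring : P * P = P ^ 2)).trans hPv
  obtain ⟨ζ, hζ⟩ : ∃ ζ : K, IsPrimitiveRoot ζ (4 * u ^ 2) :=
    ⟨_, IsCyclotomicExtension.zeta_spec (4 * u ^ 2) ℚ K⟩
  have hζ0 : ζ ≠ 0 := hζ.ne_zero (by positivity)
  obtain ⟨A, hA, hnorm⟩ := chm_norm hu h
  have hnormK := hnorm K inferInstance inferInstance ζ hζ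
  -- the automorphisms
  have hc1 : (1 + 4 * u ^ 2 / P).Coprime (4 * u ^ 2) := by
    rw [Nat.coprime_comm]
    apply Nat.Coprime.symm
    rw [Nat.coprime_iff_gcd_eq_one]
    by_contra hg
    obtain ⟨r, hr, hrg⟩ := Nat.exists_prime_and_dvd hg
    have h1 := (Nat.dvd_gcd_iff.1 hrg).1
    have h2 := (Nat.dvd_gcd_iff.1 hrg).2
    have h3 : r ∣ 4 * u ^ 2 / P := by
      obtain ⟨t, ht⟩ := hPv
      have h4 : 4 * u ^ 2 / P = P * t := by
        apply Nat.div_eq_of_eq_mul_left hP.pos; rw [ht]; ring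
      rw [h4]
      rw [ht] at h2
      rcases (Nat.Prime.dvd_mul hr).1 h2 with h | h
      · exact Dvd.dvd.mul_right (hr.dvd_of_dvd_pow h) _
      · exact Dvd.dvd.mul_left h _
    exact hr.one_lt.ne' (Nat.dvd_one.1 ((Nat.dvd_add_left h3).1 h1))
  obtain ⟨σ, hσ⟩ := exists_aut (K := K) hζ hc1
  have hc2 : (4 * u ^ 2 - 1).Coprime (4 * u ^ 2) := by
    have h1 : 1 ≤ 4 * u ^ 2 := by nlinarith
    obtain ⟨m, hm⟩ : ∃ m, 4 * u ^ 2 = m + 1 := ⟨4 * u ^ 2 - 1, by omega⟩
    rw [hm]; simp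
  obtain ⟨κ, hκ'⟩ := exists_aut (K := K) hζ hc2
  have hκ : κ ζ = ζ⁻¹ := by
    rw [hκ']
    have h1 : ζ ^ (4 * u ^ 2 - 1) * ζ = 1 := by
      rw [← pow_succ, Nat.sub_add_cancel (by nlinarith), hζ.pow_eq_one]
    exact eq_inv_of_mul_eq_one_left h1
  set Y : K := ∑ i ∈ A, ζ ^ i with hYdef
  have hκY : κ Y = ∑ i ∈ A, ζ⁻¹ ^ i := by
    rw [hYdef, map_sum]
    refine Finset.sum_congr rfl fun i _ => ?_
    rw [map_pow, hκ]
  have hYY : Y * κ Y = (u : K) ^ 2 := by rw [hκY]; exact hnormK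
  have huK : (u : K) ≠ 0 := Nat.cast_ne_zero.2 hu0
  have hY0 : Y ≠ 0 := by
    intro h0
    rw [h0, zero_mul] at hYY
    exact huK (pow_eq_zero_iff two_ne_zero |>.1 hYY.symm)
  have hζint : IsIntegral ℤ ζ := hζ.isIntegral (by positivity)
  have hYint : IsIntegral ℤ Y := IsIntegral.sum _ fun i _ => hζint.pow i
  have hκYint : IsIntegral ℤ (κ Y) := hYint.map κ
  obtain ⟨s, hus, hs0, hs⟩ := badPart_mul (P := P) hu
  set b := badPart P u with hb
  have hb0 : 0 < b := badPart_pos P u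
  have hbK : (b : K) ≠ 0 := Nat.cast_ne_zero.2 hb0.ne'
  have hsK : (s : K) ≠ 0 := Nat.cast_ne_zero.2 hs0.ne'
  have husK : (u : K) = b * s := by
    conv_lhs => rw [hus]
    push_cast; rfl
  have hint : IsIntegral ℤ (Y * σ (κ Y) / (s ^ 2 : ℕ)) := by
    refine div_integral hζ σ hσ (pow_ne_zero 2 hs0.ne') ?_ hYint hκYint
      (Y := (b : K) ^ 2) ((isIntegral_natCast (R := ℤ) b).pow 2) ?_
    · intro q hq hqs
      obtain ⟨_, hq2⟩ := hs q hq (hq.dvd_of_dvd_pow hqs)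
      exact good_fix hu hP hP2 hPu hr1 hq hq2
    · rw [hYY, husK]; push_cast; ring
  set W : K := Y * σ (κ Y) / (s ^ 2 : ℕ) with hW
  have hσκ : ∀ x, σ (κ x) = κ (σ x) := fun x => aut_comm (v := 4 * u ^ 2) σ κ x
  have hσYY : σ Y * κ (σ Y) = (u : K) ^ 2 := by
    rw [← hσκ, ← map_mul, hYY, map_pow, map_natCast]
  have hκκ : κ (σ (κ Y)) * σ (κ Y) = (u : K) ^ 2 := by
    rw [← hσκ, ← map_mul, ← map_mul, mul_comm (κ Y) Y, hYY, map_pow, map_pow, map_natCast,
      map_natCast]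
  have hbprod : (∏ q ∈ u.primeFactors.filter (Bad P), q ^ (2 * u.factorization q) : ℕ) = b ^ 2 := by
    rw [hb, badPart, ← Finset.prod_pow]
    refine Finset.prod_congr rfl fun r _ => ?_
    rw [← pow_mul, mul_comm]
  have hWW : W * κ W =
      ((∏ q ∈ u.primeFactors.filter (Bad P), q ^ (2 * u.factorization q) : ℕ) : K) ^ 2 := by
    rw [hbprod]
    have h1 : κ W = κ Y * κ (σ (κ Y)) / (s ^ 2 : ℕ) := by
      rw [hW, map_div₀, map_mul, map_natCast]
    rw [h1, hW]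
    have h2 : Y * σ (κ Y) / (s ^ 2 : ℕ) * (κ Y * κ (σ (κ Y)) / (s ^ 2 : ℕ)) =
        (Y * κ Y) * (κ (σ (κ Y)) * σ (κ Y)) / ((s ^ 2 : ℕ) : K) ^ 2 := by
      have : ((s ^ 2 : ℕ) : K) ≠ 0 := by push_cast; exact pow_ne_zero 2 hsK
      field_simp
    rw [h2, hYY, hκκ, husK]
    push_cast
    field_simp
  obtain ⟨j, hj⟩ := chain (P := P) hζ hPv hσ hκ (u.primeFactors.filter (Bad P)) (by
      intro q hq
      simp only [mem_filter] at hq
      exact ⟨hq.2.1, hq.2.2.1⟩) (fun q => 2 * u.factorization q) W hint hWW (by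
      intro q hq
      simp only [mem_filter] at hq
      rw [hbprod, ← pow_mul, ← pow_succ']
      exact hcon q (Nat.dvd_of_mem_primeFactors hq.1) hq.2)
  have hσY0 : σ Y ≠ 0 := by rw [Ne, EmbeddingLike.map_eq_zero_iff]; exact hY0
  have hα : Y / σ Y = ((s : K) ^ 2 / (u : K) ^ 2) * W := by
    have h1 : ((s ^ 2 : ℕ) : K) ≠ 0 := by push_cast; exact pow_ne_zero 2 hsK
    have h2 : σ (κ Y) = (u : K) ^ 2 / σ Y := by
      rw [eq_div_iff hσY0, hσκ, mul_comm]; exact hσYY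
    rw [hW, h2]
    push_cast at h1 ⊢
    field_simp
  obtain ⟨i, hi⟩ := hom_of_quot (P := P) hζ hPv hP2 hσ hY0 rfl (c := j.val) (by
    rw [hα, map_mul, map_div₀, map_pow, map_pow, map_natCast, map_natCast, hj]; ring)
  have hemb : ∀ φ : K →+* ℂ, ‖φ (∑ i ∈ A, ζ ^ i)‖ ^ 2 = (u : ℝ) ^ 2 := by
    intro φ
    have h1 := emb_conj hζ hκ φ Y
    have h2 : φ Y * (starRingEnd ℂ) (φ Y) = (u : ℂ) ^ 2 := by
      rw [← h1, ← map_mul, hYY, map_pow, map_natCast]
    rw [Complex.mul_conj, Complex.normSq_eq_norm_sq] at h2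
    exact_mod_cast h2
  have hfin := parseval_final hP hu hPu hζ hA hσ hi hemb
  omega

/-- The criterion: if there is a circulant Hadamard matrix of order `4 u ^ 2` and `P` is an odd
prime factor of `u` which divides no `r - 1`, `r` a prime factor of `u`, and is larger than
`∏ l / (l - 1)`, `l` the prime factors of `2 u`, then the order modulo `P` of a bad prime is
small. -/
theorem bad_of_chm {u : ℕ} (hu : 1 ≤ u) (h : CHMOrder (4 * u ^ 2)) {P : ℕ} (hP : P.Prime)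
    (hP2 : P ≠ 2) (hPu : P ∣ u) (hr1 : ∀ r : ℕ, r.Prime → r ∣ u → ¬ P ∣ r - 1)
    (hlt : 4 * u ^ 2 < P * Nat.totient (4 * u ^ 2)) :
    ∃ q : ℕ, q ∣ u ∧ Bad P q ∧ orderOf (q : ZMod P) ≤ badPart P u ^ 2 ^ (badNum P u + 1) := by
  by_contra hcon
  push Not at hcon
  haveI : NeZero (4 * u ^ 2) := ⟨by positivity⟩
  haveI : NeZero (((4 * u ^ 2 : ℕ)) : ℚ) := ⟨by positivity⟩
  haveI : IsCyclotomicExtension {4 * u ^ 2} ℚ (CyclotomicField (4 * u ^ 2) ℚ) :=
    CyclotomicField.isCyclotomicExtension (4 * u ^ 2) ℚ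
  exact exc_core hu h hP hP2 hPu hr1 hlt (CyclotomicField (4 * u ^ 2) ℚ) hcon

theorem not_dvd_of_max {u P : ℕ} (hmax : ∀ r : ℕ, r.Prime → r ∣ u → r ≤ P) :
    ∀ r : ℕ, r.Prime → r ∣ u → ¬ P ∣ r - 1 := by
  intro r hr hru hPr
  have h1 := hmax r hr hru
  have h2 : r - 1 < P := by have := hr.two_le; omega
  have h3 : 0 < r - 1 := by have := hr.two_le; omega
  exact absurd (Nat.le_of_dvd h3 hPr) (by omega)

/-- The main theorem on circulant Hadamard matrices, for the largest prime factor. -/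
theorem exc_of_chm {u : ℕ} (hu : 1 ≤ u) (h : CHMOrder (4 * u ^ 2)) : Exc u := by
  intro P hP h5 hPu hmax
  exact bad_of_chm hu h hP (by omega) hPu (not_dvd_of_max hmax)
    (lt_mul_totient (u := u) (P := P) hu h5 hmax)

end

/-! ## Cor1.lean -/

section

open Finset Classical

/-- For fixed `m` there is no circulant Hadamard matrix of order `4 (m P ^ a) ^ 2` for all large
primes `P`. -/
theorem not_chm_family (m P a : ℕ) (hm : 1 ≤ m) (hP : P.Prime) (h5 : 5 ≤ P)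
    (hlarge : m ^ m ^ 2 ^ (m.primeFactors.card + 1) < P) (ha : 1 ≤ a) :
    ¬ CHMOrder (4 * (m * P ^ a) ^ 2) := by
  intro h
  have hK : 1 ≤ m ^ 2 ^ (m.primeFactors.card + 1) := Nat.one_le_pow _ _ (by omega)
  have hmP : m < P := by
    refine lt_of_le_of_lt ?_ hlarge
    calc m = m ^ 1 := (pow_one m).symm
      _ ≤ _ := Nat.pow_le_pow_right (by omega) hK
  have hPm : ¬ P ∣ m := fun h1 => absurd (Nat.le_of_dvd (by omega) h1) (by omega)
  have hu : 1 ≤ m * P ^ a := Nat.mul_pos (by omega) (pow_pos hP.pos _)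
  have hdiv : ∀ r : ℕ, r.Prime → r ∣ m * P ^ a → r ≠ P → r ∣ m := by
    intro r hr hrd hrP
    rcases (Nat.Prime.dvd_mul hr).1 hrd with h1 | h1
    · exact h1
    · exact absurd ((Nat.prime_dvd_prime_iff_eq hr hP).1 (hr.dvd_of_dvd_pow h1)) hrP
  obtain ⟨q, hqd, hbad, hord⟩ := exc_of_chm hu h P hP h5
    (Dvd.dvd.mul_left (dvd_pow_self P (by omega)) m) (by
      intro r hr hrd
      by_cases hrP : r = P
      · exact hrP.le
      · exact (Nat.le_of_dvd (by omega) (hdiv r hr hrd hrP)).trans hmP.le)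
  have hqm : q ∣ m := hdiv q hbad.1 hqd hbad.2.1
  have hsub : (m * P ^ a).primeFactors.filter (Bad P) ⊆ m.primeFactors := by
    intro r hr
    simp only [mem_filter, Nat.mem_primeFactors] at hr ⊢
    exact ⟨hr.1.1, hdiv r hr.1.1 hr.1.2.1 hr.2.2.1, by omega⟩
  have hnum : badNum P (m * P ^ a) ≤ m.primeFactors.card := Finset.card_le_card hsub
  have hpart : badPart P (m * P ^ a) ≤ m := by
    unfold badPart
    have h1 : ∏ r ∈ (m * P ^ a).primeFactors.filter (Bad P), r ^ (m * P ^ a).factorization r =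
        ∏ r ∈ (m * P ^ a).primeFactors.filter (Bad P), r ^ m.factorization r := by
      refine Finset.prod_congr rfl fun r hr => ?_
      simp only [mem_filter, Nat.mem_primeFactors] at hr
      rw [Nat.factorization_mul (by omega) (pow_ne_zero _ hP.ne_zero), Nat.factorization_pow,
        Finsupp.add_apply, Finsupp.smul_apply, Nat.Prime.factorization hP,
        Finsupp.single_eq_of_ne (by exact hr.2.2.1)]
      simp
    rw [h1]
    calc _ ≤ ∏ r ∈ m.primeFactors, r ^ m.factorization r := by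
          apply Finset.prod_le_prod_of_subset_of_one_le' hsub
          intro r hr _
          exact Nat.one_le_pow _ _ (Nat.prime_of_mem_primeFactors hr).pos
      _ = m := Nat.prod_factorization_pow_eq_self (by omega)
  set i := orderOf (q : ZMod P) with hi
  have hiK : i ≤ m ^ 2 ^ (m.primeFactors.card + 1) := by
    refine hord.trans ?_
    calc _ ≤ m ^ 2 ^ (badNum P (m * P ^ a) + 1) := Nat.pow_le_pow_left hpart _
      _ ≤ _ := Nat.pow_le_pow_right (by omega) (Nat.pow_le_pow_right (by norm_num) (by omega))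
  have hqP : ((q : ZMod P)) ≠ 0 := by
    rw [Ne, ZMod.natCast_eq_zero_iff]
    intro h1
    exact hbad.2.1 ((Nat.prime_dvd_prime_iff_eq hP hbad.1).1 h1).symm
  haveI : Fact P.Prime := ⟨hP⟩
  have hipos : 0 < i := by
    rw [hi, orderOf_pos_iff, isOfFinOrder_iff_pow_eq_one]
    exact ⟨P - 1, by omega, ZMod.pow_card_sub_one_eq_one hqP⟩
  have h1 : ((q ^ i : ℕ) : ZMod P) = ((1 : ℕ) : ZMod P) := by
    push_cast
    exact pow_orderOf_eq_one _
  have h2 : 1 ≤ q ^ i := Nat.one_le_pow _ _ hbad.1.pos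
  have h3 : P ∣ q ^ i - 1 := by
    have := (ZMod.natCast_eq_natCast_iff _ _ _).1 h1
    exact (Nat.modEq_iff_dvd' h2).1 this.symm
  have h4 : 0 < q ^ i - 1 := by
    have : 1 < q ^ i := Nat.one_lt_pow hipos.ne' hbad.1.one_lt
    omega
  have h5' : P ≤ q ^ i - 1 := Nat.le_of_dvd h4 h3
  have h6 : q ^ i ≤ m ^ m ^ 2 ^ (m.primeFactors.card + 1) :=
    (Nat.pow_le_pow_left (Nat.le_of_dvd (by omega) hqm) _).trans
      (Nat.pow_le_pow_right (by omega) hiK)
  omega

end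

end Pool.Agent.CHM
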