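import Pool.Agent.Lib_helper74.CHM.Defs

/-!
# Circulant Hadamard matrices: the counting part, Barker sequences

Blocks by helper13, helper20, helper33, helper35, helper39, helper48, helper97.
-/

set_option autoImplicit false

namespace Pool.Agent.CHM

/-! ## MER (CHM_MER_helper48.lean) -/

section

open Finset Classical

theorem mer_block (m : ℕ) :
    ∑ p ∈ ((Ioc (2 ^ (m + 1)) (2 ^ (m + 2))).filter Nat.Prime), (1 : ℝ) / p ≤ 4 / ((m : ℝ) + 1) := by
  set S := (Ioc (2 ^ (m + 1)) (2 ^ (m + 2))).filter Nat.Prime with hS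
  have h1 : (2 ^ (m + 1)) ^ S.card ≤ ∏ p ∈ S, p := by
    rw [← Finset.prod_const]
    apply Finset.prod_le_prod'
    intro p hp
    simp only [hS, Finset.mem_filter, Finset.mem_Ioc] at hp
    exact le_of_lt hp.1.1
  have h2 : ∏ p ∈ S, p ≤ primorial (2 ^ (m + 2)) := by
    unfold primorial
    apply Finset.prod_le_prod_of_subset_of_one_le'
    · intro p hp
      simp only [hS, Finset.mem_filter, Finset.mem_Ioc] at hp
      simp only [Finset.mem_filter, Finset.mem_range]
      exact ⟨by omega, hp.2⟩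
    · intro p hp _
      simp only [Finset.mem_filter] at hp
      exact hp.2.one_lt.le
  have h3 := primorial_le_four_pow (2 ^ (m + 2))
  have h4 : (2 : ℕ) ^ ((m + 1) * S.card) ≤ 2 ^ (2 * 2 ^ (m + 2)) := by
    calc (2 : ℕ) ^ ((m + 1) * S.card) = (2 ^ (m + 1)) ^ S.card := by rw [pow_mul]
      _ ≤ 4 ^ (2 ^ (m + 2)) := h1.trans (h2.trans h3)
      _ = 2 ^ (2 * 2 ^ (m + 2)) := by rw [pow_mul 2 2 (2 ^ (m + 2))]; norm_num
  have h5 : (m + 1) * S.card ≤ 2 * 2 ^ (m + 2) :=
    (Nat.pow_le_pow_iff_right (by norm_num)).1 h4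
  have h6 : ∑ p ∈ S, (1 : ℝ) / p ≤ ∑ p ∈ S, (1 : ℝ) / 2 ^ (m + 1) := by
    apply Finset.sum_le_sum
    intro p hp
    simp only [hS, Finset.mem_filter, Finset.mem_Ioc] at hp
    have : ((2 : ℝ) ^ (m + 1)) ≤ p := by exact_mod_cast le_of_lt hp.1.1
    exact one_div_le_one_div_of_le (by positivity) this
  refine h6.trans ?_
  rw [Finset.sum_const, nsmul_eq_mul]
  have h7 : (((m : ℝ) + 1) * (S.card : ℝ)) ≤ 4 * 2 ^ (m + 1) := by
    have : (((m + 1) * S.card : ℕ) : ℝ) ≤ ((2 * 2 ^ (m + 2) : ℕ) : ℝ) := by exact_mod_cast h5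
    push_cast at this
    calc _ ≤ _ := this
      _ = _ := by ring
  rw [mul_one_div, div_le_div_iff₀ (by positivity) (by positivity)]
  linarith

theorem mer_pow (m : ℕ) :
    ∑ p ∈ ((Icc 1 (2 ^ (m + 1))).filter Nat.Prime), (1 : ℝ) / p ≤
      1 + 4 * ((harmonic m : ℚ) : ℝ) := by
  induction m with
  | zero =>
    have : ((Icc 1 (2 ^ (0 + 1))).filter Nat.Prime) = {2} := by decide
    rw [this]
    simp
    norm_num
  | succ m ih =>
    have hsplit : ((Icc 1 (2 ^ (m + 1 + 1))).filter Nat.Prime) =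
        ((Icc 1 (2 ^ (m + 1))).filter Nat.Prime) ∪
          ((Ioc (2 ^ (m + 1)) (2 ^ (m + 2))).filter Nat.Prime) := by
      rw [← Finset.filter_union]
      congr 1
      ext x
      simp only [Finset.mem_union, Finset.mem_Icc, Finset.mem_Ioc]
      have : 2 ^ (m + 1) ≤ 2 ^ (m + 2) := Nat.pow_le_pow_right (by norm_num) (by omega)
      have h1 : 1 ≤ 2 ^ (m + 1) := Nat.one_le_two_pow
      constructor
      · intro h
        by_cases hx : x ≤ 2 ^ (m + 1)
        · exact Or.inl ⟨h.1, hx⟩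
        · exact Or.inr ⟨by omega, h.2⟩
      · rintro (h | h)
        · exact ⟨h.1, h.2.trans this⟩
        · exact ⟨by omega, h.2⟩
    have hdisj : Disjoint ((Icc 1 (2 ^ (m + 1))).filter Nat.Prime)
          ((Ioc (2 ^ (m + 1)) (2 ^ (m + 2))).filter Nat.Prime) := by
      rw [Finset.disjoint_left]
      intro x hx hx'
      simp only [Finset.mem_filter, Finset.mem_Icc, Finset.mem_Ioc] at hx hx'
      omega
    rw [hsplit, Finset.sum_union hdisj, harmonic_succ]
    have := mer_block m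
    push_cast
    have e : 4 / ((m : ℝ) + 1) = 4 * ((m : ℝ) + 1)⁻¹ := by ring
    rw [e] at this
    linarith

theorem mertens_upper : ∃ C : ℝ, 0 < C ∧ ∀ y : ℕ, 1 ≤ y →
    ∑ p ∈ (Icc 1 y).filter Nat.Prime, (1 : ℝ) / p ≤ C * (1 + Real.log (1 + Real.log y)) := by
  refine ⟨9, by norm_num, ?_⟩
  intro y hy
  have hly : 0 ≤ Real.log y := Real.log_nonneg (by exact_mod_cast hy)
  have hll : 0 ≤ Real.log (1 + Real.log y) := Real.log_nonneg (by linarith)
  set K := Nat.log 2 y with hK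
  have hyK : y < 2 ^ (K + 1) := Nat.lt_pow_succ_log_self (by norm_num) y
  have h1 : ∑ p ∈ (Icc 1 y).filter Nat.Prime, (1 : ℝ) / p ≤
      ∑ p ∈ ((Icc 1 (2 ^ (K + 1))).filter Nat.Prime), (1 : ℝ) / p := by
    apply Finset.sum_le_sum_of_subset_of_nonneg
    · intro x hx
      simp only [Finset.mem_filter, Finset.mem_Icc] at hx ⊢
      exact ⟨⟨hx.1.1, by omega⟩, hx.2⟩
    · intro x _ _
      positivity
  refine h1.trans ((mer_pow K).trans ?_)
  have h2 : ((harmonic K : ℚ) : ℝ) ≤ 1 + Real.log K := harmonic_le_one_add_log K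
  have h3 : Real.log K ≤ 1 + Real.log (1 + Real.log y) := by
    rcases Nat.eq_zero_or_pos K with h0 | hpos
    · rw [h0]; simp; linarith
    · have hKr : (K : ℝ) * Real.log 2 ≤ Real.log y := by
        rw [← Real.log_pow]
        apply Real.log_le_log (by positivity)
        exact_mod_cast Nat.pow_log_le_self 2 (by omega)
      have hl2 : (1 : ℝ) / 2 < Real.log 2 := by
        have := Real.log_two_gt_d9; linarith
      have hKy : (K : ℝ) ≤ 2 * (1 + Real.log y) := by
        have hK0 : (0 : ℝ) ≤ K := by positivity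
        nlinarith
      calc Real.log K ≤ Real.log (2 * (1 + Real.log y)) :=
            Real.log_le_log (by exact_mod_cast hpos) hKy
        _ = Real.log 2 + Real.log (1 + Real.log y) := Real.log_mul (by norm_num) (by linarith)
        _ ≤ 1 + Real.log (1 + Real.log y) := by
            have := Real.log_two_lt_d9; linarith
  linarith

end

/-! ## GEN (CHM_GEN_helper48.lean) -/

section

open Finset Classical

theorem gen_factorization_lt (q u N : ℕ) (hq : q.Prime) (hu : 1 ≤ u) (huN : u ≤ N) :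
    u.factorization q ≤ N := by
  have h1 : q ^ u.factorization q ≤ u :=
    Nat.le_of_dvd (by omega) (Nat.ordProj_dvd u q)
  have h2 : u.factorization q < q ^ u.factorization q := Nat.lt_pow_self hq.one_lt
  omega

/-- sum over the multiples of `d` -/
theorem gen_mult (d N : ℕ) (hd : 0 < d) (F : ℕ → ℝ) :
    ∑ u ∈ (Icc 1 N).filter (fun u => d ∣ u), F u = ∑ u ∈ Icc 1 (N / d), F (d * u) := by
  symm
  apply Finset.sum_nbij (fun u => d * u)
  · intro u hu
    simp only [Finset.mem_Icc] at hu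
    simp only [Finset.mem_filter, Finset.mem_Icc]
    refine ⟨⟨?_, ?_⟩, Dvd.intro u rfl⟩
    · exact Nat.mul_pos hd hu.1
    · calc d * u ≤ d * (N / d) := Nat.mul_le_mul_left d hu.2
        _ ≤ N := Nat.mul_div_le N d
  · intro a _ b _ hab
    exact Nat.eq_of_mul_eq_mul_left hd hab
  · intro u hu
    simp only [Finset.coe_filter, Finset.mem_Icc, Set.mem_setOf_eq] at hu
    obtain ⟨⟨h1, h2⟩, k, rfl⟩ := hu
    refine ⟨k, ?_, rfl⟩
    simp only [Finset.coe_Icc, Set.mem_Icc]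
    refine ⟨?_, ?_⟩
    · rcases Nat.eq_zero_or_pos k with h0 | h0
      · rw [h0] at h1; simp at h1
      · exact h0
    · exact (Nat.le_div_iff_mul_le hd).2 (by rw [mul_comm]; exact h2)
  · intro u _
    rfl

theorem gen_sum (T : Finset ℕ) (hT : ∀ p ∈ T, p.Prime) (h : ℕ → ℕ → ℝ)
    (h0 : ∀ p ∈ T, h p 0 = 1) (hm : ∀ p ∈ T, Monotone (h p)) (c : ℕ → ℝ)
    (hc : ∀ p ∈ T, ∀ k : ℕ, 1 + ∑ j ∈ range k, (h p (j + 1) - h p j) / (p : ℝ) ^ (j + 1) ≤ c p)
    (N : ℕ) :
    ∑ u ∈ Icc 1 N, ∏ p ∈ T, h p (u.factorization p) ≤ N * ∏ p ∈ T, c p := by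
  induction T using Finset.induction_on generalizing N with
  | empty => simp
  | insert q T hqT ih =>
    have ihT := ih (fun p hp => hT p (Finset.mem_insert_of_mem hp))
      (fun p hp => h0 p (Finset.mem_insert_of_mem hp))
      (fun p hp => hm p (Finset.mem_insert_of_mem hp))
      (fun p hp => hc p (Finset.mem_insert_of_mem hp))
    have hq : q.Prime := hT q (Finset.mem_insert_self q T)
    have hq0 := h0 q (Finset.mem_insert_self q T)
    have hqm := hm q (Finset.mem_insert_self q T)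
    have hqc := hc q (Finset.mem_insert_self q T) N
    set F : ℕ → ℝ := fun u => ∏ p ∈ T, h p (u.factorization p) with hF
    set d : ℕ → ℝ := fun j => h q (j + 1) - h q j with hd
    have hd0 : ∀ j, 0 ≤ d j := fun j => sub_nonneg.2 (hqm (Nat.le_succ j))
    have hc0 : ∀ p ∈ T, 0 ≤ c p := by
      intro p hp
      have := hc p (Finset.mem_insert_of_mem hp) 0
      simp at this
      linarith
    have hP0 : 0 ≤ ∏ p ∈ T, c p := Finset.prod_nonneg hc0
    -- the key identity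
    have key : ∀ u ∈ Icc 1 N, h q (u.factorization q) =
        1 + ∑ j ∈ range N, if q ^ (j + 1) ∣ u then d j else 0 := by
      intro u hu
      simp only [Finset.mem_Icc] at hu
      have hu0 : u ≠ 0 := by omega
      have e1 : ∑ j ∈ range (u.factorization q), d j = h q (u.factorization q) - h q 0 :=
        Finset.sum_range_sub (h q) (u.factorization q)
      have e2 : ∑ j ∈ range N, (if q ^ (j + 1) ∣ u then d j else 0) =
          ∑ j ∈ range (u.factorization q), d j := by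
        rw [← Finset.sum_filter]
        apply Finset.sum_congr _ (fun _ _ => rfl)
        ext j
        simp only [Finset.mem_filter, Finset.mem_range]
        have hlt := gen_factorization_lt q u N hq hu.1 hu.2
        rw [hq.pow_dvd_iff_le_factorization hu0]
        constructor
        · rintro ⟨_, h2⟩; omega
        · intro h2; exact ⟨by omega, by omega⟩
      rw [e2, e1, hq0]
      ring
    have hprod : ∀ u, ∏ p ∈ insert q T, h p (u.factorization p) =
        h q (u.factorization q) * F u := by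
      intro u
      rw [Finset.prod_insert hqT]
    have e3 : ∑ u ∈ Icc 1 N, ∏ p ∈ insert q T, h p (u.factorization p) =
        ∑ u ∈ Icc 1 N, F u + ∑ j ∈ range N, d j *
          ∑ u ∈ (Icc 1 N).filter (fun u => q ^ (j + 1) ∣ u), F u := by
      calc ∑ u ∈ Icc 1 N, ∏ p ∈ insert q T, h p (u.factorization p)
          = ∑ u ∈ Icc 1 N, (F u + ∑ j ∈ range N, (if q ^ (j + 1) ∣ u then d j * F u else 0)) := by
            apply Finset.sum_congr rfl
            intro u hu
            rw [hprod u, key u hu, add_mul, one_mul, Finset.sum_mul]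
            congr 1
            apply Finset.sum_congr rfl
            intro j _
            split_ifs <;> simp
        _ = ∑ u ∈ Icc 1 N, F u +
            ∑ j ∈ range N, ∑ u ∈ Icc 1 N, (if q ^ (j + 1) ∣ u then d j * F u else 0) := by
            rw [Finset.sum_add_distrib, Finset.sum_comm]
        _ = _ := by
            congr 1
            apply Finset.sum_congr rfl
            intro j _
            rw [← Finset.sum_filter, Finset.mul_sum]
    have hinv : ∀ j u : ℕ, F (q ^ (j + 1) * u) = F u := by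
      intro j u
      rcases Nat.eq_zero_or_pos u with hu | hu
      · rw [hu]; simp
      apply Finset.prod_congr rfl
      intro p hp
      have hpq : p ≠ q := by
        rintro rfl
        exact hqT hp
      rw [Nat.factorization_mul (pow_ne_zero _ hq.ne_zero) (by omega),
        hq.factorization_pow]
      simp [hpq.symm]
    have hin : ∀ j ∈ range N, d j * ∑ u ∈ (Icc 1 N).filter (fun u => q ^ (j + 1) ∣ u), F u ≤
        (N * ∏ p ∈ T, c p) * (d j / (q : ℝ) ^ (j + 1)) := by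
      intro j _
      have hqp : 0 < q ^ (j + 1) := pow_pos hq.pos _
      rw [gen_mult _ N hqp F]
      have e4 : ∑ u ∈ Icc 1 (N / q ^ (j + 1)), F (q ^ (j + 1) * u) =
          ∑ u ∈ Icc 1 (N / q ^ (j + 1)), F u :=
        Finset.sum_congr rfl (fun u _ => hinv j u)
      rw [e4]
      have e5 : ∑ u ∈ Icc 1 (N / q ^ (j + 1)), F u ≤ ((N / q ^ (j + 1) : ℕ) : ℝ) * ∏ p ∈ T, c p :=
        ihT (N / q ^ (j + 1))
      have e6 : ((N / q ^ (j + 1) : ℕ) : ℝ) ≤ (N : ℝ) / (q : ℝ) ^ (j + 1) := by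
        have := @Nat.cast_div_le ℝ _ _ _ N (q ^ (j + 1))
        push_cast at this
        exact this
      calc d j * ∑ u ∈ Icc 1 (N / q ^ (j + 1)), F u
          ≤ d j * (((N / q ^ (j + 1) : ℕ) : ℝ) * ∏ p ∈ T, c p) :=
            mul_le_mul_of_nonneg_left e5 (hd0 j)
        _ ≤ d j * ((N : ℝ) / (q : ℝ) ^ (j + 1) * ∏ p ∈ T, c p) :=
            mul_le_mul_of_nonneg_left (mul_le_mul_of_nonneg_right e6 hP0) (hd0 j)
        _ = (N * ∏ p ∈ T, c p) * (d j / (q : ℝ) ^ (j + 1)) := by ring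
    rw [e3]
    calc ∑ u ∈ Icc 1 N, F u + ∑ j ∈ range N, d j *
          ∑ u ∈ (Icc 1 N).filter (fun u => q ^ (j + 1) ∣ u), F u
        ≤ N * ∏ p ∈ T, c p + ∑ j ∈ range N, (N * ∏ p ∈ T, c p) * (d j / (q : ℝ) ^ (j + 1)) :=
          add_le_add (ihT N) (Finset.sum_le_sum hin)
      _ = (N * ∏ p ∈ T, c p) * (1 + ∑ j ∈ range N, d j / (q : ℝ) ^ (j + 1)) := by
          rw [← Finset.mul_sum]; ring
      _ ≤ (N * ∏ p ∈ T, c p) * c q := by
          apply mul_le_mul_of_nonneg_left hqc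
          positivity
      _ = N * ∏ p ∈ insert q T, c p := by
          rw [Finset.prod_insert hqT]; ring

end

/-! ## SMO (CHM_SMO_helper35.lean) -/

section

open Finset Classical

theorem smo_eq {y u : ℕ} (hu : u ≠ 0) :
    smoothPart y u = ∏ p ∈ (Icc 1 y).filter Nat.Prime, p ^ u.factorization p := by
  unfold smoothPart
  apply Finset.prod_subset_one_on_sdiff
  · intro p hp
    rw [Finset.mem_filter] at hp
    rw [Finset.mem_filter, Finset.mem_Icc]
    have := Nat.prime_of_mem_primeFactors hp.1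
    exact ⟨⟨this.one_le, hp.2⟩, this⟩
  · intro p hp
    rw [Finset.mem_sdiff, Finset.mem_filter, Finset.mem_filter, Finset.mem_Icc] at hp
    have hnd : ¬ p ∣ u := by
      intro hd
      exact hp.2 ⟨Nat.mem_primeFactors.2 ⟨hp.1.2, hd, hu⟩, hp.1.1.2⟩
    rw [Nat.factorization_eq_zero_of_not_dvd hnd, pow_zero]
  · intro p _
    rfl

theorem smo_one (u : ℕ) : smoothPart 1 u = 1 := by
  unfold smoothPart
  apply Finset.prod_eq_one
  intro p hp
  rw [Finset.mem_filter] at hp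
  have := (Nat.prime_of_mem_primeFactors hp.1).two_le
  omega

/-- the local factor -/
theorem smo_local {p : ℕ} {δ : ℝ} (hp : 2 ≤ p) (hδ : δ ≤ 3 / 5) (hδ0 : 0 < δ)
    (hpe : (p : ℝ) ^ δ ≤ Real.exp 1) (k : ℕ) :
    1 + ∑ j ∈ range k, ((p : ℝ) ^ (((j + 1 : ℕ) : ℝ) * δ) - (p : ℝ) ^ ((j : ℝ) * δ)) /
      (p : ℝ) ^ (j + 1) ≤ 1 + 8 / p := by
  have hp0 : (0 : ℝ) < p := by positivity
  have hp2 : (2 : ℝ) ≤ p := by exact_mod_cast hp
  set a : ℝ := (p : ℝ) ^ δ with ha
  have ha1 : 1 ≤ a := Real.one_le_rpow (by linarith) hδ0.le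
  have hpow : ∀ j : ℕ, (p : ℝ) ^ ((j : ℝ) * δ) = a ^ j := by
    intro j
    rw [mul_comm, Real.rpow_mul hp0.le, Real.rpow_natCast]
  set q : ℝ := a / p with hq
  have hq0 : 0 ≤ q := by positivity
  have hq1 : q ≤ 19 / 25 := by
    have h1 : q = (p : ℝ) ^ (δ - 1) := by
      rw [Real.rpow_sub hp0, Real.rpow_one]
    rw [h1]
    calc (p : ℝ) ^ (δ - 1) ≤ (2 : ℝ) ^ (δ - 1) :=
          Real.rpow_le_rpow_of_nonpos (by norm_num) hp2 (by linarith)
      _ ≤ (2 : ℝ) ^ (-(2 / 5) : ℝ) := Real.rpow_le_rpow_of_exponent_le (by norm_num) (by linarith)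
      _ ≤ 19 / 25 := by
          have h5 : ((2 : ℝ) ^ (-(2 / 5) : ℝ)) ^ 5 ≤ (19 / 25 : ℝ) ^ 5 := by
            rw [← Real.rpow_natCast, ← Real.rpow_mul (by norm_num)]
            norm_num
          exact le_of_pow_le_pow_left₀ (by norm_num) (by norm_num) h5
  have hterm : ∀ j : ℕ, ((p : ℝ) ^ (((j + 1 : ℕ) : ℝ) * δ) - (p : ℝ) ^ ((j : ℝ) * δ)) /
      (p : ℝ) ^ (j + 1) = (a - 1) / p * q ^ j := by
    intro j
    rw [hpow, hpow, hq, div_pow, pow_succ, pow_succ]
    field_simp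
  rw [Finset.sum_congr rfl fun j _ => hterm j, ← Finset.mul_sum]
  have hgeo : ∑ j ∈ range k, q ^ j ≤ 25 / 6 := by
    have h1 : (∑ j ∈ range k, q ^ j) * (1 - q) = 1 - q ^ k := by
      have := geom_sum_mul q k
      linarith
    have h2 : 0 ≤ q ^ k := by positivity
    have h3 : 0 ≤ ∑ j ∈ range k, q ^ j := Finset.sum_nonneg fun j _ => by positivity
    nlinarith
  have hexp : Real.exp 1 < 2.7182818286 := Real.exp_one_lt_d9
  have h4 : (a - 1) * ∑ j ∈ range k, q ^ j ≤ 8 := by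
    have h3 : 0 ≤ ∑ j ∈ range k, q ^ j := Finset.sum_nonneg fun j _ => by positivity
    nlinarith
  have h5 : (a - 1) / p * ∑ j ∈ range k, q ^ j = ((a - 1) * ∑ j ∈ range k, q ^ j) / p := by
    ring
  rw [h5]
  have := div_le_div_of_nonneg_right h4 hp0.le
  linarith

/-- SMO -/
theorem card_smoothPart : ∃ C : ℝ, 0 < C ∧ ∀ N y S : ℕ, 1 ≤ y → 1 ≤ S →
    (((Icc 1 N).filter fun u => S < smoothPart y u).card : ℝ) ≤
      C * N * (1 + Real.log y) ^ C * (S : ℝ) ^ (-(1 / (1 + Real.log y))) := by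
  obtain ⟨C0, hC0, hM⟩ := mertens_upper
  set C : ℝ := max (Real.exp (8 * C0)) (8 * C0) with hC
  have hCpos : 0 < C := lt_of_lt_of_le (Real.exp_pos _) (le_max_left _ _)
  refine ⟨C, hCpos, ?_⟩
  intro N y S hy hS
  have hlog : 0 ≤ Real.log y := Real.log_natCast_nonneg y
  have hL : 1 ≤ 1 + Real.log y := by linarith
  have hS0 : (0 : ℝ) < S := by exact_mod_cast hS
  rcases Nat.lt_or_ge y 2 with hy1 | hy2
  · have hy' : y = 1 := by omega
    subst hy'
    have : ((Icc 1 N).filter fun u => S < smoothPart 1 u) = ∅ := by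
      apply Finset.filter_false_of_mem
      intro u _
      rw [smo_one]
      omega
    rw [this, Finset.card_empty, Nat.cast_zero]
    positivity
  set δ : ℝ := 1 / (1 + Real.log y) with hδ
  have hδ0 : 0 < δ := by positivity
  have hlog2 : Real.log 2 ≤ Real.log y := Real.log_le_log (by norm_num) (by exact_mod_cast hy2)
  have hl2 := Real.log_two_gt_d9
  have hδ1 : δ ≤ 3 / 5 := by
    rw [hδ, div_le_div_iff₀ (by linarith) (by norm_num)]
    linarith
  set T : Finset ℕ := (Icc 1 y).filter Nat.Prime with hT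
  have hTp : ∀ p ∈ T, p.Prime := fun p hp => (Finset.mem_filter.1 hp).2
  have hTy : ∀ p ∈ T, p ≤ y := fun p hp => (Finset.mem_Icc.1 (Finset.mem_filter.1 hp).1).2
  have hpe : ∀ p ∈ T, (p : ℝ) ^ δ ≤ Real.exp 1 := by
    intro p hp
    have hp0 : (0 : ℝ) < p := by exact_mod_cast (hTp p hp).pos
    rw [Real.rpow_def_of_pos hp0]
    apply Real.exp_le_exp.2
    have h1 : Real.log p ≤ Real.log y := Real.log_le_log hp0 (by exact_mod_cast hTy p hp)
    rw [hδ, mul_one_div, div_le_one (by linarith)]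
    linarith
  have key := gen_sum T hTp (fun p k => (p : ℝ) ^ ((k : ℝ) * δ)) (fun p _ => by simp)
    (fun p hp => by
      intro i j hij
      have hp1 : (1 : ℝ) ≤ p := by exact_mod_cast (hTp p hp).one_le
      apply Real.rpow_le_rpow_of_exponent_le hp1
      apply mul_le_mul_of_nonneg_right _ hδ0.le
      exact_mod_cast hij)
    (fun p => 1 + 8 / (p : ℝ))
    (fun p hp k => smo_local (hTp p hp).two_le hδ1 hδ0 (hpe p hp) k) N
  -- the product
  have hprod : ∏ p ∈ T, (1 + 8 / (p : ℝ)) ≤ C * (1 + Real.log y) ^ C := by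
    have h1 : ∏ p ∈ T, (1 + 8 / (p : ℝ)) ≤ ∏ p ∈ T, Real.exp (8 * (1 / (p : ℝ))) := by
      apply Finset.prod_le_prod
      · intro p _
        positivity
      · intro p _
        have := Real.add_one_le_exp (8 * (1 / (p : ℝ)))
        have e : 8 * (1 / (p : ℝ)) = 8 / p := by ring
        linarith
    rw [← Real.exp_sum, ← Finset.mul_sum] at h1
    refine h1.trans ?_
    have h2 := hM y hy
    have h3 : Real.exp (8 * ∑ p ∈ T, 1 / (p : ℝ)) ≤
        Real.exp (8 * C0 + 8 * C0 * Real.log (1 + Real.log y)) := by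
      apply Real.exp_le_exp.2
      have : (8 : ℝ) * ∑ p ∈ T, 1 / (p : ℝ) ≤ 8 * (C0 * (1 + Real.log (1 + Real.log y))) :=
        mul_le_mul_of_nonneg_left h2 (by norm_num)
      linarith
    refine h3.trans ?_
    rw [Real.exp_add]
    apply mul_le_mul (le_max_left _ _) _ (Real.exp_pos _).le hCpos.le
    rw [Real.rpow_def_of_pos (by linarith : (0 : ℝ) < 1 + Real.log y)]
    apply Real.exp_le_exp.2
    rw [mul_comm]
    exact mul_le_mul_of_nonneg_left (le_max_right _ _) (Real.log_nonneg hL)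
  -- Markov
  have hmk : (((Icc 1 N).filter fun u => S < smoothPart y u).card : ℝ) * (S : ℝ) ^ δ ≤
      ∑ u ∈ Icc 1 N, ∏ p ∈ T, (p : ℝ) ^ ((u.factorization p : ℝ) * δ) := by
    have h1 : ∀ u ∈ Icc 1 N, ∏ p ∈ T, (p : ℝ) ^ ((u.factorization p : ℝ) * δ) =
        ((smoothPart y u : ℕ) : ℝ) ^ δ := by
      intro u hu
      rw [smo_eq (by have := (Finset.mem_Icc.1 hu).1; omega)]
      push_cast
      rw [← Real.finsetProd_rpow _ _ (fun p _ => by positivity)]
      apply Finset.prod_congr rfl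
      intro p _
      rw [Real.rpow_mul (by positivity), Real.rpow_natCast]
    rw [Finset.sum_congr rfl h1]
    calc (((Icc 1 N).filter fun u => S < smoothPart y u).card : ℝ) * (S : ℝ) ^ δ
        = ∑ u ∈ (Icc 1 N).filter fun u => S < smoothPart y u, (S : ℝ) ^ δ := by
          rw [Finset.sum_const, nsmul_eq_mul]
      _ ≤ ∑ u ∈ (Icc 1 N).filter fun u => S < smoothPart y u, ((smoothPart y u : ℕ) : ℝ) ^ δ := by
          apply Finset.sum_le_sum
          intro u hu
          have := (Finset.mem_filter.1 hu).2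
          exact Real.rpow_le_rpow hS0.le (by exact_mod_cast this.le) hδ0.le
      _ ≤ ∑ u ∈ Icc 1 N, ((smoothPart y u : ℕ) : ℝ) ^ δ := by
          apply Finset.sum_le_sum_of_subset_of_nonneg (Finset.filter_subset _ _)
          intro u _ _
          positivity
  have hSδ : (0 : ℝ) < (S : ℝ) ^ δ := Real.rpow_pos_of_pos hS0 _
  rw [Real.rpow_neg hS0.le, ← div_eq_mul_inv, le_div_iff₀ hSδ]
  calc _ ≤ _ := hmk
    _ ≤ N * ∏ p ∈ T, (1 + 8 / (p : ℝ)) := key
    _ ≤ N * (C * (1 + Real.log y) ^ C) := mul_le_mul_of_nonneg_left hprod (Nat.cast_nonneg _)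
    _ = C * N * (1 + Real.log y) ^ C := by ring

end

/-! ## OME (CHM_OME_helper39.lean) -/

section

open Finset Classical

theorem card_omegaY : ∃ C : ℝ, 0 < C ∧ ∀ M N y R : ℕ, 1 ≤ M → 1 ≤ y →
    (((Icc 1 N).filter fun u => R ≤ omegaY y u).card : ℝ) ≤
      N * (Real.exp 1 * (1 + Real.log y)) ^ (C * M) / (M : ℝ) ^ R := by
  obtain ⟨C, hC, hmer⟩ := mertens_upper
  refine ⟨C, hC, ?_⟩
  intro M N y R hM hy
  have hM1 : (1 : ℝ) ≤ M := by exact_mod_cast hM
  have hly : 0 ≤ Real.log y := Real.log_nonneg (by exact_mod_cast hy)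
  set T : Finset ℕ := (Icc 1 y).filter Nat.Prime with hTdef
  have hT : ∀ p ∈ T, p.Prime := fun p hp => (mem_filter.mp hp).2
  set h : ℕ → ℕ → ℝ := fun _ k => if k = 0 then 1 else (M : ℝ) with hh
  have hgen := gen_sum T hT h (fun p _ => by simp [hh])
    (fun p _ => by
      intro a b hab
      simp only [hh]
      split_ifs with h1 h2
      · exact le_rfl
      · exact hM1
      · omega
      · exact le_rfl)
    (fun p => 1 + ((M : ℝ) - 1) / p)
    (fun p hp k => by
      rcases k with _ | k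
      · simp only [range_zero, sum_empty, add_zero]
        have : (0 : ℝ) ≤ ((M : ℝ) - 1) / p := div_nonneg (by linarith) (Nat.cast_nonneg p)
        linarith
      · rw [sum_range_succ']
        have h0 : ∑ j ∈ range k, (h p (j + 1 + 1) - h p (j + 1)) / (p : ℝ) ^ (j + 1 + 1) = 0 := by
          apply sum_eq_zero
          intro j _
          simp [hh]
        rw [h0]
        simp [hh]) N
  have hmark : (M : ℝ) ^ R * (((Icc 1 N).filter fun u => R ≤ omegaY y u).card : ℝ) ≤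
      ∑ u ∈ Icc 1 N, ∏ p ∈ T, h p (u.factorization p) := by
    calc (M : ℝ) ^ R * (((Icc 1 N).filter fun u => R ≤ omegaY y u).card : ℝ)
        = ∑ u ∈ (Icc 1 N).filter fun u => R ≤ omegaY y u, (M : ℝ) ^ R := by
          rw [sum_const, nsmul_eq_mul, mul_comm]
      _ ≤ ∑ u ∈ (Icc 1 N).filter fun u => R ≤ omegaY y u,
            ∏ p ∈ T, h p (u.factorization p) := by
          apply sum_le_sum
          intro u hu
          rw [mem_filter, mem_Icc] at hu
          have e1 : ∏ p ∈ T, h p (u.factorization p) = (M : ℝ) ^ omegaY y u := by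
            have e2 : ∏ p ∈ T, h p (u.factorization p) =
                ∏ p ∈ T, if u.factorization p ≠ 0 then (M : ℝ) else 1 := by
              apply prod_congr rfl
              intro p _
              simp only [hh]
              split_ifs with h1 h2 <;> simp_all
            rw [e2, prod_ite, prod_const, prod_const_one, mul_one]
            congr 1
            unfold omegaY
            congr 1
            ext p
            simp only [mem_filter, hTdef, mem_Icc, Nat.mem_primeFactors, ne_eq]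
            constructor
            · rintro ⟨⟨⟨_, h2⟩, h3⟩, h4⟩
              refine ⟨⟨h3, ?_, by omega⟩, h2⟩
              by_contra hd
              exact h4 (Nat.factorization_eq_zero_of_not_dvd hd)
            · rintro ⟨⟨h3, h4, h5⟩, h2⟩
              refine ⟨⟨⟨h3.one_lt.le, h2⟩, h3⟩, ?_⟩
              intro h6
              have := (h3.dvd_iff_one_le_factorization (by omega)).mp h4
              omega
          rw [e1]
          exact pow_le_pow_right₀ hM1 hu.2
      _ ≤ ∑ u ∈ Icc 1 N, ∏ p ∈ T, h p (u.factorization p) := by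
          apply sum_le_sum_of_subset_of_nonneg (filter_subset _ _)
          intro u _ _
          apply prod_nonneg
          intro p _
          simp only [hh]
          split_ifs
          · exact zero_le_one
          · linarith
  have hprod : ∏ p ∈ T, (1 + ((M : ℝ) - 1) / p) ≤
      (Real.exp 1 * (1 + Real.log y)) ^ (C * M) := by
    have h1 : ∏ p ∈ T, (1 + ((M : ℝ) - 1) / p) ≤ ∏ p ∈ T, Real.exp (((M : ℝ) - 1) * (1 / p)) := by
      apply prod_le_prod
      · intro p _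
        have : (0 : ℝ) ≤ ((M : ℝ) - 1) / p := div_nonneg (by linarith) (Nat.cast_nonneg p)
        linarith
      · intro p _
        have := Real.add_one_le_exp (((M : ℝ) - 1) * (1 / p))
        have e : ((M : ℝ) - 1) / p = ((M : ℝ) - 1) * (1 / p) := by ring
        rw [e]
        linarith
    rw [← Real.exp_sum, ← mul_sum] at h1
    refine h1.trans ?_
    have hb : 0 < Real.exp 1 * (1 + Real.log y) := by positivity
    rw [Real.rpow_def_of_pos hb]
    apply Real.exp_le_exp.mpr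
    rw [Real.log_mul (by positivity) (by positivity), Real.log_exp]
    have h2 := hmer y hy
    have h3 : 0 ≤ ∑ p ∈ T, (1 : ℝ) / p := sum_nonneg fun p _ => by positivity
    have h4 : ((M : ℝ) - 1) * ∑ p ∈ T, (1 : ℝ) / p ≤ M * ∑ p ∈ T, (1 : ℝ) / p := by
      apply mul_le_mul_of_nonneg_right _ h3
      linarith
    refine h4.trans ?_
    calc (M : ℝ) * ∑ p ∈ T, (1 : ℝ) / p ≤ M * (C * (1 + Real.log (1 + Real.log y))) :=
          mul_le_mul_of_nonneg_left h2 (by linarith)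
      _ = (1 + Real.log (1 + Real.log y)) * (C * M) := by ring
  have hMR : (0 : ℝ) < (M : ℝ) ^ R := by positivity
  rw [le_div_iff₀ hMR]
  calc (((Icc 1 N).filter fun u => R ≤ omegaY y u).card : ℝ) * (M : ℝ) ^ R
      ≤ ∑ u ∈ Icc 1 N, ∏ p ∈ T, h p (u.factorization p) := by rw [mul_comm]; exact hmark
    _ ≤ N * ∏ p ∈ T, (1 + ((M : ℝ) - 1) / p) := hgen
    _ ≤ N * (Real.exp 1 * (1 + Real.log y)) ^ (C * M) :=
        mul_le_mul_of_nonneg_left hprod (Nat.cast_nonneg N)

end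

/-! ## WP (CHM_WP_helper33.lean) -/

section

open Finset Classical

/-- the product of a multiset of numbers `≤ Q` -/
theorem wp_prod_le (Q : ℕ) (s : Multiset ℕ) (h : ∀ x ∈ s, x ≤ Q) :
    s.prod ≤ Q ^ (Multiset.card s) := by
  induction s using Multiset.induction_on with
  | empty => simp
  | cons a s ih =>
    rw [Multiset.prod_cons, Multiset.card_cons, pow_succ, mul_comm]
    exact Nat.mul_le_mul (ih fun x hx => h x (Multiset.mem_cons_of_mem hx))
      (h a (Multiset.mem_cons_self a s))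

/-- the number of multisets of `j` bad primes `≤ Q`, `Q ^ j ≤ P ^ 2`, is at most `P - 1` -/
theorem wp_multichoose (P Q j : ℕ) (hP : P.Prime) (h3 : 3 ≤ P) (hj : Q ^ j ≤ P ^ 2) :
    Nat.multichoose ((Icc 1 Q).filter fun q => Bad P q).card j ≤ P - 1 := by
  obtain ⟨B, hB⟩ : ∃ B : Finset ℕ, B = (Icc 1 Q).filter fun q => Bad P q := ⟨_, rfl⟩
  rw [← hB]
  have hmem : ∀ q ∈ B, q ≤ Q ∧ q.Prime ∧ q ≠ P ∧ q ^ (P - 1) ≡ 1 [MOD P ^ 2] := by
    intro q hq
    rw [hB, mem_filter, mem_Icc] at hq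
    exact ⟨hq.1.2, hq.2.1, hq.2.2.1, hq.2.2.2⟩
  have hcop : ∀ q ∈ B, q.Coprime (P ^ 2) := by
    intro q hq
    exact Nat.Coprime.pow_right 2 ((Nat.coprime_primes (hmem q hq).2.1 hP).2 (hmem q hq).2.2.1)
  have : NeZero (P ^ 2) := ⟨pow_ne_zero 2 hP.ne_zero⟩
  have : IsCyclic (ZMod (P ^ 2))ˣ :=
    ZMod.isCyclic_units_of_prime_pow P hP (by omega) 2
  obtain ⟨g, hg⟩ : ∃ g : {q // q ∈ B} → (ZMod (P ^ 2))ˣ, ∀ q, ((g q : (ZMod (P ^ 2))ˣ) :
      ZMod (P ^ 2)) = ((q.1 : ℕ) : ZMod (P ^ 2)) :=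
    ⟨fun q => ZMod.unitOfCoprime q.1 (hcop q.1 q.2), fun q => ZMod.coe_unitOfCoprime _ _⟩
  have hgpow : ∀ q, g q ^ (P - 1) = 1 := by
    intro q
    have h := (ZMod.natCast_eq_natCast_iff _ _ _).2 (hmem q.1 q.2).2.2.2
    rw [Nat.cast_pow, Nat.cast_one] at h
    rw [Units.ext_iff, Units.val_pow_eq_pow_val, hg q, Units.val_one]
    exact h
  have hval : ∀ s : Multiset {q // q ∈ B}, (((s.map g).prod : (ZMod (P ^ 2))ˣ) : ZMod (P ^ 2)) =
      (((s.map Subtype.val).prod : ℕ) : ZMod (P ^ 2)) := by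
    intro s
    induction s using Multiset.induction_on with
    | empty => simp
    | cons a s ih =>
      rw [Multiset.map_cons, Multiset.map_cons, Multiset.prod_cons, Multiset.prod_cons,
        Units.val_mul, ih, hg a, Nat.cast_mul]
  have hpow : ∀ s : Multiset {q // q ∈ B}, ((s.map g).prod) ^ (P - 1) = 1 := by
    intro s
    induction s using Multiset.induction_on with
    | empty => simp
    | cons a s ih => rw [Multiset.map_cons, Multiset.prod_cons, mul_pow, ih, hgpow a, one_mul]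
  have hprime : ∀ s : Multiset {q // q ∈ B}, ∀ p ∈ s.map Subtype.val, Prime p := by
    intro s p hp
    rw [Multiset.mem_map] at hp
    obtain ⟨a, _, rfl⟩ := hp
    exact (hmem a.1 a.2).2.1.prime
  have hle : ∀ s : Sym {q // q ∈ B} j, ((s.1.map Subtype.val).prod : ℕ) ≤ P ^ 2 := by
    intro s
    refine le_trans (wp_prod_le Q _ fun x hx => ?_) ?_
    · rw [Multiset.mem_map] at hx
      obtain ⟨a, _, rfl⟩ := hx
      exact (hmem a.1 a.2).1
    · rw [Multiset.card_map, s.2]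
      exact hj
  have hpos : ∀ s : Sym {q // q ∈ B} j, 0 < ((s.1.map Subtype.val).prod : ℕ) := by
    intro s
    exact Nat.pos_of_ne_zero (Multiset.prod_ne_zero_of_prime _ (hprime s.1))
  have hinj : Function.Injective fun s : Sym {q // q ∈ B} j => (s.1.map g).prod := by
    intro s s' h
    have h1 : (((s.1.map Subtype.val).prod : ℕ) : ZMod (P ^ 2)) =
        (((s'.1.map Subtype.val).prod : ℕ) : ZMod (P ^ 2)) := by
      rw [← hval, ← hval]
      exact congrArg _ h
    rw [ZMod.natCast_eq_natCast_iff] at h1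
    have h2 : ((s.1.map Subtype.val).prod : ℕ) = (s'.1.map Subtype.val).prod := by
      have a1 := hpos s
      have a2 := hpos s'
      have b1 := hle s
      have b2 := hle s'
      rcases le_total ((s.1.map Subtype.val).prod : ℕ) (s'.1.map Subtype.val).prod with h3 | h3
      · have h4 := (Nat.modEq_iff_dvd' h3).1 h1
        have h5 := Nat.eq_zero_of_dvd_of_lt h4 (by omega)
        omega
      · have h4 := (Nat.modEq_iff_dvd' h3).1 h1.symm
        have h5 := Nat.eq_zero_of_dvd_of_lt h4 (by omega)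
        omega
    have h3 := UniqueFactorizationMonoid.normalizedFactors_prod_of_prime (hprime s.1)
    have h4 := UniqueFactorizationMonoid.normalizedFactors_prod_of_prime (hprime s'.1)
    rw [h2, h4] at h3
    exact Subtype.ext (Multiset.map_injective Subtype.val_injective h3.symm)
  have hcard : Fintype.card (Sym {q // q ∈ B} j) ≤ P - 1 := by
    have h1 : (univ : Finset (Sym {q // q ∈ B} j)).card ≤
        (univ.filter fun x : (ZMod (P ^ 2))ˣ => x ^ (P - 1) = 1).card :=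
      Finset.card_le_card_of_injOn _ (fun s _ => by
        rw [Finset.mem_coe, Finset.mem_filter]
        exact ⟨Finset.mem_univ _, hpow s.1⟩) hinj.injOn
    exact le_trans h1 (IsCyclic.card_pow_eq_one_le (by omega))
  rwa [Sym.card_sym_eq_multichoose, Fintype.card_coe] at hcard

/-- `k ^ j ≤ j ^ j * multichoose k j` -/
theorem wp_pow_le (k j : ℕ) : k ^ j ≤ j ^ j * Nat.multichoose k j := by
  have h1 := Nat.pow_succ_le_ascFactorial k j
  rw [Nat.ascFactorial_eq_factorial_mul_choose', ← Nat.multichoose_eq] at h1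
  exact le_trans h1 (Nat.mul_le_mul (Nat.factorial_le_pow j) le_rfl)

theorem card_bad : ∃ C : ℝ, 0 < C ∧ ∀ P Q : ℕ, P.Prime → 3 ≤ P → 2 ≤ Q → Q ≤ P →
    (((Icc 1 Q).filter fun q => Bad P q).card : ℝ) ≤
      C * Real.log P * (Q : ℝ) ^ (3 / 4 : ℝ) := by
  refine ⟨2 / Real.log 2, div_pos two_pos (Real.log_pos one_lt_two), fun P Q hP h3 hQ hQP => ?_⟩
  obtain ⟨k, hk⟩ : ∃ k : ℕ, k = ((Icc 1 Q).filter fun q => Bad P q).card := ⟨_, rfl⟩
  rw [← hk]
  obtain ⟨j, hj⟩ : ∃ j : ℕ, j = Nat.log Q (P ^ 2) := ⟨_, rfl⟩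
  have hP2 : P ^ 2 ≠ 0 := pow_ne_zero 2 hP.ne_zero
  have hj1 : Q ^ j ≤ P ^ 2 := by
    rw [hj]
    exact Nat.pow_log_le_self Q hP2
  have hj2 : P ^ 2 < Q ^ (j + 1) := by
    rw [hj]
    exact Nat.lt_pow_succ_log_self (by omega) _
  have hj3 : 2 ≤ j := by
    rw [hj]
    exact Nat.le_log_of_pow_le (by omega) (Nat.pow_le_pow_left hQP 2)
  have h1 := wp_multichoose P Q j hP h3 hj1
  rw [← hk] at h1
  have h2 : k ^ j ≤ j ^ j * P := le_trans (wp_pow_le k j)
    (Nat.mul_le_mul le_rfl (le_trans h1 (Nat.sub_le _ _)))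
  have hQ0 : (0 : ℝ) < Q := by positivity
  have hQ1 : (1 : ℝ) ≤ Q := by exact_mod_cast (by omega : 1 ≤ Q)
  have hP0 : (0 : ℝ) < P := by
    have := hP.pos
    positivity
  have hj0 : (0 : ℝ) < j := by
    have : 0 < j := by omega
    exact_mod_cast this
  -- `P < Q ^ (3 j / 4)`
  have h4 : (P : ℝ) < ((Q : ℝ) ^ (3 / 4 : ℝ)) ^ j := by
    have e1 : (((Q : ℝ) ^ (3 / 4 : ℝ)) ^ j) ^ 2 = (Q : ℝ) ^ ((3 / 2 : ℝ) * j) := by
      rw [← pow_mul, ← Real.rpow_natCast, ← Real.rpow_mul hQ0.le]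
      congr 1
      push_cast
      ring
    have e2 : ((P : ℝ)) ^ 2 < (((Q : ℝ) ^ (3 / 4 : ℝ)) ^ j) ^ 2 := by
      rw [e1]
      have e3 : ((P : ℝ)) ^ 2 < (Q : ℝ) ^ (j + 1) := by exact_mod_cast hj2
      refine lt_of_lt_of_le e3 ?_
      rw [← Real.rpow_natCast]
      refine Real.rpow_le_rpow_of_exponent_le hQ1 ?_
      push_cast
      have : (2 : ℝ) ≤ j := by exact_mod_cast hj3
      linarith
    exact lt_of_pow_lt_pow_left₀ 2 (by positivity) e2
  have h5 : (k : ℝ) ≤ j * (Q : ℝ) ^ (3 / 4 : ℝ) := by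
    by_contra hcon
    push Not at hcon
    have h6 : ((j : ℝ) * (Q : ℝ) ^ (3 / 4 : ℝ)) ^ j ≤ (k : ℝ) ^ j :=
      pow_le_pow_left₀ (by positivity) hcon.le j
    have h7 : ((k : ℝ)) ^ j ≤ (j : ℝ) ^ j * P := by exact_mod_cast h2
    rw [mul_pow] at h6
    have h8 : (j : ℝ) ^ j * ((Q : ℝ) ^ (3 / 4 : ℝ)) ^ j ≤ (j : ℝ) ^ j * P := le_trans h6 h7
    have h9 := le_of_mul_le_mul_left h8 (by positivity)
    linarith
  -- `j ≤ 2 log P / log 2`
  have hlog2 : 0 < Real.log 2 := Real.log_pos one_lt_two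
  have h10 : (j : ℝ) ≤ 2 / Real.log 2 * Real.log P := by
    have e1 : ((Q : ℝ)) ^ j ≤ (P : ℝ) ^ 2 := by exact_mod_cast hj1
    have e2 : (2 : ℝ) ^ j ≤ (P : ℝ) ^ 2 :=
      le_trans (pow_le_pow_left₀ (by norm_num) (by exact_mod_cast hQ) j) e1
    have e3 := Real.log_le_log (by positivity) e2
    rw [Real.log_pow, Real.log_pow] at e3
    push_cast at e3
    rw [div_mul_eq_mul_div, le_div_iff₀ hlog2]
    exact e3
  calc (k : ℝ) ≤ j * (Q : ℝ) ^ (3 / 4 : ℝ) := h5
    _ ≤ 2 / Real.log 2 * Real.log P * (Q : ℝ) ^ (3 / 4 : ℝ) :=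
      mul_le_mul_of_nonneg_right h10 (by positivity)

end

/-! ## WS (CHM_WS_helper39.lean) -/

section

open Finset Classical

theorem ws_pow (x : ℝ) (hx : 2 ≤ x) :
    x ^ (3 / 4 : ℝ) / (x * (x + 1)) ≤ 4 * ((x - 1) ^ (-(1 / 4) : ℝ) - x ^ (-(1 / 4) : ℝ)) := by
  have hx0 : 0 < x := by linarith
  have hx1 : 0 < x - 1 := by linarith
  set a := x ^ (1 / 4 : ℝ) with ha
  set b := (x - 1) ^ (1 / 4 : ℝ) with hb
  have ha0 : 0 < a := Real.rpow_pos_of_pos hx0 _
  have hb0 : 0 < b := Real.rpow_pos_of_pos hx1 _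
  have e1 : x ^ (3 / 4 : ℝ) = x / a := by
    rw [ha, show (3 / 4 : ℝ) = 1 - 1 / 4 by norm_num, Real.rpow_sub hx0, Real.rpow_one]
  have e2 : x ^ (-(1 / 4) : ℝ) = 1 / a := by
    rw [Real.rpow_neg hx0.le, one_div a]
  have e3 : (x - 1) ^ (-(1 / 4) : ℝ) = 1 / b := by
    rw [Real.rpow_neg hx1.le, one_div b]
  rw [e1, e2, e3]
  have h1 : b ≤ a * (1 - 1 / (4 * x)) := by
    have e4 : x - 1 = x * (1 + -(1 / x)) := by field_simp; ring
    have h2 : (1 + -(1 / x)) ^ (1 / 4 : ℝ) ≤ 1 + (1 / 4) * (-(1 / x)) := by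
      apply rpow_one_add_le_one_add_mul_self
      · have : 1 / x ≤ 1 := by rw [div_le_one hx0]; linarith
        linarith
      · norm_num
      · norm_num
    have h5 : (0 : ℝ) ≤ 1 + -(1 / x) := by
      have : 1 / x ≤ 1 := by rw [div_le_one hx0]; linarith
      linarith
    rw [hb, e4, Real.mul_rpow hx0.le h5]
    calc x ^ (1 / 4 : ℝ) * (1 + -(1 / x)) ^ (1 / 4 : ℝ) ≤
        x ^ (1 / 4 : ℝ) * (1 + (1 / 4) * (-(1 / x))) := mul_le_mul_of_nonneg_left h2 ha0.le
      _ = a * (1 - 1 / (4 * x)) := by rw [ha]; field_simp; ring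
  have h6 : 1 / (a * (1 - 1 / (4 * x))) ≤ 1 / b := one_div_le_one_div_of_le hb0 h1
  have h7 : (1 + 1 / (4 * x)) / a ≤ 1 / (a * (1 - 1 / (4 * x))) := by
    have h8 : 0 < 1 - 1 / (4 * x) := by
      have : 1 / (4 * x) < 1 := by rw [div_lt_one (by linarith)]; linarith
      linarith
    rw [div_le_div_iff₀ ha0 (by positivity)]
    have h9 : (1 + 1 / (4 * x)) * (1 - 1 / (4 * x)) ≤ 1 := by nlinarith [sq_nonneg (1 / (4 * x))]
    nlinarith
  have h10 : x / a / (x * (x + 1)) ≤ 1 / (a * x) := by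
    rw [div_div, div_le_div_iff₀ (by positivity) (by positivity)]
    nlinarith [mul_pos ha0 hx0, mul_pos (mul_pos ha0 hx0) hx0]
  have h11 : 1 / (a * x) = 4 * ((1 + 1 / (4 * x)) / a - 1 / a) := by
    field_simp
    ring
  calc x / a / (x * (x + 1)) ≤ 1 / (a * x) := h10
    _ = 4 * ((1 + 1 / (4 * x)) / a - 1 / a) := h11
    _ ≤ 4 * (1 / b - 1 / a) := by linarith

theorem ws_sum (y P : ℕ) (hy : 1 ≤ y) (hP : y + 1 ≤ P) :
    ∑ m ∈ Ico (y + 1) P, (m : ℝ) ^ (3 / 4 : ℝ) / ((m : ℝ) * (m + 1)) ≤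
      4 * ((y : ℝ) ^ (-(1 / 4) : ℝ) - ((P : ℝ) - 1) ^ (-(1 / 4) : ℝ)) := by
  induction P, hP using Nat.le_induction with
  | base =>
    simp
  | succ P hP ih =>
    rw [sum_Ico_succ_top hP]
    have h1 := ws_pow P (by
      have : 2 ≤ P := by omega
      exact_mod_cast this)
    push_cast
    have e : (P : ℝ) + 1 - 1 = P := by ring
    rw [e]
    linarith

theorem ws_tel (q P : ℕ) (hq : 1 ≤ q) (hP : q ≤ P) :
    (1 : ℝ) / q = ∑ m ∈ Ico q P, 1 / ((m : ℝ) * (m + 1)) + 1 / P := by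
  induction P, hP using Nat.le_induction with
  | base => simp
  | succ P hP ih =>
    rw [sum_Ico_succ_top hP, ih]
    have h1 : (0 : ℝ) < P := by
      have : 0 < P := by omega
      exact_mod_cast this
    have e : (1 : ℝ) / P = 1 / ((P : ℝ) * (P + 1)) + 1 / ((P + 1 : ℕ) : ℝ) := by
      push_cast
      field_simp
      ring
    linarith

theorem ws_inner (C : ℝ) (hC : 0 < C)
    (hbad : ∀ P Q : ℕ, P.Prime → 3 ≤ P → 2 ≤ Q → Q ≤ P →
      (((Icc 1 Q).filter fun q => Bad P q).card : ℝ) ≤ C * Real.log P * (Q : ℝ) ^ (3 / 4 : ℝ))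
    (P y : ℕ) (hP : P.Prime) (h3 : 3 ≤ P) (hy : 1 ≤ y) :
    ∑ q ∈ (Icc 1 P).filter (fun q => Bad P q ∧ y < q ∧ q < P), (1 : ℝ) / q ≤
      5 * C * Real.log P * (y : ℝ) ^ (-(1 / 4) : ℝ) := by
  have hlP : 0 ≤ Real.log P := Real.log_nonneg (by exact_mod_cast hP.one_lt.le)
  have hy4 : 0 ≤ (y : ℝ) ^ (-(1 / 4) : ℝ) := Real.rpow_nonneg (Nat.cast_nonneg y) _
  set B := (Icc 1 P).filter (fun q => Bad P q ∧ y < q ∧ q < P) with hB
  rcases Nat.lt_or_ge P (y + 1) with hPy | hPy
  · have : B = ∅ := by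
      rw [hB]
      apply filter_eq_empty_iff.mpr
      rintro q _ ⟨_, h1, h2⟩
      omega
    rw [this, sum_empty]
    positivity
  have hP0 : (0 : ℝ) < P := by exact_mod_cast hP.pos
  have h1 : ∑ q ∈ B, (1 : ℝ) / q =
      ∑ q ∈ B, (∑ m ∈ (Ico (y + 1) P).filter (fun m => q ≤ m), 1 / ((m : ℝ) * (m + 1)) + 1 / P) := by
    apply sum_congr rfl
    intro q hq
    rw [hB, mem_filter, mem_Icc] at hq
    obtain ⟨⟨hq1, _⟩, _, hq2, hq3⟩ := hq
    rw [ws_tel q P hq1 hq3.le]
    congr 1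
    apply sum_congr _ (fun _ _ => rfl)
    ext m
    simp only [mem_Ico, mem_filter]
    omega
  rw [h1, sum_add_distrib]
  have hcount : ∀ m : ℕ, 2 ≤ m → m ≤ P → ((B.filter fun q => q ≤ m).card : ℝ) ≤
      C * Real.log P * (m : ℝ) ^ (3 / 4 : ℝ) := by
    intro m hm hmP
    refine le_trans ?_ (hbad P m hP h3 hm hmP)
    have : (B.filter fun q => q ≤ m).card ≤ ((Icc 1 m).filter fun q => Bad P q).card := by
      apply card_le_card
      intro q hq
      rw [mem_filter, hB, mem_filter, mem_Icc] at hq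
      rw [mem_filter, mem_Icc]
      exact ⟨⟨hq.1.1.1, hq.2⟩, hq.1.2.1⟩
    exact_mod_cast this
  have h2 : ∑ q ∈ B, ∑ m ∈ (Ico (y + 1) P).filter (fun m => q ≤ m), 1 / ((m : ℝ) * (m + 1)) ≤
      C * Real.log P * (4 * (y : ℝ) ^ (-(1 / 4) : ℝ)) := by
    have e1 : ∑ q ∈ B, ∑ m ∈ (Ico (y + 1) P).filter (fun m => q ≤ m), 1 / ((m : ℝ) * (m + 1)) =
        ∑ m ∈ Ico (y + 1) P, ((B.filter fun q => q ≤ m).card : ℝ) * (1 / ((m : ℝ) * (m + 1))) := by
      simp only [sum_filter]
      rw [sum_comm]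
      apply sum_congr rfl
      intro m _
      rw [← sum_filter, sum_const, nsmul_eq_mul]
    rw [e1]
    calc ∑ m ∈ Ico (y + 1) P, ((B.filter fun q => q ≤ m).card : ℝ) * (1 / ((m : ℝ) * (m + 1)))
        ≤ ∑ m ∈ Ico (y + 1) P, C * Real.log P *
            ((m : ℝ) ^ (3 / 4 : ℝ) / ((m : ℝ) * (m + 1))) := by
          apply sum_le_sum
          intro m hm
          rw [mem_Ico] at hm
          have h3 := hcount m (by omega) hm.2.le
          have h4 : (0 : ℝ) ≤ 1 / ((m : ℝ) * (m + 1)) := by positivity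
          calc ((B.filter fun q => q ≤ m).card : ℝ) * (1 / ((m : ℝ) * (m + 1)))
              ≤ (C * Real.log P * (m : ℝ) ^ (3 / 4 : ℝ)) * (1 / ((m : ℝ) * (m + 1))) :=
                mul_le_mul_of_nonneg_right h3 h4
            _ = _ := by ring
      _ = C * Real.log P * ∑ m ∈ Ico (y + 1) P,
            ((m : ℝ) ^ (3 / 4 : ℝ) / ((m : ℝ) * (m + 1))) := by rw [mul_sum]
      _ ≤ C * Real.log P * (4 * (y : ℝ) ^ (-(1 / 4) : ℝ)) := by
          apply mul_le_mul_of_nonneg_left _ (by positivity)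
          refine (ws_sum y P hy hPy).trans ?_
          have h5 : 0 ≤ ((P : ℝ) - 1) ^ (-(1 / 4) : ℝ) := by
            apply Real.rpow_nonneg
            have : (1 : ℝ) ≤ P := by exact_mod_cast hP.one_lt.le
            linarith
          linarith
  have h3' : ∑ q ∈ B, (1 : ℝ) / P ≤ C * Real.log P * (y : ℝ) ^ (-(1 / 4) : ℝ) := by
    rw [sum_const, nsmul_eq_mul]
    have h4 := hcount P (by omega) le_rfl
    have e2 : B.filter (fun q => q ≤ P) = B := by
      apply filter_true_of_mem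
      intro q hq
      rw [hB, mem_filter, mem_Icc] at hq
      exact hq.1.2
    rw [e2] at h4
    have h5 : (P : ℝ) ^ (3 / 4 : ℝ) * (1 / P) = (P : ℝ) ^ (-(1 / 4) : ℝ) := by
      rw [show (-(1 / 4) : ℝ) = 3 / 4 - 1 by norm_num, Real.rpow_sub hP0, Real.rpow_one]
      ring
    have h6 : (P : ℝ) ^ (-(1 / 4) : ℝ) ≤ (y : ℝ) ^ (-(1 / 4) : ℝ) := by
      apply Real.rpow_le_rpow_of_nonpos
      · exact_mod_cast hy
      · exact_mod_cast (by omega : y ≤ P)
      · norm_num
    calc (B.card : ℝ) * (1 / P) ≤ (C * Real.log P * (P : ℝ) ^ (3 / 4 : ℝ)) * (1 / P) :=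
          mul_le_mul_of_nonneg_right h4 (by positivity)
      _ = C * Real.log P * ((P : ℝ) ^ (3 / 4 : ℝ) * (1 / P)) := by ring
      _ = C * Real.log P * (P : ℝ) ^ (-(1 / 4) : ℝ) := by rw [h5]
      _ ≤ C * Real.log P * (y : ℝ) ^ (-(1 / 4) : ℝ) :=
          mul_le_mul_of_nonneg_left h6 (by positivity)
  linarith

theorem card_wie : ∃ C : ℝ, 0 < C ∧ ∀ N y : ℕ, 1 ≤ y →
    (((Icc 1 N).filter fun u => ∃ P q : ℕ, P.Prime ∧ 3 ≤ P ∧ Bad P q ∧ y < q ∧ q < P ∧
      P ∣ u ∧ q ∣ u).card : ℝ) ≤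
      C * N * (1 + Real.log N) ^ 2 * (y : ℝ) ^ (-(1 / 4) : ℝ) := by
  obtain ⟨C, hC, hbad⟩ := card_bad
  refine ⟨5 * C, by positivity, ?_⟩
  intro N y hy
  have hlN : 0 ≤ Real.log N := by
    rcases Nat.eq_zero_or_pos N with h | h
    · subst h; simp
    · exact Real.log_nonneg (by exact_mod_cast h)
  have hy4 : 0 ≤ (y : ℝ) ^ (-(1 / 4) : ℝ) := Real.rpow_nonneg (Nat.cast_nonneg y) _
  set TP := (Icc 1 N).filter (fun P : ℕ => P.Prime ∧ 3 ≤ P) with hTP
  have hsub : ((Icc 1 N).filter fun u => ∃ P q : ℕ, P.Prime ∧ 3 ≤ P ∧ Bad P q ∧ y < q ∧ q < P ∧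
      P ∣ u ∧ q ∣ u) ⊆ TP.biUnion fun P =>
        ((Icc 1 P).filter (fun q => Bad P q ∧ y < q ∧ q < P)).biUnion fun q =>
          (Icc 1 N).filter fun u => P * q ∣ u := by
    intro u hu
    rw [mem_filter, mem_Icc] at hu
    obtain ⟨⟨hu1, hu2⟩, P, q, hP, h3, hb, hyq, hqP, hPu, hqu⟩ := hu
    rw [mem_biUnion]
    refine ⟨P, ?_, ?_⟩
    · rw [hTP, mem_filter, mem_Icc]
      exact ⟨⟨hP.one_lt.le, (Nat.le_of_dvd (by omega) hPu).trans hu2⟩, hP, h3⟩
    · rw [mem_biUnion]
      refine ⟨q, ?_, ?_⟩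
      · rw [mem_filter, mem_Icc]
        exact ⟨⟨by omega, hqP.le⟩, hb, hyq, hqP⟩
      · rw [mem_filter, mem_Icc]
        refine ⟨⟨hu1, hu2⟩, ?_⟩
        exact Nat.Coprime.mul_dvd_of_dvd_of_dvd
          ((Nat.coprime_primes hP hb.1).mpr (Ne.symm hb.2.1)) hPu hqu
  have hcard : (((Icc 1 N).filter fun u => ∃ P q : ℕ, P.Prime ∧ 3 ≤ P ∧ Bad P q ∧ y < q ∧ q < P ∧
      P ∣ u ∧ q ∣ u).card : ℝ) ≤ ∑ P ∈ TP,
        ∑ q ∈ (Icc 1 P).filter (fun q => Bad P q ∧ y < q ∧ q < P), (N : ℝ) / (P * q) := by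
    have h1 : ((Icc 1 N).filter fun u => ∃ P q : ℕ, P.Prime ∧ 3 ≤ P ∧ Bad P q ∧ y < q ∧ q < P ∧
      P ∣ u ∧ q ∣ u).card ≤ ∑ P ∈ TP,
        ∑ q ∈ (Icc 1 P).filter (fun q => Bad P q ∧ y < q ∧ q < P),
          ((Icc 1 N).filter fun u => P * q ∣ u).card :=
      (card_le_card hsub).trans (card_biUnion_le.trans (sum_le_sum fun P _ => card_biUnion_le))
    have h2 : (((Icc 1 N).filter fun u => ∃ P q : ℕ, P.Prime ∧ 3 ≤ P ∧ Bad P q ∧ y < q ∧ q < P ∧
      P ∣ u ∧ q ∣ u).card : ℝ) ≤ ∑ P ∈ TP,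
        ∑ q ∈ (Icc 1 P).filter (fun q => Bad P q ∧ y < q ∧ q < P),
          (((Icc 1 N).filter fun u => P * q ∣ u).card : ℝ) := by exact_mod_cast h1
    refine h2.trans (sum_le_sum fun P _ => sum_le_sum fun q _ => ?_)
    have h4 : ((Icc 1 N).filter fun u => P * q ∣ u).card = N / (P * q) := by
      have := Nat.Ioc_filter_dvd_card_eq_div N (P * q)
      rw [← this]
      congr 1
    rw [h4]
    have h5 := Nat.cast_div_le (α := ℝ) (m := N) (n := P * q)
    push_cast at h5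
    exact h5
  refine hcard.trans ?_
  calc ∑ P ∈ TP, ∑ q ∈ (Icc 1 P).filter (fun q => Bad P q ∧ y < q ∧ q < P), (N : ℝ) / (P * q)
      = ∑ P ∈ TP, (N : ℝ) * (1 / P) *
          ∑ q ∈ (Icc 1 P).filter (fun q => Bad P q ∧ y < q ∧ q < P), (1 : ℝ) / q := by
        apply sum_congr rfl
        intro P _
        rw [mul_sum]
        apply sum_congr rfl
        intro q _
        rw [div_eq_mul_one_div (N : ℝ) ((P : ℝ) * q), one_div, one_div, one_div, mul_inv, mul_assoc]
    _ ≤ ∑ P ∈ TP, (N : ℝ) * (1 / P) * (5 * C * Real.log N * (y : ℝ) ^ (-(1 / 4) : ℝ)) := by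
        apply sum_le_sum
        intro P hP
        rw [hTP, mem_filter, mem_Icc] at hP
        apply mul_le_mul_of_nonneg_left _ (by positivity)
        refine (ws_inner C hC hbad P y hP.2.1 hP.2.2 hy).trans ?_
        apply mul_le_mul_of_nonneg_right _ hy4
        apply mul_le_mul_of_nonneg_left _ (by positivity)
        apply Real.log_le_log
        · exact_mod_cast hP.2.1.pos
        · exact_mod_cast hP.1.2
    _ = (∑ P ∈ TP, (1 : ℝ) / P) * ((N : ℝ) * (5 * C * Real.log N * (y : ℝ) ^ (-(1 / 4) : ℝ))) := by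
        rw [sum_mul]
        apply sum_congr rfl
        intro P _
        ring
    _ ≤ (1 + Real.log N) * ((N : ℝ) * (5 * C * (1 + Real.log N) * (y : ℝ) ^ (-(1 / 4) : ℝ))) := by
        have h6 : ∑ P ∈ TP, (1 : ℝ) / P ≤ 1 + Real.log N := by
          have h7 : ∑ P ∈ TP, (1 : ℝ) / P ≤ ∑ P ∈ Icc 1 N, (1 : ℝ) / P := by
            apply sum_le_sum_of_subset_of_nonneg (filter_subset _ _)
            intro P _ _
            positivity
          refine h7.trans ?_
          have h8 := harmonic_le_one_add_log N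
          rw [harmonic_eq_sum_Icc] at h8
          push_cast at h8
          simpa [one_div] using h8
        apply mul_le_mul h6 _ (by positivity) (by linarith)
        apply mul_le_mul_of_nonneg_left _ (Nat.cast_nonneg N)
        apply mul_le_mul_of_nonneg_right _ hy4
        apply mul_le_mul_of_nonneg_left _ (by positivity)
        linarith
    _ = 5 * C * N * (1 + Real.log N) ^ 2 * (y : ℝ) ^ (-(1 / 4) : ℝ) := by ring

end

/-! ## ORD (CHM_ORD_helper13.lean) -/

section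

open Finset Classical

theorem ord_card_primeFactors (q i y K : ℕ) (hq : q ≤ y) (hi : i ≤ K) :
    (q ^ i - 1).primeFactors.card ≤ y * K := by
  by_cases h0 : q ^ i - 1 = 0
  · simp [h0]
  · have h1 : 2 ^ (q ^ i - 1).primeFactors.card ≤ ∏ p ∈ (q ^ i - 1).primeFactors, p := by
      have := Finset.prod_le_prod' (s := (q ^ i - 1).primeFactors) (f := fun _ => 2)
        (g := fun p => p) (fun p hp => (Nat.prime_of_mem_primeFactors hp).two_le)
      simpa using this
    have h2 : ∏ p ∈ (q ^ i - 1).primeFactors, p ≤ q ^ i - 1 :=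
      Nat.le_of_dvd (Nat.pos_of_ne_zero h0) (Nat.prod_primeFactors_dvd _)
    have h3 : q ^ i ≤ 2 ^ (y * K) := by
      calc q ^ i ≤ (2 ^ q) ^ i := Nat.pow_le_pow_left (Nat.lt_two_pow_self).le i
        _ = 2 ^ (q * i) := by rw [pow_mul]
        _ ≤ 2 ^ (y * K) := Nat.pow_le_pow_right (by norm_num) (Nat.mul_le_mul hq hi)
    have h4 : 2 ^ (q ^ i - 1).primeFactors.card ≤ 2 ^ (y * K) := by
      refine h1.trans (h2.trans ?_)
      omega
    exact (Nat.pow_le_pow_iff_right (by norm_num)).1 h4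

theorem ord_card_mult (N P : ℕ) : ((Icc 1 N).filter fun u => P ∣ u).card = N / P := by
  have : (Icc 1 N) = Ioc 0 N := by
    ext x
    simp only [mem_Icc, mem_Ioc]
    omega
  rw [this]
  exact Nat.Ioc_filter_dvd_card_eq_div N P

theorem card_ord (N y z K : ℕ) (hz : 1 ≤ z) :
    (((Icc 1 N).filter fun u => ∃ P q i : ℕ, P.Prime ∧ z < P ∧ P ∣ u ∧ q.Prime ∧ q ≤ y ∧
      1 ≤ i ∧ i ≤ K ∧ P ∣ q ^ i - 1).card : ℝ) ≤ N * ((K : ℝ) ^ 2 * (y : ℝ) ^ 2) / z := by
  have hsub : ((Icc 1 N).filter fun u => ∃ P q i : ℕ, P.Prime ∧ z < P ∧ P ∣ u ∧ q.Prime ∧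
      q ≤ y ∧ 1 ≤ i ∧ i ≤ K ∧ P ∣ q ^ i - 1) ⊆
      (Icc 1 y ×ˢ Icc 1 K).biUnion fun qi =>
        ((qi.1 ^ qi.2 - 1).primeFactors.filter fun P => z < P).biUnion fun P =>
          (Icc 1 N).filter fun u => P ∣ u := by
    intro u hu
    rw [Finset.mem_filter] at hu
    obtain ⟨hu1, P, q, i, hP, hzP, hPu, hq, hqy, hi1, hiK, hd⟩ := hu
    rw [Finset.mem_biUnion]
    refine ⟨(q, i), ?_, ?_⟩
    · rw [Finset.mem_product, Finset.mem_Icc, Finset.mem_Icc]
      exact ⟨⟨hq.one_le, hqy⟩, hi1, hiK⟩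
    · rw [Finset.mem_biUnion]
      refine ⟨P, ?_, ?_⟩
      · rw [Finset.mem_filter, Nat.mem_primeFactors]
        refine ⟨⟨hP, hd, ?_⟩, hzP⟩
        have : 2 ≤ q ^ i := hq.two_le.trans (Nat.le_self_pow (by omega) q)
        show q ^ i - 1 ≠ 0
        omega
      · rw [Finset.mem_filter]
        exact ⟨hu1, hPu⟩
  have hz0 : (0 : ℝ) < z := by exact_mod_cast hz
  have h1 := (Finset.card_le_card hsub).trans Finset.card_biUnion_le
  have h2 : ∀ qi ∈ (Icc 1 y ×ˢ Icc 1 K : Finset (ℕ × ℕ)),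
      (((((qi.1 ^ qi.2 - 1).primeFactors.filter fun P => z < P).biUnion fun P =>
          (Icc 1 N).filter fun u => P ∣ u).card : ℕ) : ℝ) ≤ (y * K : ℝ) * (N / z) := by
    intro qi hqi
    rw [Finset.mem_product, Finset.mem_Icc, Finset.mem_Icc] at hqi
    have h3 : (((((qi.1 ^ qi.2 - 1).primeFactors.filter fun P => z < P).biUnion fun P =>
          (Icc 1 N).filter fun u => P ∣ u).card : ℕ) : ℝ) ≤
        ∑ P ∈ (qi.1 ^ qi.2 - 1).primeFactors.filter (fun P => z < P),
          ((((Icc 1 N).filter fun u => P ∣ u).card : ℕ) : ℝ) := by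
      exact_mod_cast Finset.card_biUnion_le
    refine h3.trans ?_
    have h4 : ∀ P ∈ (qi.1 ^ qi.2 - 1).primeFactors.filter (fun P => z < P),
        ((((Icc 1 N).filter fun u => P ∣ u).card : ℕ) : ℝ) ≤ N / z := by
      intro P hP
      rw [Finset.mem_filter] at hP
      rw [ord_card_mult]
      refine (Nat.cast_div_le).trans ?_
      have : (z : ℝ) ≤ P := by exact_mod_cast hP.2.le
      gcongr
    refine (Finset.sum_le_sum h4).trans ?_
    rw [Finset.sum_const, nsmul_eq_mul]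
    have h5 : (((qi.1 ^ qi.2 - 1).primeFactors.filter fun P => z < P).card : ℝ) ≤ y * K := by
      have := (Finset.card_filter_le (qi.1 ^ qi.2 - 1).primeFactors (fun P => z < P)).trans
        (ord_card_primeFactors qi.1 qi.2 y K hqi.1.2 hqi.2.2)
      exact_mod_cast this
    exact mul_le_mul_of_nonneg_right h5 (by positivity)
  calc (((Icc 1 N).filter fun u => ∃ P q i : ℕ, P.Prime ∧ z < P ∧ P ∣ u ∧ q.Prime ∧ q ≤ y ∧
      1 ≤ i ∧ i ≤ K ∧ P ∣ q ^ i - 1).card : ℝ)
      ≤ ((∑ qi ∈ (Icc 1 y ×ˢ Icc 1 K : Finset (ℕ × ℕ)),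
        (((qi.1 ^ qi.2 - 1).primeFactors.filter fun P => z < P).biUnion fun P =>
          (Icc 1 N).filter fun u => P ∣ u).card : ℕ) : ℝ) := by exact_mod_cast h1
    _ = ∑ qi ∈ (Icc 1 y ×ˢ Icc 1 K : Finset (ℕ × ℕ)),
        (((((qi.1 ^ qi.2 - 1).primeFactors.filter fun P => z < P).biUnion fun P =>
          (Icc 1 N).filter fun u => P ∣ u).card : ℕ) : ℝ) := by push_cast; rfl
    _ ≤ ∑ qi ∈ (Icc 1 y ×ˢ Icc 1 K : Finset (ℕ × ℕ)), (y * K : ℝ) * (N / z) :=
        Finset.sum_le_sum h2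
    _ = N * ((K : ℝ) ^ 2 * (y : ℝ) ^ 2) / z := by
        rw [Finset.sum_const, Finset.card_product, Nat.card_Icc, Nat.card_Icc, nsmul_eq_mul]
        simp only [Nat.add_sub_cancel]
        push_cast
        ring

example : type_of% @card_ord := @card_ord

end

/-! ## SPL (CHM_SPL_helper35.lean) -/

section

open Finset Classical

theorem spl_badPart_le {P u y : ℕ} (h : ∀ q, Bad P q → q ∣ u → q ≤ y) :
    badPart P u ≤ smoothPart y u := by
  unfold badPart smoothPart
  apply Finset.prod_le_prod_of_subset_of_one_le'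
  · intro q hq
    rw [Finset.mem_filter] at hq ⊢
    exact ⟨hq.1, h q hq.2 (Nat.dvd_of_mem_primeFactors hq.1)⟩
  · intro q hq _
    rw [Finset.mem_filter] at hq
    exact Nat.one_le_pow _ _ (Nat.prime_of_mem_primeFactors hq.1).pos

theorem spl_badNum_le {P u y : ℕ} (h : ∀ q, Bad P q → q ∣ u → q ≤ y) :
    badNum P u ≤ omegaY y u := by
  unfold badNum omegaY
  apply Finset.card_le_card
  intro q hq
  rw [Finset.mem_filter] at hq ⊢
  exact ⟨hq.1, h q hq.2 (Nat.dvd_of_mem_primeFactors hq.1)⟩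

theorem spl_badPart_pos {P u : ℕ} : 1 ≤ badPart P u := by
  unfold badPart
  apply Finset.one_le_prod'
  intro q hq
  rw [Finset.mem_filter] at hq
  exact Nat.one_le_pow _ _ (Nat.prime_of_mem_primeFactors hq.1).pos

/-- SPL -/
theorem exc_split (u y z K S R : ℕ) (hu : 1 ≤ u) (h : Exc u) (hz : 5 ≤ z)
    (hK : S ^ 2 ^ (R + 1) ≤ K) :
    (∀ p : ℕ, p.Prime → p ∣ u → p ≤ z) ∨
    (∃ P q : ℕ, P.Prime ∧ 3 ≤ P ∧ Bad P q ∧ y < q ∧ q < P ∧ P ∣ u ∧ q ∣ u) ∨
    (∃ P q i : ℕ, P.Prime ∧ z < P ∧ P ∣ u ∧ q.Prime ∧ q ≤ y ∧ 1 ≤ i ∧ i ≤ K ∧ P ∣ q ^ i - 1) ∨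
    S < smoothPart y u ∨ R < omegaY y u := by
  by_contra hcon
  push Not at hcon
  obtain ⟨⟨p, hp, hpu, hpz⟩, h2, h3, h4, h5⟩ := hcon
  have hne : u.primeFactors.Nonempty := ⟨p, Nat.mem_primeFactors.2 ⟨hp, hpu, by omega⟩⟩
  set P := u.primeFactors.max' hne with hPdef
  have hPm : P ∈ u.primeFactors := Finset.max'_mem _ _
  have hP : P.Prime := Nat.prime_of_mem_primeFactors hPm
  have hPu : P ∣ u := Nat.dvd_of_mem_primeFactors hPm
  have hmax : ∀ r : ℕ, r.Prime → r ∣ u → r ≤ P := fun r hr hru =>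
    Finset.le_max' _ _ (Nat.mem_primeFactors.2 ⟨hr, hru, by omega⟩)
  have hPz : z < P := lt_of_lt_of_le hpz (hmax p hp hpu)
  obtain ⟨q, hqu, hqb, hqo⟩ := h P hP (by omega) hPu hmax
  have hbad : ∀ q, Bad P q → q ∣ u → q ≤ y := by
    intro r hr hru
    by_contra hry
    push Not at hry
    have hrP : r < P := lt_of_le_of_ne (hmax r hr.1 hru) hr.2.1
    exact h2 P r hP (by omega) hr hry hrP hPu hru
  have e1 : badPart P u ≤ S := (spl_badPart_le hbad).trans h4
  have e2 : badNum P u ≤ R := (spl_badNum_le hbad).trans h5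
  have hS : 1 ≤ S := spl_badPart_pos.trans e1
  have e3 : orderOf (q : ZMod P) ≤ K := by
    refine hqo.trans (le_trans ?_ hK)
    calc badPart P u ^ 2 ^ (badNum P u + 1) ≤ S ^ 2 ^ (badNum P u + 1) :=
          Nat.pow_le_pow_left e1 _
      _ ≤ S ^ 2 ^ (R + 1) := Nat.pow_le_pow_right hS (Nat.pow_le_pow_right (by norm_num) (by omega))
  have : Fact P.Prime := ⟨hP⟩
  have hq0 : (q : ZMod P) ≠ 0 := by
    intro h0
    have := (ZMod.natCast_eq_zero_iff q P).1 h0
    rcases (Nat.dvd_prime hqb.1).1 this with h | h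
    · exact hP.one_lt.ne' h
    · exact hqb.2.1 h.symm
  have hfin : IsOfFinOrder (q : ZMod P) := by
    rw [isOfFinOrder_iff_pow_eq_one]
    exact ⟨P - 1, Nat.sub_pos_of_lt hP.one_lt, ZMod.pow_card_sub_one_eq_one hq0⟩
  have hi : 1 ≤ orderOf (q : ZMod P) := hfin.orderOf_pos
  have hdvd : P ∣ q ^ orderOf (q : ZMod P) - 1 := by
    rw [← ZMod.natCast_eq_zero_iff, Nat.cast_sub (Nat.one_le_pow _ _ hqb.1.pos)]
    push_cast
    rw [pow_orderOf_eq_one, sub_self]
  exact h3 P q _ hP hPz hPu hqb.1 (hbad q hqb hqu) hi e3 hdvd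

end

/-! ## FIN (CHM_FIN_helper20.lean) -/

section

open Finset Classical

/-! ## Analytic facts, `L → ∞` -/

theorem fin_polylog (c r k : ℝ) (hc : 0 ≤ c) (hr : 0 ≤ r) (hk : 0 < k) :
    ∀ᶠ L : ℝ in Filter.atTop, c * (1 + Real.log L) ^ r ≤ L ^ k := by
  have h := (isLittleO_log_rpow_rpow_atTop r hk).def
    (c := 1 / ((c + 1) * 2 ^ r)) (by positivity)
  filter_upwards [h, Filter.eventually_ge_atTop (Real.exp 1)] with L hL hL1
  have hpos : 0 < L := lt_of_lt_of_le (Real.exp_pos 1) hL1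
  have hlog : 1 ≤ Real.log L := by
    rw [Real.le_log_iff_exp_le hpos]; exact hL1
  rw [Real.norm_of_nonneg (by positivity), Real.norm_of_nonneg (by positivity)] at hL
  calc c * (1 + Real.log L) ^ r ≤ (c + 1) * (2 * Real.log L) ^ r := by
        apply mul_le_mul (by linarith) _ (by positivity) (by positivity)
        exact Real.rpow_le_rpow (by positivity) (by linarith) hr
    _ = (c + 1) * 2 ^ r * Real.log L ^ r := by
        rw [Real.mul_rpow (by norm_num) (by linarith)]; ring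
    _ ≤ (c + 1) * 2 ^ r * (1 / ((c + 1) * 2 ^ r) * L ^ k) :=
        mul_le_mul_of_nonneg_left hL (by positivity)
    _ = L ^ k := by
        field_simp

noncomputable def fin_y (A : ℕ) (L : ℝ) : ℕ := ⌈L ^ (4 * (A + 3))⌉₊
noncomputable def fin_K (L : ℝ) : ℕ := ⌊Real.exp (L ^ (1 / 2 : ℝ))⌋₊
noncomputable def fin_z (D L : ℝ) : ℕ := ⌊Real.exp (L / (D * (1 + Real.log L)))⌋₊
noncomputable def fin_S (L : ℝ) : ℕ := ⌊Real.exp (L ^ (1 / 4 : ℝ))⌋₊
noncomputable def fin_R (L : ℝ) : ℕ := Nat.log 2 ⌊L ^ (1 / 4 : ℝ)⌋₊ - 1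

theorem fin_y_ge (A : ℕ) (L : ℝ) : L ^ (4 * (A + 3)) ≤ (fin_y A L : ℝ) := Nat.le_ceil _

theorem fin_y_le (A : ℕ) {L : ℝ} (hL : 1 ≤ L) : (fin_y A L : ℝ) ≤ 2 * L ^ (4 * (A + 3)) := by
  have h1 : (1 : ℝ) ≤ L ^ (4 * (A + 3)) := one_le_pow₀ hL
  have := (Nat.ceil_lt_add_one (by linarith : (0 : ℝ) ≤ L ^ (4 * (A + 3)))).le
  unfold fin_y
  linarith

theorem fin_y_pos (A : ℕ) {L : ℝ} (hL : 1 ≤ L) : 1 ≤ fin_y A L := by
  have h1 : (1 : ℝ) ≤ L ^ (4 * (A + 3)) := one_le_pow₀ hL
  have := h1.trans (fin_y_ge A L)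
  exact_mod_cast this

theorem fin_logy (A : ℕ) {L : ℝ} (hL : 1 ≤ L) :
    1 + Real.log (fin_y A L) ≤ (4 * (A + 3)) * (1 + Real.log L) := by
  have hpos : (0 : ℝ) < fin_y A L := by exact_mod_cast fin_y_pos A hL
  have h1 : Real.log (fin_y A L) ≤ Real.log (2 * L ^ (4 * (A + 3))) :=
    Real.log_le_log hpos (fin_y_le A hL)
  rw [Real.log_mul (by norm_num) (by positivity), Real.log_pow] at h1
  have h2 : Real.log 2 ≤ 1 := by
    have := Real.log_two_lt_d9; linarith
  have h3 : 0 ≤ Real.log L := Real.log_nonneg hL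
  have hA : (0 : ℝ) ≤ A := Nat.cast_nonneg A
  push_cast at h1
  nlinarith

theorem fin_logy_nonneg (A : ℕ) {L : ℝ} (hL : 1 ≤ L) : 0 ≤ Real.log (fin_y A L) :=
  Real.log_nonneg (by exact_mod_cast fin_y_pos A hL)

/-- floor of a large exponential -/
theorem fin_floor {t : ℝ} (ht : 0 ≤ t) : Real.exp t / 2 ≤ (⌊Real.exp t⌋₊ : ℝ) := by
  have h1 : 1 ≤ Real.exp t := Real.one_le_exp ht
  have h2 : (1 : ℝ) ≤ (⌊Real.exp t⌋₊ : ℝ) := by
    exact_mod_cast (Nat.one_le_floor_iff _).2 h1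
  have h3 := (Nat.lt_floor_add_one (Real.exp t)).le
  linarith

theorem fin_logfloor {t : ℝ} (ht : 0 ≤ t) : t - Real.log 2 ≤ Real.log (⌊Real.exp t⌋₊ : ℝ) := by
  have h := fin_floor ht
  have h0 : (0 : ℝ) < Real.exp t / 2 := by positivity
  have := Real.log_le_log h0 h
  rwa [Real.log_div (Real.exp_pos t).ne' (by norm_num), Real.log_exp] at this

theorem fin_floor_pos {t : ℝ} (ht : 0 ≤ t) : 1 ≤ ⌊Real.exp t⌋₊ :=
  (Nat.one_le_floor_iff _).2 (Real.one_le_exp ht)

theorem fin_logfloor_le {t : ℝ} (ht : 0 ≤ t) : Real.log (⌊Real.exp t⌋₊ : ℝ) ≤ t := by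
  have h1 : (⌊Real.exp t⌋₊ : ℝ) ≤ Real.exp t := Nat.floor_le (Real.exp_pos t).le
  have h2 : (0 : ℝ) < (⌊Real.exp t⌋₊ : ℝ) := by exact_mod_cast fin_floor_pos ht
  have := Real.log_le_log h2 h1
  rwa [Real.log_exp] at this

/-! ## The terms -/

/-- the z-smooth term -/
theorem fin_T1 (C : ℝ) (hC : 0 < C) (A : ℕ) :
    ∀ᶠ L : ℝ in Filter.atTop, ∀ s : ℝ, L / 2 - Real.log 2 ≤ Real.log s → 0 < s →
      (1 + Real.log (fin_z (8 * (C + A) + 2) L)) ^ C *
        s ^ (-(1 / (1 + Real.log (fin_z (8 * (C + A) + 2) L)))) ≤ 1 / L ^ A := by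
  set D : ℝ := 8 * (C + A) + 2 with hD
  have hA : (0 : ℝ) ≤ A := Nat.cast_nonneg A
  have hDpos : 2 ≤ D := by rw [hD]; nlinarith
  filter_upwards [fin_polylog D 1 1 (by linarith) (by norm_num) one_pos,
    Filter.eventually_ge_atTop (4 : ℝ)] with L hL1 hL4 s hs hs0
  rw [Real.rpow_one, Real.rpow_one] at hL1
  have hlog : 0 ≤ Real.log L := Real.log_nonneg (by linarith)
  have hden : 0 < D * (1 + Real.log L) := by positivity
  set t : ℝ := L / (D * (1 + Real.log L)) with ht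
  have ht1 : 1 ≤ t := by rw [ht, le_div_iff₀ hden]; linarith
  have hz1 : Real.log (fin_z D L) ≤ t := fin_logfloor_le (by linarith)
  have hz0 : 0 ≤ Real.log (fin_z D L) :=
    Real.log_nonneg (by exact_mod_cast fin_floor_pos (t := t) (by linarith))
  set w : ℝ := 1 + Real.log (fin_z D L) with hw
  have hw1 : 1 ≤ w := by linarith
  have hw2 : w ≤ 2 * t := by linarith
  have htL : 2 * t ≤ L := by
    have h3 : t ≤ L / 2 := by
      rw [ht]
      apply div_le_div_of_nonneg_left (by linarith) (by norm_num)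
      nlinarith
    linarith
  have hlog2 : Real.log 2 ≤ 1 := by have := Real.log_two_lt_d9; linarith
  have hs2 : L / 4 ≤ Real.log s := by linarith
  have hLpos : 0 < L := by linarith
  -- s ^ (-1/w) ≤ exp(-D(1+log L)/8)
  have h1 : s ^ (-(1 / w)) ≤ Real.exp (-(D / 8 * Real.log L)) := by
    rw [Real.rpow_def_of_pos hs0]
    apply Real.exp_le_exp.2
    have h2 : D * (1 + Real.log L) / 8 ≤ Real.log s / w := by
      rw [div_le_div_iff₀ (by norm_num) (by linarith)]
      have h3 : D * (1 + Real.log L) * w ≤ D * (1 + Real.log L) * (2 * t) :=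
        mul_le_mul_of_nonneg_left hw2 hden.le
      have h4 : D * (1 + Real.log L) * (2 * t) = 2 * L := by
        rw [ht]; field_simp
      linarith
    have h5 : D / 8 * Real.log L ≤ D * (1 + Real.log L) / 8 := by
      have : 0 ≤ D / 8 := by linarith
      nlinarith
    have h6 : Real.log s * -(1 / w) = -(Real.log s / w) := by ring
    rw [h6]; linarith
  have h2 : w ^ C ≤ Real.exp (C * Real.log L) := by
    rw [Real.rpow_def_of_pos (by linarith)]
    apply Real.exp_le_exp.2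
    have : Real.log w ≤ Real.log L := Real.log_le_log (by linarith) (by linarith)
    nlinarith
  calc w ^ C * s ^ (-(1 / w)) ≤ Real.exp (C * Real.log L) * Real.exp (-(D / 8 * Real.log L)) :=
        mul_le_mul h2 h1 (by positivity) (by positivity)
    _ = Real.exp ((C - D / 8) * Real.log L) := by rw [← Real.exp_add]; ring_nf
    _ ≤ Real.exp (-(A * Real.log L)) := by
        apply Real.exp_le_exp.2
        have : C - D / 8 ≤ -A := by rw [hD]; linarith
        nlinarith
    _ = 1 / L ^ A := by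
        rw [Real.exp_neg, ← Real.log_pow, Real.exp_log (by positivity), one_div]

theorem fin_T2 (A : ℕ) {L : ℝ} (hL : 1 ≤ L) :
    (1 + L) ^ 2 * (fin_y A L : ℝ) ^ (-(1 / 4) : ℝ) ≤ 4 / L ^ A := by
  have hLpos : 0 < L := by linarith
  have h1 : (fin_y A L : ℝ) ^ (-(1 / 4) : ℝ) ≤ 1 / L ^ (A + 3) := by
    have h2 : (L ^ (4 * (A + 3)) : ℝ) ^ (-(1 / 4) : ℝ) = 1 / L ^ (A + 3) := by
      have h3 : (1 : ℝ) / L ^ (A + 3) = L ^ (-((A + 3 : ℕ) : ℝ)) := by
        rw [Real.rpow_neg hLpos.le, Real.rpow_natCast, one_div]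
      rw [h3, ← Real.rpow_natCast L (4 * (A + 3)), ← Real.rpow_mul hLpos.le]
      have h4 : ((4 * (A + 3) : ℕ) : ℝ) * (-(1 / 4)) = -((A + 3 : ℕ) : ℝ) := by
        push_cast
        ring
      rw [h4]
    rw [← h2]
    exact Real.rpow_le_rpow_of_nonpos (by positivity) (fin_y_ge A L) (by norm_num)
  calc (1 + L) ^ 2 * (fin_y A L : ℝ) ^ (-(1 / 4) : ℝ) ≤ (2 * L) ^ 2 * (1 / L ^ (A + 3)) := by
        apply mul_le_mul _ h1 (by positivity) (by positivity)
        apply pow_le_pow_left₀ (by linarith) (by linarith)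
    _ = 4 / (L ^ A * L) := by
        field_simp
        ring
    _ ≤ 4 / L ^ A := by
        apply div_le_div_of_nonneg_left (by norm_num) (by positivity)
        exact le_mul_of_one_le_right (by positivity) hL

theorem fin_T3 (A : ℕ) (D : ℝ) (hD : 0 < D) :
    ∀ᶠ L : ℝ in Filter.atTop,
      ((fin_K L : ℝ) ^ 2 * (fin_y A L : ℝ) ^ 2) / (fin_z D L : ℝ) ≤ 1 / L ^ A := by
  filter_upwards [fin_polylog (3 * D) 1 (1 / 2) (by positivity) (by norm_num) (by norm_num),
    fin_polylog (8 * (A + 3) + A + 8) 1 (1 / 2) (by positivity) (by norm_num) (by norm_num),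
    Filter.eventually_ge_atTop (1 : ℝ)] with L h1 h2 hL
  rw [Real.rpow_one] at h1 h2
  have hLpos : 0 < L := by linarith
  have hlog : 0 ≤ Real.log L := Real.log_nonneg hL
  set r : ℝ := L ^ (1 / 2 : ℝ) with hr
  have hr0 : 0 < r := by positivity
  have hrr : r * r = L := by
    rw [hr, ← Real.rpow_add hLpos]; norm_num
  have hden : 0 < D * (1 + Real.log L) := by positivity
  have ht : 3 * r ≤ L / (D * (1 + Real.log L)) := by
    rw [le_div_iff₀ hden]
    calc 3 * r * (D * (1 + Real.log L)) = r * (3 * D * (1 + Real.log L)) := by ring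
      _ ≤ r * r := mul_le_mul_of_nonneg_left h1 hr0.le
      _ = L := hrr
  have hz : Real.exp (3 * r) / 2 ≤ (fin_z D L : ℝ) := by
    have h3 := fin_floor (t := L / (D * (1 + Real.log L))) (by positivity)
    have h4 := Real.exp_le_exp.2 ht
    unfold fin_z
    linarith
  have hK : (fin_K L : ℝ) ≤ Real.exp r := Nat.floor_le (Real.exp_pos _).le
  have hy := fin_y_le A hL
  have hzpos : 0 < (fin_z D L : ℝ) := lt_of_lt_of_le (by positivity) hz
  rw [div_le_iff₀ hzpos]
  have h5 : (fin_K L : ℝ) ^ 2 * (fin_y A L : ℝ) ^ 2 ≤ Real.exp r ^ 2 * (2 * L ^ (4 * (A + 3))) ^ 2 := by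
    apply mul_le_mul (pow_le_pow_left₀ (by positivity) hK 2) (pow_le_pow_left₀ (by positivity) hy 2)
      (by positivity) (by positivity)
  have h6 : Real.exp r ^ 2 * (2 * L ^ (4 * (A + 3))) ^ 2 ≤ 1 / L ^ A * (Real.exp (3 * r) / 2) := by
    have h7 : 8 * L ^ (8 * (A + 3) + A) ≤ Real.exp r := by
      have h8 : (8 : ℝ) ≤ Real.exp 8 := by
        have := Real.add_one_le_exp (8 : ℝ); linarith
      have h9 : L ^ (8 * (A + 3) + A) = Real.exp ((8 * (A + 3) + A : ℝ) * Real.log L) := by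
        rw [← Real.exp_log (x := L ^ (8 * (A + 3) + A)) (by positivity), Real.log_pow]
        push_cast
        ring_nf
      rw [h9]
      calc 8 * Real.exp ((8 * (A + 3) + A : ℝ) * Real.log L)
          ≤ Real.exp 8 * Real.exp ((8 * (A + 3) + A : ℝ) * Real.log L) :=
            mul_le_mul_of_nonneg_right h8 (Real.exp_pos _).le
        _ = Real.exp (8 + (8 * (A + 3) + A : ℝ) * Real.log L) := by rw [Real.exp_add]
        _ ≤ Real.exp r := by
            apply Real.exp_le_exp.2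
            have hA : (0 : ℝ) ≤ A := Nat.cast_nonneg A
            nlinarith
    have h10 : Real.exp (3 * r) = Real.exp r ^ 2 * Real.exp r := by
      rw [← Real.exp_nat_mul, ← Real.exp_add]; push_cast; ring_nf
    rw [h10, one_div, ← div_eq_inv_mul, le_div_iff₀ (by positivity)]
    have h11 : 8 * L ^ (8 * (A + 3) + A) = 2 * ((2 * L ^ (4 * (A + 3))) ^ 2 * L ^ A) := by
      have : L ^ (8 * (A + 3) + A) = (L ^ (4 * (A + 3))) ^ 2 * L ^ A := by
        rw [pow_add, ← pow_mul]; ring_nf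
      rw [this]; ring
    rw [h11] at h7
    have h12 : (0 : ℝ) < Real.exp r ^ 2 := by positivity
    nlinarith
  calc (fin_K L : ℝ) ^ 2 * (fin_y A L : ℝ) ^ 2 ≤ 1 / L ^ A * (Real.exp (3 * r) / 2) := h5.trans h6
    _ ≤ 1 / L ^ A * (fin_z D L : ℝ) := mul_le_mul_of_nonneg_left hz (by positivity)

theorem fin_T4 (C : ℝ) (hC : 0 < C) (A : ℕ) :
    ∀ᶠ L : ℝ in Filter.atTop,
      (1 + Real.log (fin_y A L)) ^ C * (fin_S L : ℝ) ^ (-(1 / (1 + Real.log (fin_y A L)))) ≤
        1 / L ^ A := by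
  filter_upwards [fin_polylog ((4 * (A + 3)) ^ C) C 1 (by positivity) hC.le one_pos,
    fin_polylog (4 * (A + 3) * (2 * (A + 1))) 2 (1 / 4) (by positivity) (by norm_num) (by norm_num),
    fin_polylog 2 0 (1 / 4) (by norm_num) le_rfl (by norm_num),
    Filter.eventually_ge_atTop (1 : ℝ)] with L h1 h2 h3 hL
  rw [Real.rpow_one] at h1
  rw [Real.rpow_zero, mul_one] at h3
  rw [Real.rpow_two] at h2
  have hLpos : 0 < L := by linarith
  have hlog : 0 ≤ Real.log L := Real.log_nonneg hL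
  have hA : (0 : ℝ) ≤ A := Nat.cast_nonneg A
  set q : ℝ := L ^ (1 / 4 : ℝ) with hq
  have hq0 : 0 < q := by positivity
  set w : ℝ := 1 + Real.log (fin_y A L) with hw
  have hw1 : 1 ≤ w := by have := fin_logy_nonneg A hL; linarith
  have hw2 : w ≤ 4 * (A + 3) * (1 + Real.log L) := fin_logy A hL
  have hS : q - Real.log 2 ≤ Real.log (fin_S L) := fin_logfloor hq0.le
  have hlog2 : Real.log 2 ≤ 1 := by have := Real.log_two_lt_d9; linarith
  have hS2 : q / 2 ≤ Real.log (fin_S L) := by linarith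
  have hSpos : (0 : ℝ) < fin_S L := by exact_mod_cast fin_floor_pos hq0.le
  have h4 : w ^ C ≤ L := by
    calc w ^ C ≤ (4 * (A + 3) * (1 + Real.log L)) ^ C := Real.rpow_le_rpow (by linarith) hw2 hC.le
      _ = (4 * (A + 3)) ^ C * (1 + Real.log L) ^ C := Real.mul_rpow (by positivity) (by positivity)
      _ ≤ L := h1
  have h5 : (fin_S L : ℝ) ^ (-(1 / w)) ≤ 1 / L ^ (A + 1) := by
    rw [Real.rpow_def_of_pos hSpos]
    have h6 : (1 : ℝ) / L ^ (A + 1) = Real.exp (-((A + 1) * Real.log L)) := by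
      rw [Real.exp_neg]
      have : ((A : ℝ) + 1) * Real.log L = Real.log (L ^ (A + 1)) := by
        rw [Real.log_pow]; push_cast; ring
      rw [this, Real.exp_log (by positivity), one_div]
    rw [h6]
    apply Real.exp_le_exp.2
    have h7 : Real.log (fin_S L) * -(1 / w) = -(Real.log (fin_S L) / w) := by ring
    rw [h7]
    apply neg_le_neg
    rw [le_div_iff₀ (by linarith)]
    have h8 : (A + 1) * Real.log L * w ≤ (A + 1) * (1 + Real.log L) * (4 * (A + 3) * (1 + Real.log L)) := by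
      apply mul_le_mul _ hw2 (by linarith) (by positivity)
      apply mul_le_mul_of_nonneg_left (by linarith) (by positivity)
    have h9 : (A + 1) * (1 + Real.log L) * (4 * (A + 3) * (1 + Real.log L)) =
        (4 * (A + 3) * (2 * (A + 1)) * (1 + Real.log L) ^ 2) / 2 := by
      ring
    rw [h9] at h8
    linarith
  calc w ^ C * (fin_S L : ℝ) ^ (-(1 / w)) ≤ L * (1 / L ^ (A + 1)) :=
        mul_le_mul h4 h5 (by positivity) (by positivity)
    _ = 1 / L ^ A := by
        rw [pow_succ]; field_simp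

theorem fin_T5 (C : ℝ) (hC : 0 < C) (A : ℕ) :
    ∀ᶠ L : ℝ in Filter.atTop,
      (Real.exp 1 * (1 + Real.log (fin_y A L))) ^ (C * ((2 ^ (4 * (A + 2)) : ℕ) : ℝ)) /
        (((2 ^ (4 * (A + 2)) : ℕ) : ℝ)) ^ (fin_R L + 1) ≤ 1 / L ^ A := by
  set m : ℕ := 4 * (A + 2) with hm
  set E : ℝ := C * ((2 ^ m : ℕ) : ℝ) with hE
  have hE0 : 0 < E := by positivity
  filter_upwards [fin_polylog ((Real.exp 1 * (4 * (A + 3))) ^ E) E 1 (by positivity) hE0.le one_pos,
    fin_polylog ((2 : ℝ) ^ m) 0 1 (by positivity) le_rfl one_pos,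
    fin_polylog 2 0 (1 / 4) (by norm_num) le_rfl (by norm_num),
    Filter.eventually_ge_atTop (1 : ℝ)] with L h1 h2 h3 hL
  rw [Real.rpow_one] at h1
  rw [Real.rpow_zero, mul_one, Real.rpow_one] at h2
  rw [Real.rpow_zero, mul_one] at h3
  have hLpos : 0 < L := by linarith
  have hlog : 0 ≤ Real.log L := Real.log_nonneg hL
  set q : ℝ := L ^ (1 / 4 : ℝ) with hq
  have hq4 : q ^ 4 = L := by
    rw [hq, ← Real.rpow_natCast, ← Real.rpow_mul hLpos.le]; norm_num
  have hq0 : 0 < q := by positivity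
  set w : ℝ := 1 + Real.log (fin_y A L) with hw
  have hw1 : 1 ≤ w := by have := fin_logy_nonneg A hL; linarith
  have hw2 : w ≤ 4 * (A + 3) * (1 + Real.log L) := fin_logy A hL
  have h4 : (Real.exp 1 * w) ^ E ≤ L := by
    calc (Real.exp 1 * w) ^ E ≤ (Real.exp 1 * (4 * (A + 3)) * (1 + Real.log L)) ^ E := by
          apply Real.rpow_le_rpow (by positivity) _ hE0.le
          rw [mul_assoc]
          exact mul_le_mul_of_nonneg_left hw2 (Real.exp_pos 1).le
      _ = (Real.exp 1 * (4 * (A + 3))) ^ E * (1 + Real.log L) ^ E :=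
          Real.mul_rpow (by positivity) (by positivity)
      _ ≤ L := h1
  -- the power of `M`
  have hfl : 2 ≤ ⌊q⌋₊ := Nat.le_floor (by exact_mod_cast h3)
  have hR : q ≤ 2 * 2 ^ (fin_R L + 1) := by
    have h5 : 1 ≤ Nat.log 2 ⌊q⌋₊ := Nat.log_pos (by norm_num) hfl
    have h6 : fin_R L + 1 = Nat.log 2 ⌊q⌋₊ := by unfold fin_R; rw [← hq]; omega
    rw [h6]
    have h7 : ⌊q⌋₊ < 2 ^ (Nat.log 2 ⌊q⌋₊ + 1) := Nat.lt_pow_succ_log_self (by norm_num) _
    have h8 : ((⌊q⌋₊ + 1 : ℕ) : ℝ) ≤ ((2 ^ (Nat.log 2 ⌊q⌋₊ + 1) : ℕ) : ℝ) := by exact_mod_cast h7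
    push_cast at h8
    have h9 := (Nat.lt_floor_add_one q).le
    rw [pow_succ] at h8
    linarith
  have hM : L ^ (A + 2) / 2 ^ m ≤ (((2 ^ m : ℕ) : ℝ)) ^ (fin_R L + 1) := by
    have h10 : (((2 ^ m : ℕ) : ℝ)) ^ (fin_R L + 1) = ((2 : ℝ) ^ (fin_R L + 1)) ^ m := by
      push_cast
      rw [← pow_mul, ← pow_mul, mul_comm]
    rw [h10, div_le_iff₀ (by positivity), ← mul_pow]
    have h11 : L ^ (A + 2) = q ^ m := by
      rw [← hq4, ← pow_mul, hm]
    rw [h11]
    apply pow_le_pow_left₀ hq0.le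
    linarith
  have hM2 : L ^ (A + 1) ≤ (((2 ^ m : ℕ) : ℝ)) ^ (fin_R L + 1) := by
    refine le_trans ?_ hM
    rw [le_div_iff₀ (by positivity)]
    calc L ^ (A + 1) * 2 ^ m ≤ L ^ (A + 1) * L := mul_le_mul_of_nonneg_left h2 (by positivity)
      _ = L ^ (A + 2) := by rw [← pow_succ]
  calc (Real.exp 1 * w) ^ E / (((2 ^ m : ℕ) : ℝ)) ^ (fin_R L + 1) ≤ L / L ^ (A + 1) :=
        div_le_div₀ hLpos.le h4 (by positivity) hM2
    _ = 1 / L ^ A := by
        rw [pow_succ]; field_simp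

/-! ## Side conditions -/

theorem fin_RK {L : ℝ} (hL : 16 ≤ L) : fin_S L ^ 2 ^ (fin_R L + 1) ≤ fin_K L := by
  have hLpos : 0 < L := by linarith
  set q : ℝ := L ^ (1 / 4 : ℝ) with hq
  have hq4 : q ^ 4 = L := by
    rw [hq, ← Real.rpow_natCast, ← Real.rpow_mul hLpos.le]; norm_num
  have hq2 : q * q = L ^ (1 / 2 : ℝ) := by
    rw [hq, ← Real.rpow_add hLpos]; norm_num
  have hq0 : 0 < q := by positivity
  have hq1 : 2 ≤ q := by
    by_contra hcon
    push Not at hcon
    have : q ^ 4 < 2 ^ 4 := pow_lt_pow_left₀ hcon hq0.le (by norm_num)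
    rw [hq4] at this
    linarith
  have hfl : 2 ≤ ⌊q⌋₊ := Nat.le_floor (by exact_mod_cast hq1)
  have h5 : 1 ≤ Nat.log 2 ⌊q⌋₊ := Nat.log_pos (by norm_num) hfl
  have h6 : fin_R L + 1 = Nat.log 2 ⌊q⌋₊ := by unfold fin_R; rw [← hq]; omega
  have h7 : (2 : ℕ) ^ (fin_R L + 1) ≤ ⌊q⌋₊ := by
    rw [h6]; exact Nat.pow_log_le_self 2 (by omega)
  have h8 : ((2 ^ (fin_R L + 1) : ℕ) : ℝ) ≤ q :=
    le_trans (by exact_mod_cast h7) (Nat.floor_le hq0.le)
  apply Nat.le_floor
  rw [Nat.cast_pow]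
  calc (fin_S L : ℝ) ^ (2 ^ (fin_R L + 1)) ≤ Real.exp q ^ (2 ^ (fin_R L + 1)) :=
        pow_le_pow_left₀ (by positivity) (Nat.floor_le (Real.exp_pos _).le) _
    _ = Real.exp (((2 ^ (fin_R L + 1) : ℕ) : ℝ) * q) := by rw [← Real.exp_nat_mul]
    _ ≤ Real.exp (L ^ (1 / 2 : ℝ)) := by
        apply Real.exp_le_exp.2
        rw [← hq2]
        exact mul_le_mul_of_nonneg_right h8 hq0.le

theorem fin_z_ge (D : ℝ) (hD : 0 < D) : ∀ᶠ L : ℝ in Filter.atTop, 5 ≤ fin_z D L := by
  filter_upwards [fin_polylog (5 * D) 1 1 (by positivity) (by norm_num) one_pos,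
    Filter.eventually_ge_atTop (1 : ℝ)] with L h1 hL
  rw [Real.rpow_one, Real.rpow_one] at h1
  have hlog : 0 ≤ Real.log L := Real.log_nonneg hL
  have hden : 0 < D * (1 + Real.log L) := by positivity
  apply Nat.le_floor
  have h2 : 5 ≤ L / (D * (1 + Real.log L)) := by
    rw [le_div_iff₀ hden]; linarith
  have h3 := Real.add_one_le_exp (L / (D * (1 + Real.log L)))
  push_cast
  linarith

/-- `sqrt N ≤ N / L ^ A` -/
theorem fin_T0 (A : ℕ) : ∀ᶠ N : ℕ in Filter.atTop,
    (Nat.sqrt N : ℝ) ≤ N / (Real.log N) ^ A := by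
  have h := ((isLittleO_log_rpow_rpow_atTop (A : ℝ) (by norm_num : (0 : ℝ) < 1 / 2)).def
    one_pos)
  have h' := tendsto_natCast_atTop_atTop (R := ℝ) |>.eventually h
  filter_upwards [h', Filter.eventually_ge_atTop 3] with N hN hN3
  have hNpos : (0 : ℝ) < N := by exact_mod_cast (by omega : 0 < N)
  have hlog : 0 < Real.log N := Real.log_pos (by exact_mod_cast (by omega : 1 < N))
  rw [Real.norm_of_nonneg (by positivity), Real.norm_of_nonneg (by positivity), one_mul,
    Real.rpow_natCast] at hN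
  rw [le_div_iff₀ (by positivity)]
  have h1 : (Nat.sqrt N : ℝ) ≤ (N : ℝ) ^ (1 / 2 : ℝ) := by
    rw [← Real.sqrt_eq_rpow]
    exact Real.nat_sqrt_le_real_sqrt
  calc (Nat.sqrt N : ℝ) * Real.log N ^ A ≤ (N : ℝ) ^ (1 / 2 : ℝ) * (N : ℝ) ^ (1 / 2 : ℝ) :=
        mul_le_mul h1 hN (by positivity) (by positivity)
    _ = N := by rw [← Real.rpow_add hNpos]; norm_num

theorem fin_smooth {u z : ℕ} (hu : 1 ≤ u) (h : ∀ p : ℕ, p.Prime → p ∣ u → p ≤ z) :
    smoothPart z u = u := by
  unfold smoothPart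
  rw [Finset.filter_true_of_mem]
  · exact Nat.prod_factorization_pow_eq_self (by omega : u ≠ 0)
  · intro p hp
    exact h p (Nat.prime_of_mem_primeFactors hp) (Nat.dvd_of_mem_primeFactors hp)

theorem fin_sqrt {N : ℕ} (hN : 1 ≤ N) :
    Real.log N / 2 - Real.log 2 ≤ Real.log (Nat.sqrt N : ℝ) ∧ (0 : ℝ) < Nat.sqrt N := by
  have h1 : 1 ≤ Nat.sqrt N := Nat.sqrt_pos.2 hN
  have h1' : (1 : ℝ) ≤ Nat.sqrt N := by exact_mod_cast h1
  have h2 : N < (Nat.sqrt N + 1) * (Nat.sqrt N + 1) := Nat.lt_succ_sqrt N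
  have h3 : (N : ℝ) ≤ (2 * Nat.sqrt N) ^ 2 := by
    have h4 : (N : ℝ) < (Nat.sqrt N + 1) * (Nat.sqrt N + 1) := by exact_mod_cast h2
    nlinarith
  have hNpos : (0 : ℝ) < N := by exact_mod_cast hN
  have h5 := Real.log_le_log hNpos h3
  rw [Real.log_pow, Real.log_mul (by norm_num) (by positivity)] at h5
  push_cast at h5
  exact ⟨by linarith, by linarith⟩

/-! ## Assembly -/

theorem fin_event (A : ℕ) : ∃ C : ℝ, 0 < C ∧ ∀ᶠ N : ℕ in Filter.atTop,
    (((Icc 1 N).filter fun u => Exc u).card : ℝ) ≤ C * (N / (Real.log N) ^ A) := by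
  obtain ⟨C1, hC1, h1⟩ := card_smoothPart
  obtain ⟨C2, hC2, h2⟩ := card_omegaY
  obtain ⟨C3, hC3, h3⟩ := card_wie
  refine ⟨2 * C1 + 4 * C3 + 3, by positivity, ?_⟩
  set D : ℝ := 8 * (C1 + A) + 2 with hD
  have hDpos : 0 < D := by positivity
  have hlim : Filter.Tendsto (fun N : ℕ => Real.log (N : ℝ)) Filter.atTop Filter.atTop :=
    Real.tendsto_log_atTop.comp tendsto_natCast_atTop_atTop
  filter_upwards [hlim.eventually (fin_T1 C1 hC1 A), hlim.eventually (fin_T3 A D hDpos),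
    hlim.eventually (fin_T4 C1 hC1 A), hlim.eventually (fin_T5 C2 hC2 A),
    hlim.eventually (fin_z_ge D hDpos), fin_T0 A,
    hlim.eventually (Filter.eventually_ge_atTop (16 : ℝ)),
    Filter.eventually_ge_atTop 3] with N t1 t3 t4 t5 hz5 t0 hL16 hN3
  set L : ℝ := Real.log N with hL
  have hL1 : 1 ≤ L := by linarith
  have hLpos : 0 < L := by linarith
  have hNpos : (0 : ℝ) < N := by exact_mod_cast (by omega : 0 < N)
  have t2 := fin_T2 A hL1
  set y := fin_y A L with hy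
  set K := fin_K L with hK
  set z := fin_z D L with hz
  set S := fin_S L with hS
  set R := fin_R L with hR
  have hy1 : 1 ≤ y := fin_y_pos A hL1
  have hS1 : 1 ≤ S := fin_floor_pos (by positivity)
  set M : ℕ := 2 ^ (4 * (A + 2)) with hM
  have hM1 : 1 ≤ M := Nat.one_le_two_pow
  have hsq := fin_sqrt (N := N) (by omega)
  -- the sets
  set E0 := (Icc 1 N).filter fun u => u ≤ Nat.sqrt N with hE0
  set E1 := (Icc 1 N).filter fun u => Nat.sqrt N < smoothPart z u with hE1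
  set E2 := (Icc 1 N).filter fun u => ∃ P q : ℕ, P.Prime ∧ 3 ≤ P ∧ Bad P q ∧ y < q ∧ q < P ∧
      P ∣ u ∧ q ∣ u with hE2
  set E3 := (Icc 1 N).filter fun u => ∃ P q i : ℕ, P.Prime ∧ z < P ∧ P ∣ u ∧ q.Prime ∧ q ≤ y ∧
      1 ≤ i ∧ i ≤ K ∧ P ∣ q ^ i - 1 with hE3
  set E4 := (Icc 1 N).filter fun u => S < smoothPart y u with hE4
  set E5 := (Icc 1 N).filter fun u => R + 1 ≤ omegaY y u with hE5
  have hsub : ((Icc 1 N).filter fun u => Exc u) ⊆ E0 ∪ E1 ∪ E2 ∪ E3 ∪ E4 ∪ E5 := by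
    intro u hu
    rw [mem_filter] at hu
    obtain ⟨huN, hex⟩ := hu
    have hu1 : 1 ≤ u := (mem_Icc.1 huN).1
    simp only [mem_union]
    rcases exc_split u y z K S R hu1 hex hz5 (fin_RK hL16) with h | h | h | h | h
    · by_cases hus : u ≤ Nat.sqrt N
      · exact Or.inl (Or.inl (Or.inl (Or.inl (Or.inl (mem_filter.2 ⟨huN, hus⟩)))))
      · refine Or.inl (Or.inl (Or.inl (Or.inl (Or.inr (mem_filter.2 ⟨huN, ?_⟩)))))
        rw [fin_smooth hu1 h]
        omega
    · exact Or.inl (Or.inl (Or.inl (Or.inr (mem_filter.2 ⟨huN, h⟩))))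
    · exact Or.inl (Or.inl (Or.inr (mem_filter.2 ⟨huN, h⟩)))
    · exact Or.inl (Or.inr (mem_filter.2 ⟨huN, h⟩))
    · exact Or.inr (mem_filter.2 ⟨huN, h⟩)
  have hcard : ((((Icc 1 N).filter fun u => Exc u).card : ℕ) : ℝ) ≤
      E0.card + E1.card + E2.card + E3.card + E4.card + E5.card := by
    have h := (card_le_card hsub)
    have h' : (E0 ∪ E1 ∪ E2 ∪ E3 ∪ E4 ∪ E5).card ≤
        E0.card + E1.card + E2.card + E3.card + E4.card + E5.card := by
      refine (card_union_le _ _).trans (Nat.add_le_add_right ?_ _)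
      refine (card_union_le _ _).trans (Nat.add_le_add_right ?_ _)
      refine (card_union_le _ _).trans (Nat.add_le_add_right ?_ _)
      refine (card_union_le _ _).trans (Nat.add_le_add_right ?_ _)
      exact card_union_le _ _
    exact_mod_cast h.trans h'
  have b0 : (E0.card : ℝ) ≤ N / L ^ A := by
    have : E0 ⊆ Icc 1 (Nat.sqrt N) := by
      intro u hu
      rw [hE0, mem_filter] at hu
      exact mem_Icc.2 ⟨(mem_Icc.1 hu.1).1, hu.2⟩
    have h := card_le_card this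
    rw [Nat.card_Icc] at h
    have h' : (E0.card : ℝ) ≤ Nat.sqrt N := by exact_mod_cast (by omega : E0.card ≤ Nat.sqrt N)
    exact h'.trans t0
  have b1 : (E1.card : ℝ) ≤ C1 * (N / L ^ A) := by
    have h := h1 N z (Nat.sqrt N) (by omega) (Nat.sqrt_pos.2 (by omega))
    have t := t1 (Nat.sqrt N) hsq.1 hsq.2
    calc (E1.card : ℝ) ≤ C1 * N * (1 + Real.log z) ^ C1 *
          (Nat.sqrt N : ℝ) ^ (-(1 / (1 + Real.log z))) := h
      _ = C1 * N * ((1 + Real.log z) ^ C1 *
          (Nat.sqrt N : ℝ) ^ (-(1 / (1 + Real.log z)))) := by ring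
      _ ≤ C1 * N * (1 / L ^ A) := mul_le_mul_of_nonneg_left t (by positivity)
      _ = C1 * (N / L ^ A) := by ring
  have b2 : (E2.card : ℝ) ≤ 4 * C3 * (N / L ^ A) := by
    have h := h3 N y hy1
    calc (E2.card : ℝ) ≤ C3 * N * (1 + Real.log N) ^ 2 * (y : ℝ) ^ (-(1 / 4) : ℝ) := h
      _ = C3 * N * ((1 + L) ^ 2 * (y : ℝ) ^ (-(1 / 4) : ℝ)) := by rw [hL]; ring
      _ ≤ C3 * N * (4 / L ^ A) := mul_le_mul_of_nonneg_left t2 (by positivity)
      _ = 4 * C3 * (N / L ^ A) := by ring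
  have b3 : (E3.card : ℝ) ≤ N / L ^ A := by
    have h := card_ord N y z K (by omega)
    calc (E3.card : ℝ) ≤ N * ((K : ℝ) ^ 2 * (y : ℝ) ^ 2) / z := h
      _ = N * (((K : ℝ) ^ 2 * (y : ℝ) ^ 2) / z) := by ring
      _ ≤ N * (1 / L ^ A) := mul_le_mul_of_nonneg_left t3 (by positivity)
      _ = N / L ^ A := by ring
  have b4 : (E4.card : ℝ) ≤ C1 * (N / L ^ A) := by
    have h := h1 N y S hy1 hS1
    calc (E4.card : ℝ) ≤ C1 * N * (1 + Real.log y) ^ C1 *
          (S : ℝ) ^ (-(1 / (1 + Real.log y))) := h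
      _ = C1 * N * ((1 + Real.log y) ^ C1 *
          (S : ℝ) ^ (-(1 / (1 + Real.log y)))) := by ring
      _ ≤ C1 * N * (1 / L ^ A) := mul_le_mul_of_nonneg_left t4 (by positivity)
      _ = C1 * (N / L ^ A) := by ring
  have b5 : (E5.card : ℝ) ≤ N / L ^ A := by
    have h := h2 M N y (R + 1) hM1 hy1
    calc (E5.card : ℝ) ≤ N * (Real.exp 1 * (1 + Real.log y)) ^ (C2 * M) / (M : ℝ) ^ (R + 1) := h
      _ = N * ((Real.exp 1 * (1 + Real.log y)) ^ (C2 * M) / (M : ℝ) ^ (R + 1)) := by ring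
      _ ≤ N * (1 / L ^ A) := mul_le_mul_of_nonneg_left t5 (by positivity)
      _ = N / L ^ A := by ring
  calc ((((Icc 1 N).filter fun u => Exc u).card : ℕ) : ℝ) ≤
      E0.card + E1.card + E2.card + E3.card + E4.card + E5.card := hcard
    _ ≤ N / L ^ A + C1 * (N / L ^ A) + 4 * C3 * (N / L ^ A) + N / L ^ A + C1 * (N / L ^ A) +
        N / L ^ A := by linarith
    _ = (2 * C1 + 4 * C3 + 3) * (N / L ^ A) := by ring

theorem exc_count (A : ℕ) : ∃ C : ℝ, 0 < C ∧ ∀ N : ℕ, 2 ≤ N →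
    (((Icc 1 N).filter fun u => Exc u).card : ℝ) ≤ C * N / (Real.log N) ^ A := by
  obtain ⟨C, hC, h⟩ := fin_event A
  rw [Filter.eventually_atTop] at h
  obtain ⟨N0, hN0⟩ := h
  refine ⟨C + (Real.log (N0 + 2)) ^ A, ?_, ?_⟩
  · have : 0 ≤ Real.log ((N0 : ℝ) + 2) := Real.log_nonneg (by
      have : (0 : ℝ) ≤ N0 := Nat.cast_nonneg N0
      linarith)
    positivity
  intro N hN
  have hNpos : (0 : ℝ) < N := by exact_mod_cast (by omega : 0 < N)
  have hlog : 0 < Real.log N := Real.log_pos (by exact_mod_cast (by omega : 1 < N))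
  have hN0' : (0 : ℝ) ≤ N0 := Nat.cast_nonneg N0
  have hlog0 : 0 ≤ Real.log ((N0 : ℝ) + 2) := Real.log_nonneg (by linarith)
  rcases le_or_gt N0 N with h1 | h1
  · have h2 := hN0 N h1
    calc (((Icc 1 N).filter fun u => Exc u).card : ℝ) ≤ C * (N / (Real.log N) ^ A) := h2
      _ ≤ (C + (Real.log (N0 + 2)) ^ A) * (N / (Real.log N) ^ A) := by
          apply mul_le_mul_of_nonneg_right _ (by positivity)
          have : 0 ≤ (Real.log ((N0 : ℝ) + 2)) ^ A := by positivity
          linarith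
      _ = (C + (Real.log (N0 + 2)) ^ A) * N / (Real.log N) ^ A := by ring
  · have h2 : (((Icc 1 N).filter fun u => Exc u).card : ℝ) ≤ N := by
      have h3 := card_filter_le (Icc 1 N) (fun u => Exc u)
      rw [Nat.card_Icc] at h3
      exact_mod_cast (by omega : ((Icc 1 N).filter fun u => Exc u).card ≤ N)
    refine h2.trans ?_
    rw [le_div_iff₀ (by positivity)]
    have h4 : Real.log N ^ A ≤ Real.log ((N0 : ℝ) + 2) ^ A := by
      apply pow_le_pow_left₀ hlog.le
      apply Real.log_le_log hNpos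
      have : (N : ℝ) ≤ N0 := by exact_mod_cast h1.le
      linarith
    calc (N : ℝ) * Real.log N ^ A ≤ N * Real.log ((N0 : ℝ) + 2) ^ A :=
          mul_le_mul_of_nonneg_left h4 hNpos.le
      _ ≤ (C + (Real.log (N0 + 2)) ^ A) * N := by nlinarith

end

/-! ## BAR (CHM_BAR_helper97.lean) -/

section

open Finset Classical

/-- a sum of signs modulo 4 -/
theorem bar_mod4 {ι : Type*} (s : Finset ι) (t : ι → ℤ) (ht : ∀ i ∈ s, t i = 1 ∨ t i = -1) :
    (∏ i ∈ s, t i = 1 ∨ ∏ i ∈ s, t i = -1) ∧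
      (4 : ℤ) ∣ ∑ i ∈ s, t i - (s.card + ∏ i ∈ s, t i - 1) := by
  induction s using Finset.induction_on with
  | empty => simp
  | insert a s ha ih =>
    obtain ⟨h1, h2⟩ := ih (fun i hi => ht i (Finset.mem_insert_of_mem hi))
    rw [Finset.prod_insert ha, Finset.sum_insert ha, Finset.card_insert_of_notMem ha]
    push_cast
    have h3 := ht a (Finset.mem_insert_self a s)
    obtain ⟨k, hk⟩ := h2
    rcases h3 with h3 | h3 <;> rcases h1 with h1 | h1 <;> rw [h3, h1] <;> rw [h1] at hk <;>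
      refine ⟨by norm_num, ?_⟩
    · exact ⟨k, by linarith⟩
    · exact ⟨k, by linarith⟩
    · exact ⟨k, by linarith⟩
    · exact ⟨k - 1, by linarith⟩

/-- the periodic autocorrelation -/
theorem bar_split {v : ℕ} (b : ℕ → ℤ) {d : ℕ} (hd : d < v) :
    ∑ i ∈ range v, b i * b ((i + d) % v) =
      ∑ i ∈ range (v - d), b i * b (i + d) + ∑ i ∈ range (v - (v - d)), b i * b (i + (v - d)) := by
  have hv : v = (v - d) + d := by omega
  have h1 : ∑ i ∈ range v, b i * b ((i + d) % v) =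
      ∑ i ∈ range (v - d), b i * b ((i + d) % v) +
        ∑ i ∈ range d, b ((v - d) + i) * b (((v - d) + i + d) % v) := by
    conv_lhs => rw [show range v = range ((v - d) + d) by rw [← hv]]
    rw [Finset.sum_range_add]
  rw [h1]
  congr 1
  · apply Finset.sum_congr rfl
    intro i hi
    rw [Finset.mem_range] at hi
    rw [Nat.mod_eq_of_lt (by omega)]
  · rw [show v - (v - d) = d by omega]
    apply Finset.sum_congr rfl
    intro i hi
    rw [Finset.mem_range] at hi
    have h2 : ((v - d) + i + d) % v = i := by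
      rw [show (v - d) + i + d = i + v by omega, Nat.add_mod_right, Nat.mod_eq_of_lt (by omega)]
    rw [h2, mul_comm, add_comm]

theorem bar_parity {v : ℕ} {b : ℕ → ℤ} (hb : ∀ i < v, b i = 1 ∨ b i = -1) {d : ℕ}
    (hd : (v - d) % 2 = 0) (h : |∑ i ∈ range (v - d), b i * b (i + d)| ≤ 1) :
    ∑ i ∈ range (v - d), b i * b (i + d) = 0 := by
  have h1 := bar_mod4 (range (v - d)) (fun i => b i * b (i + d)) (by
    intro i hi
    rw [Finset.mem_range] at hi
    rcases hb i (by omega) with h1 | h1 <;> rcases hb (i + d) (by omega) with h2 | h2 <;>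
      rw [h1, h2] <;> norm_num)
  obtain ⟨h2, k, hk⟩ := h1
  rw [Finset.card_range] at hk
  have h3 := abs_le.1 h
  have h4 : ((v - d : ℕ) : ℤ) % 2 = 0 := by exact_mod_cast hd
  rcases h2 with h2 | h2 <;> rw [h2] at hk <;> omega

/-- the periodic autocorrelations of a Barker sequence of even length vanish -/
theorem bar_auto {v : ℕ} {b : ℕ → ℤ} (hb : IsBarker v b) (hv : Even v) (h4 : 4 ≤ v) :
    ∀ d, 1 ≤ d → d < v → ∑ i ∈ range v, b i * b ((i + d) % v) = 0 := by
  obtain ⟨hs, hc⟩ := hb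
  have hv2 : v % 2 = 0 := Nat.even_iff.1 hv
  -- congruence modulo 4
  have hmod : ∀ d, d < v → (4 : ℤ) ∣ ∑ i ∈ range v, b i * b ((i + d) % v) - v := by
    intro d hd
    have h1 := bar_mod4 (range v) (fun i => b i * b ((i + d) % v)) (by
      intro i hi
      rw [Finset.mem_range] at hi
      rcases hs i hi with h1 | h1 <;> rcases hs ((i + d) % v) (Nat.mod_lt _ (by omega)) with h2 | h2 <;>
        rw [h1, h2] <;> norm_num)
    have h2 : ∏ i ∈ range v, (b i * b ((i + d) % v)) = 1 := by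
      rw [Finset.prod_mul_distrib]
      have h3 : ∏ i ∈ range v, b ((i + d) % v) = ∏ i ∈ range v, b i := by
        have hv' : v = (v - d) + d := by omega
        have e1 : ∏ i ∈ range v, b ((i + d) % v) =
            (∏ i ∈ range (v - d), b ((i + d) % v)) *
              ∏ i ∈ range d, b (((v - d) + i + d) % v) := by
          conv_lhs => rw [show range v = range ((v - d) + d) by rw [← hv']]
          rw [Finset.prod_range_add]
        have e2 : ∏ i ∈ range v, b i = (∏ i ∈ range d, b i) * ∏ i ∈ range (v - d), b (d + i) := by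
          conv_lhs => rw [show range v = range (d + (v - d)) by rw [show d + (v - d) = v by omega]]
          rw [Finset.prod_range_add]
        rw [e1, e2, mul_comm]
        congr 1
        · apply Finset.prod_congr rfl
          intro i hi
          rw [Finset.mem_range] at hi
          rw [show (v - d) + i + d = i + v by omega, Nat.add_mod_right,
            Nat.mod_eq_of_lt (by omega)]
        · apply Finset.prod_congr rfl
          intro i hi
          rw [Finset.mem_range] at hi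
          rw [Nat.mod_eq_of_lt (by omega), add_comm]
      rw [h3, ← Finset.prod_mul_distrib]
      apply Finset.prod_eq_one
      intro i hi
      rw [Finset.mem_range] at hi
      rcases hs i hi with h1 | h1 <;> rw [h1] <;> norm_num
    obtain ⟨-, k, hk⟩ := h1
    rw [Finset.card_range] at hk
    exact ⟨k, by linarith [h2]⟩
  -- `v` is divisible by 4
  have hv4 : v % 4 = 0 := by
    by_contra hne
    have h1 := bar_split b (show 2 < v by omega)
    rw [bar_parity hs (show (v - 2) % 2 = 0 by omega) (hc 2 (by omega) (by omega)),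
      bar_parity hs (show (v - (v - 2)) % 2 = 0 by omega) (hc (v - 2) (by omega) (by omega))] at h1
    obtain ⟨k, hk⟩ := hmod 2 (by omega)
    rw [h1] at hk
    omega
  intro d hd1 hd
  have h1 := bar_split b hd
  have h2 := abs_le.1 (hc d hd1 hd)
  have h3 := abs_le.1 (hc (v - d) (by omega) (by omega))
  obtain ⟨k, hk⟩ := hmod d hd
  have hv4' : (v : ℤ) % 4 = 0 := by exact_mod_cast hv4
  omega

/-- BAR -/
theorem barker_chm {v : ℕ} {b : ℕ → ℤ} (hb : IsBarker v b) (hv : Even v) (h4 : 4 ≤ v) :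
    CHMOrder v := by
  have hauto := bar_auto hb hv h4
  refine ⟨fun i j => b ((j + (v - i)) % v), ?_, ?_, ?_⟩
  · intro i j
    exact hb.1 _ (Nat.mod_lt _ (by omega))
  · intro i i' hne
    have hne' : (i : ℕ) ≠ i' := fun h => hne (Fin.ext h)
    have hi := i.2
    have hi' := i'.2
    set d := (i + (v - i')) % v with hd
    have hdv : d < v := Nat.mod_lt _ (by omega)
    have hd1 : 1 ≤ d := by
      rw [Nat.one_le_iff_ne_zero, hd]
      intro h0
      have h1 := Nat.dvd_of_mod_eq_zero h0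
      obtain ⟨k, hk⟩ := h1
      rcases k with _ | _ | k
      · omega
      · omega
      · have : v * (k + 1 + 1) = v * k + v + v := by ring
        have h2 : 0 ≤ v * k := Nat.zero_le _
        omega
    rw [← hauto d hd1 hdv]
    have h1 : ∑ j : Fin v, b ((j + (v - i)) % v) * b ((j + (v - i')) % v) =
        ∑ j ∈ range v, b ((j + (v - i)) % v) * b ((j + (v - i')) % v) :=
      Fin.sum_univ_eq_sum_range (fun j => b ((j + (v - i)) % v) * b ((j + (v - i')) % v)) v
    rw [h1]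
    apply Finset.sum_nbij' (fun j => (j + (v - i)) % v) (fun k => (k + i) % v)
    · intro j _
      exact Finset.mem_range.2 (Nat.mod_lt _ (by omega))
    · intro k _
      exact Finset.mem_range.2 (Nat.mod_lt _ (by omega))
    · intro j hj
      rw [Finset.mem_range] at hj
      rw [Nat.mod_add_mod, show j + (v - i) + i = j + v by omega, Nat.add_mod_right,
        Nat.mod_eq_of_lt hj]
    · intro k hk
      rw [Finset.mem_range] at hk
      rw [Nat.mod_add_mod, show k + i + (v - i) = k + v by omega, Nat.add_mod_right,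
        Nat.mod_eq_of_lt hk]
    · intro j hj
      rw [Finset.mem_range] at hj
      congr 2
      rw [Nat.mod_add_mod, hd, Nat.add_mod_mod,
        show j + (v - i) + (i + (v - i')) = j + (v - i') + v by omega, Nat.add_mod_right]
  · intro i i' j j' hii hjj
    have hi := i.2
    have hi' := i'.2
    have hj := j.2
    congr 1
    rw [hii, hjj, Nat.mod_add_mod, show (j : ℕ) + 1 + (v - (i + 1)) = j + (v - i) by omega]

/-- the rows of a circulant matrix -/
theorem bar_row {v : ℕ} {H : Fin v → Fin v → ℤ} (hH : IsCirculantHadamard v H) (hv : 0 < v) :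
    ∀ (n : ℕ) (hn : n < v) (j : Fin v),
      H ⟨n, hn⟩ j = H ⟨0, hv⟩ ⟨(j + (v - n)) % v, Nat.mod_lt _ hv⟩ := by
  intro n
  induction n with
  | zero =>
    intro hn j
    congr 1
    apply Fin.ext
    simp only [Nat.sub_zero, Nat.add_mod_right]
    exact (Nat.mod_eq_of_lt j.2).symm
  | succ n ih =>
    intro hn j
    have hj := j.2
    have h1 := hH.circ ⟨n, by omega⟩ ⟨n + 1, hn⟩ ⟨(j + (v - 1)) % v, Nat.mod_lt _ hv⟩ j rfl (by
      simp only
      rw [Nat.mod_add_mod, show (j : ℕ) + (v - 1) + 1 = j + v by omega, Nat.add_mod_right,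
        Nat.mod_eq_of_lt hj])
    rw [h1, ih (by omega)]
    congr 1
    apply Fin.ext
    simp only
    rw [Nat.mod_add_mod, show (j : ℕ) + (v - 1) + (v - n) = j + (v - (n + 1)) + v by omega,
      Nat.add_mod_right]

/-- all column sums are equal -/
theorem bar_col {v : ℕ} {H : Fin v → Fin v → ℤ} (hH : IsCirculantHadamard v H) (hv : 0 < v)
    (j : Fin v) : ∑ i, H i j = ∑ k, H ⟨0, hv⟩ k := by
  have hj := j.2
  have h1 : ∀ i : Fin v, H i j = H ⟨0, hv⟩ ⟨(j + (v - i)) % v, Nat.mod_lt _ hv⟩ :=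
    fun i => bar_row hH hv i i.2 j
  rw [Finset.sum_congr rfl (fun i _ => h1 i)]
  apply Finset.sum_nbij' (fun i : Fin v => (⟨(j + (v - i)) % v, Nat.mod_lt _ hv⟩ : Fin v))
    (fun k : Fin v => (⟨(j + (v - k)) % v, Nat.mod_lt _ hv⟩ : Fin v))
  · intro i _; exact Finset.mem_univ _
  · intro i _; exact Finset.mem_univ _
  · intro i _
    apply Fin.ext
    have hi := i.2
    simp only
    rcases le_or_gt (i : ℕ) j with h | h
    · have e : (j + (v - i)) % v = j - i := by
        rw [show (j : ℕ) + (v - i) = (j - i) + v by omega, Nat.add_mod_right,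
          Nat.mod_eq_of_lt (by omega)]
      rw [e, show (j : ℕ) + (v - (j - i)) = i + v by omega, Nat.add_mod_right,
        Nat.mod_eq_of_lt hi]
    · have e : (j + (v - i)) % v = j + (v - i) := Nat.mod_eq_of_lt (by omega)
      rw [e, show (j : ℕ) + (v - (j + (v - i))) = i by omega, Nat.mod_eq_of_lt hi]
  · intro i _
    apply Fin.ext
    have hi := i.2
    simp only
    rcases le_or_gt (i : ℕ) j with h | h
    · have e : (j + (v - i)) % v = j - i := by
        rw [show (j : ℕ) + (v - i) = (j - i) + v by omega, Nat.add_mod_right,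
          Nat.mod_eq_of_lt (by omega)]
      rw [e, show (j : ℕ) + (v - (j - i)) = i + v by omega, Nat.add_mod_right,
        Nat.mod_eq_of_lt hi]
    · have e : (j + (v - i)) % v = j + (v - i) := Nat.mod_eq_of_lt (by omega)
      rw [e, show (j : ℕ) + (v - (j + (v - i))) = i by omega, Nat.mod_eq_of_lt hi]
  · intro i _; rfl

/-- BAR -/
theorem chm_order {v : ℕ} (h : CHMOrder v) (hv : 2 ≤ v) : ∃ u, 1 ≤ u ∧ v = 4 * u ^ 2 := by
  obtain ⟨H, hH⟩ := h
  have hv0 : 0 < v := by omega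
  set s := ∑ k, H ⟨0, hv0⟩ k with hs
  -- `v` is even
  have heven : v % 2 = 0 := by
    have h1 := hH.orth ⟨0, by omega⟩ ⟨1, by omega⟩ (by simp [Fin.ext_iff])
    obtain ⟨h2, k, hk⟩ := bar_mod4 Finset.univ
      (fun j => H ⟨0, by omega⟩ j * H ⟨1, by omega⟩ j) (by
        intro j _
        rcases hH.sign ⟨0, by omega⟩ j with h1 | h1 <;>
          rcases hH.sign ⟨1, by omega⟩ j with h2 | h2 <;> rw [h1, h2] <;> norm_num)
    rw [h1, Finset.card_univ, Fintype.card_fin] at hk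
    rcases h2 with h2 | h2 <;> rw [h2] at hk <;> omega
  -- the square of the sum
  have hsq : (v : ℤ) * s ^ 2 = v * v := by
    have h1 : ∑ j, (∑ i, H i j) ^ 2 = (v : ℤ) * s ^ 2 := by
      rw [Finset.sum_congr rfl (fun j _ => by rw [bar_col hH hv0 j]), Finset.sum_const,
        Finset.card_univ, Fintype.card_fin, nsmul_eq_mul]
    have h2 : ∑ j, (∑ i, H i j) ^ 2 = (v : ℤ) * v := by
      have h3 : ∀ j, (∑ i, H i j) ^ 2 = ∑ i, ∑ i', H i j * H i' j := by
        intro j
        rw [sq, Finset.sum_mul_sum]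
      rw [Finset.sum_congr rfl (fun j _ => h3 j), Finset.sum_comm]
      have h4 : ∀ i : Fin v, ∑ j, ∑ i', H i j * H i' j = (v : ℤ) := by
        intro i
        rw [Finset.sum_comm, Finset.sum_eq_single i]
        · have h5 : ∀ j, H i j * H i j = 1 := by
            intro j
            rcases hH.sign i j with h | h <;> rw [h] <;> norm_num
          rw [Finset.sum_congr rfl (fun j _ => h5 j)]
          simp
        · intro i' _ hne
          exact hH.orth i i' (Ne.symm hne)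
        · intro h; exact absurd (Finset.mem_univ i) h
      rw [Finset.sum_congr rfl (fun i _ => h4 i), Finset.sum_const, Finset.card_univ,
        Fintype.card_fin, nsmul_eq_mul]
    rw [← h1, h2]
  have hvz : (v : ℤ) ≠ 0 := by exact_mod_cast hv0.ne'
  have hs2 : s ^ 2 = v := mul_left_cancel₀ hvz hsq
  have hse : Even s := by
    have h1 : Even (s ^ 2) := by
      rw [hs2, Int.even_iff]
      exact_mod_cast heven
    exact (Int.even_pow.1 h1).1
  obtain ⟨t, ht⟩ := hse
  have h2 : (v : ℤ) = 4 * (t.natAbs : ℤ) ^ 2 := by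
    rw [← hs2, ht, Int.natAbs_sq]
    ring
  refine ⟨t.natAbs, ?_, by exact_mod_cast h2⟩
  rw [Nat.one_le_iff_ne_zero]
  intro h0
  rw [h0] at h2
  norm_num at h2
  omega

end

end Pool.Agent.CHM
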