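import Mathlib

/-!
# Circulant Hadamard matrices and Barker sequences: definitions
-/

set_option autoImplicit false

namespace Pool.Agent.CHM

open Finset

/-- `H` is a circulant Hadamard matrix of order `v`: its entries are `1` and `-1`, different rows
are orthogonal, and each row after the first is the preceding row shifted cyclically one place to
the right. -/
structure IsCirculantHadamard (v : ℕ) (H : Fin v → Fin v → ℤ) : Prop where
  sign : ∀ i j, H i j = 1 ∨ H i j = -1
  orth : ∀ i i', i ≠ i' → ∑ j, H i j * H i' j = 0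
  circ : ∀ i i' j j' : Fin v, (i' : ℕ) = i + 1 → (j' : ℕ) = (j + 1) % v → H i' j' = H i j

/-- There is a circulant Hadamard matrix of order `v`. -/
def CHMOrder (v : ℕ) : Prop := ∃ H : Fin v → Fin v → ℤ, IsCirculantHadamard v H

/-- `b 0, ..., b (v - 1)` is a Barker sequence of length `v`. -/
def IsBarker (v : ℕ) (b : ℕ → ℤ) : Prop :=
  (∀ i < v, b i = 1 ∨ b i = -1) ∧
    ∀ j, 1 ≤ j → j < v → |∑ i ∈ range (v - j), b i * b (i + j)| ≤ 1

/-- `q` is a prime different from `P` with `q ^ (P - 1) ≡ 1` modulo `P ^ 2`. -/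
def Bad (P q : ℕ) : Prop := q.Prime ∧ q ≠ P ∧ q ^ (P - 1) ≡ 1 [MOD P ^ 2]

open Classical in
/-- The product of the prime powers `q ^ a` which divide `u` exactly, `q` a bad prime for `P`. -/
noncomputable def badPart (P u : ℕ) : ℕ :=
  ∏ q ∈ u.primeFactors.filter (Bad P), q ^ u.factorization q

open Classical in
/-- The number of the bad primes for `P` which divide `u`. -/
noncomputable def badNum (P u : ℕ) : ℕ := (u.primeFactors.filter (Bad P)).card

/-- The numbers `u` that are not excluded by the main theorem: for the largest prime factor `P` of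
`u`, if it is at least `5`, there is a bad prime `q` whose order modulo `P` is small. -/
def Exc (u : ℕ) : Prop :=
  ∀ P : ℕ, P.Prime → 5 ≤ P → P ∣ u → (∀ r : ℕ, r.Prime → r ∣ u → r ≤ P) →
    ∃ q : ℕ, q ∣ u ∧ Bad P q ∧ orderOf (q : ZMod P) ≤ badPart P u ^ 2 ^ (badNum P u + 1)

/-- The `y`-smooth part of `u`. -/
def smoothPart (y u : ℕ) : ℕ := ∏ p ∈ u.primeFactors.filter (· ≤ y), p ^ u.factorization p

/-- The number of the primes `p ≤ y` which divide `u`. -/
def omegaY (y u : ℕ) : ℕ := (u.primeFactors.filter (· ≤ y)).card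

end Pool.Agent.CHM
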