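import Pool.Agent.Lib_helper74.CHM.Algebra
import Pool.Agent.Lib_helper74.CHM.Counting

/-!
# Circulant Hadamard matrices and Barker sequences of almost no order
-/

set_option autoImplicit false

namespace Pool.Agent.CHM

/-! ## Final.lean -/

section

open Finset Classical

theorem fin_log_pow_le (A : ℕ) : ∃ C : ℝ, 0 < C ∧ ∀ x : ℝ, 2 ≤ x → (Real.log x) ^ A ≤ C * √x := by
  have h := (isLittleO_log_rpow_rpow_atTop (A : ℝ) (show (0 : ℝ) < 1 / 2 by norm_num)).bound
    (show (0 : ℝ) < 1 by norm_num)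
  obtain ⟨x0, hx0⟩ := Filter.eventually_atTop.1 h
  set x1 := max x0 2 with hx1
  refine ⟨max 1 ((Real.log x1) ^ A), by positivity, fun x hx => ?_⟩
  have hs : 1 ≤ √x := by rw [Real.one_le_sqrt]; linarith
  have hlog : 0 ≤ Real.log x := Real.log_nonneg (by linarith)
  by_cases hxx : x ≤ x1
  · have h1 : (Real.log x) ^ A ≤ (Real.log x1) ^ A :=
      pow_le_pow_left₀ hlog (Real.log_le_log (by linarith) hxx) _
    calc (Real.log x) ^ A ≤ max 1 ((Real.log x1) ^ A) * 1 := by
          rw [mul_one]; exact h1.trans (le_max_right _ _)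
      _ ≤ _ := by gcongr
  · have h2 := hx0 x ((le_max_left _ _).trans (not_le.1 hxx).le)
    rw [Real.norm_of_nonneg (by positivity), Real.norm_of_nonneg (by positivity), one_mul,
      Real.rpow_natCast, ← Real.sqrt_eq_rpow] at h2
    calc (Real.log x) ^ A ≤ 1 * √x := by rw [one_mul]; exact h2
      _ ≤ _ := by gcongr; exact le_max_left _ _

/-- From natural to real `x` and from natural to real exponents. -/
theorem real_form (f : ℕ → Prop) (h : ∀ A : ℕ, ∃ C : ℝ, 0 < C ∧ ∀ N : ℕ, 2 ≤ N →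
    (((Icc 1 N).filter fun u => f u).card : ℝ) ≤ C * N / (Real.log N) ^ A) (A : ℝ) :
    ∃ C : ℝ, 0 < C ∧ ∀ x : ℝ, 2 ≤ x →
      (((Icc 1 ⌊x⌋₊).filter fun u => f u).card : ℝ) ≤ C * x / (Real.log x) ^ A := by
  obtain ⟨C, hC, hb⟩ := h ⌈A⌉₊
  set B := ⌈A⌉₊ with hB
  have hAB : A ≤ B := Nat.le_ceil A
  obtain ⟨M, hM⟩ : ∃ M : ℝ, ∀ x ∈ Set.Icc (2 : ℝ) 4, (Real.log x) ^ A ≤ M := by
    have hc : ContinuousOn (fun x : ℝ => (Real.log x) ^ A) (Set.Icc 2 4) := by
      apply ContinuousOn.rpow_const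
      · exact Real.continuousOn_log.mono fun x hx => by
          simp only [Set.mem_compl_iff, Set.mem_singleton_iff]
          have := hx.1; intro h0; linarith
      · intro x hx
        left
        exact (Real.log_pos (by linarith [hx.1])).ne'
    obtain ⟨M, hM⟩ := (isCompact_Icc.bddAbove_image hc)
    exact ⟨M, fun x hx => hM ⟨x, hx, rfl⟩⟩
  refine ⟨max (C * 2 ^ B) (max M 1), by positivity, fun x hx => ?_⟩
  have hlogx : 0 < Real.log x := Real.log_pos (by linarith)
  have hfl : (⌊x⌋₊ : ℝ) ≤ x := Nat.floor_le (by linarith)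
  by_cases h4 : x ≤ 4
  · have h1 : (((Icc 1 ⌊x⌋₊).filter fun u => f u).card : ℝ) ≤ x := by
      refine le_trans ?_ hfl
      have := (Finset.card_filter_le (Icc 1 ⌊x⌋₊) (fun u => f u))
      rw [Nat.card_Icc] at this
      exact_mod_cast this
    refine h1.trans ?_
    rw [le_div_iff₀ (by positivity)]
    have h2 := hM x ⟨hx, h4⟩
    have h3 : (Real.log x) ^ A ≤ max (C * 2 ^ B) (max M 1) :=
      h2.trans ((le_max_left _ _).trans (le_max_right _ _))
    nlinarith
  · push Not at h4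
    have hN2 : 2 ≤ ⌊x⌋₊ := Nat.le_floor (by norm_num; linarith)
    have h1 := hb ⌊x⌋₊ hN2
    have hlog : Real.log x / 2 ≤ Real.log ⌊x⌋₊ := by
      have h2 : √x ≤ ⌊x⌋₊ := by
        have h3 : x < ⌊x⌋₊ + 1 := Nat.lt_floor_add_one x
        have h4 : √x ^ 2 = x := Real.sq_sqrt (by linarith)
        have h5 : 2 ≤ √x := by
          rw [show (2 : ℝ) = √4 by rw [show (4 : ℝ) = 2 ^ 2 by norm_num]; simp]
          exact Real.sqrt_le_sqrt (by linarith)
        nlinarith
      rw [← Real.log_sqrt (by linarith)]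
      exact Real.log_le_log (by positivity) h2
    have hx1 : 1 ≤ Real.log x := by
      rw [Real.le_log_iff_exp_le (by linarith)]
      have := Real.exp_one_lt_d9
      linarith
    calc _ ≤ C * ⌊x⌋₊ / (Real.log ⌊x⌋₊) ^ B := h1
      _ ≤ C * x / (Real.log x / 2) ^ B := by gcongr
      _ = C * 2 ^ B * x / (Real.log x) ^ B := by
          rw [div_pow]; field_simp
      _ ≤ C * 2 ^ B * x / (Real.log x) ^ A := by
          gcongr
          rw [← Real.rpow_natCast]
          exact Real.rpow_le_rpow_of_exponent_le hx1 hAB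
      _ ≤ _ := by gcongr; exact le_max_left _ _

theorem chm_count (A : ℕ) : ∃ C : ℝ, 0 < C ∧ ∀ N : ℕ, 2 ≤ N →
    (((Icc 1 N).filter fun u => CHMOrder (4 * u ^ 2)).card : ℝ) ≤ C * N / (Real.log N) ^ A := by
  obtain ⟨C, hC, h⟩ := exc_count A
  refine ⟨C, hC, fun N hN => le_trans ?_ (h N hN)⟩
  have : ((Icc 1 N).filter fun u => CHMOrder (4 * u ^ 2)) ⊆ (Icc 1 N).filter fun u => Exc u := by
    intro u hu
    simp only [mem_filter, mem_Icc] at hu ⊢
    exact ⟨hu.1, exc_of_chm hu.1.1 hu.2⟩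
  exact_mod_cast Finset.card_le_card this

theorem barker_count (A : ℕ) : ∃ C : ℝ, 0 < C ∧ ∀ N : ℕ, 2 ≤ N →
    (((Icc 1 N).filter fun v => Even v ∧ ∃ b, IsBarker v b).card : ℝ) ≤
      C * √N / (Real.log N) ^ A := by
  obtain ⟨C, hC, h⟩ := real_form _ chm_count (A : ℝ)
  obtain ⟨D, hD, hD'⟩ := fin_log_pow_le A
  refine ⟨C * 4 ^ A + 16 * D, by positivity, fun N hN => ?_⟩
  have hN' : (2 : ℝ) ≤ N := by exact_mod_cast hN
  have hlog : 0 < Real.log N := Real.log_pos (by linarith)
  have hDN := hD' N hN'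
  by_cases h16 : N < 16
  · have h1 : (((Icc 1 N).filter fun v => Even v ∧ ∃ b, IsBarker v b).card : ℝ) ≤ 16 := by
      have := (Finset.card_filter_le (Icc 1 N) (fun v => Even v ∧ ∃ b, IsBarker v b))
      rw [Nat.card_Icc] at this
      have h2 : ((Icc 1 N).filter fun v => Even v ∧ ∃ b, IsBarker v b).card ≤ 16 := by omega
      exact_mod_cast h2
    refine h1.trans ?_
    rw [le_div_iff₀ (by positivity)]
    have h3 : 0 ≤ C * 4 ^ A * √N := by positivity
    nlinarith
  · push Not at h16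
    have h16' : (16 : ℝ) ≤ N := by exact_mod_cast h16
    have hs4 : 4 ≤ √(N : ℝ) := by
      rw [show (4 : ℝ) = √16 by rw [show (16 : ℝ) = 4 ^ 2 by norm_num]; simp]
      exact Real.sqrt_le_sqrt h16'
    have hss : √(N : ℝ) ^ 2 = N := Real.sq_sqrt (by linarith)
    have hcard : ((Icc 1 N).filter fun v => Even v ∧ ∃ b, IsBarker v b).card ≤
        ((Icc 1 ⌊√(N : ℝ) / 2⌋₊).filter fun u => CHMOrder (4 * u ^ 2)).card + 1 := by
      have hsub : ((Icc 1 N).filter fun v => Even v ∧ ∃ b, IsBarker v b) ⊆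
          insert 2 (((Icc 1 ⌊√(N : ℝ) / 2⌋₊).filter fun u => CHMOrder (4 * u ^ 2)).image
            fun u => 4 * u ^ 2) := by
        intro w hw
        simp only [mem_filter, mem_Icc] at hw
        obtain ⟨⟨hw1, hwN⟩, hev, b, hb⟩ := hw
        rw [mem_insert, mem_image]
        by_cases h2 : w = 2
        · left; exact h2
        · right
          have h4 : 4 ≤ w := by
            obtain ⟨t, ht⟩ := hev
            omega
          have hc := barker_chm hb hev h4
          obtain ⟨u, hu1, hu⟩ := chm_order hc (by omega)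
          refine ⟨u, ?_, hu.symm⟩
          simp only [mem_filter, mem_Icc]
          refine ⟨⟨hu1, ?_⟩, hu ▸ hc⟩
          apply Nat.le_floor
          rw [le_div_iff₀ (by norm_num)]
          apply Real.le_sqrt_of_sq_le
          have : 4 * u ^ 2 ≤ N := hu ▸ hwN
          have h5 : (4 : ℝ) * (u : ℝ) ^ 2 ≤ N := by exact_mod_cast this
          nlinarith
      refine (Finset.card_le_card hsub).trans ((Finset.card_insert_le _ _).trans ?_)
      exact Nat.add_le_add_right Finset.card_image_le 1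
    have h1 := h (√(N : ℝ) / 2) (by linarith)
    rw [Real.rpow_natCast] at h1
    have hlog2 : Real.log N / 4 ≤ Real.log (√(N : ℝ) / 2) := by
      have h3 : Real.log N / 4 = Real.log (√(√(N : ℝ))) := by
        rw [Real.log_sqrt (by positivity), Real.log_sqrt (by positivity)]; ring
      rw [h3]
      apply Real.log_le_log (by positivity)
      have h5 : √(√(N : ℝ)) ^ 2 = √(N : ℝ) := Real.sq_sqrt (by positivity)
      have h6 : 2 ≤ √(√(N : ℝ)) := by
        rw [show (2 : ℝ) = √4 by rw [show (4 : ℝ) = 2 ^ 2 by norm_num]; simp]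
        exact Real.sqrt_le_sqrt hs4
      nlinarith
    calc (((Icc 1 N).filter fun v => Even v ∧ ∃ b, IsBarker v b).card : ℝ)
        ≤ (((Icc 1 ⌊√(N : ℝ) / 2⌋₊).filter fun u => CHMOrder (4 * u ^ 2)).card : ℝ) + 1 := by
          exact_mod_cast hcard
      _ ≤ C * (√(N : ℝ) / 2) / (Real.log (√(N : ℝ) / 2)) ^ A + 1 := by gcongr
      _ ≤ C * (√(N : ℝ)) / (Real.log N / 4) ^ A + 16 * D * √(N : ℝ) / (Real.log N) ^ A := by
          have h7 : 0 < Real.log N / 4 := by positivity
          gcongr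
          · linarith [Real.sqrt_nonneg (N : ℝ)]
          · rw [le_div_iff₀ (by positivity), one_mul]
            have : 0 ≤ D * √(N : ℝ) := by positivity
            linarith
      _ = (C * 4 ^ A + 16 * D) * √N / (Real.log N) ^ A := by
          rw [div_pow]; field_simp

/-- From natural to real `x` and from natural to real exponents, square root version. -/
theorem real_form_sqrt (f : ℕ → Prop) (h : ∀ A : ℕ, ∃ C : ℝ, 0 < C ∧ ∀ N : ℕ, 2 ≤ N →
    (((Icc 1 N).filter fun u => f u).card : ℝ) ≤ C * √N / (Real.log N) ^ A) (A : ℝ) :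
    ∃ C : ℝ, 0 < C ∧ ∀ x : ℝ, 2 ≤ x →
      (((Icc 1 ⌊x⌋₊).filter fun u => f u).card : ℝ) ≤ C * √x / (Real.log x) ^ A := by
  obtain ⟨C, hC, hb⟩ := h ⌈A⌉₊
  set B := ⌈A⌉₊ with hB
  have hAB : A ≤ B := Nat.le_ceil A
  obtain ⟨M, hM⟩ : ∃ M : ℝ, ∀ x ∈ Set.Icc (2 : ℝ) 4, (Real.log x) ^ A ≤ M := by
    have hc : ContinuousOn (fun x : ℝ => (Real.log x) ^ A) (Set.Icc 2 4) := by
      apply ContinuousOn.rpow_const
      · exact Real.continuousOn_log.mono fun x hx => by
          simp only [Set.mem_compl_iff, Set.mem_singleton_iff]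
          have := hx.1; intro h0; linarith
      · intro x hx
        left
        exact (Real.log_pos (by linarith [hx.1])).ne'
    obtain ⟨M, hM⟩ := (isCompact_Icc.bddAbove_image hc)
    exact ⟨M, fun x hx => hM ⟨x, hx, rfl⟩⟩
  refine ⟨max (C * 2 ^ B) (max (4 * M) 1), by positivity, fun x hx => ?_⟩
  have hlogx : 0 < Real.log x := Real.log_pos (by linarith)
  have hfl : (⌊x⌋₊ : ℝ) ≤ x := Nat.floor_le (by linarith)
  have hs1 : 1 ≤ √x := by rw [Real.one_le_sqrt]; linarith
  by_cases h4 : x ≤ 4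
  · have h1 : (((Icc 1 ⌊x⌋₊).filter fun u => f u).card : ℝ) ≤ 4 := by
      refine le_trans ?_ h4
      refine le_trans ?_ hfl
      have := (Finset.card_filter_le (Icc 1 ⌊x⌋₊) (fun u => f u))
      rw [Nat.card_Icc] at this
      exact_mod_cast this
    refine h1.trans ?_
    rw [le_div_iff₀ (by positivity)]
    have h2 := hM x ⟨hx, h4⟩
    have h3 : 4 * (Real.log x) ^ A ≤ max (C * 2 ^ B) (max (4 * M) 1) :=
      (by linarith : 4 * (Real.log x) ^ A ≤ 4 * M).trans
        ((le_max_left _ _).trans (le_max_right _ _))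
    have h5 : 0 < max (C * 2 ^ B) (max (4 * M) 1) := by positivity
    nlinarith
  · push Not at h4
    have hN2 : 2 ≤ ⌊x⌋₊ := Nat.le_floor (by norm_num; linarith)
    have h1 := hb ⌊x⌋₊ hN2
    have hlog : Real.log x / 2 ≤ Real.log ⌊x⌋₊ := by
      have h2 : √x ≤ ⌊x⌋₊ := by
        have h3 : x < ⌊x⌋₊ + 1 := Nat.lt_floor_add_one x
        have h4 : √x ^ 2 = x := Real.sq_sqrt (by linarith)
        have h5 : 2 ≤ √x := by
          rw [show (2 : ℝ) = √4 by rw [show (4 : ℝ) = 2 ^ 2 by norm_num]; simp]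
          exact Real.sqrt_le_sqrt (by linarith)
        nlinarith
      rw [← Real.log_sqrt (by linarith)]
      exact Real.log_le_log (by positivity) h2
    have hx1 : 1 ≤ Real.log x := by
      rw [Real.le_log_iff_exp_le (by linarith)]
      have := Real.exp_one_lt_d9
      linarith
    calc _ ≤ C * √⌊x⌋₊ / (Real.log ⌊x⌋₊) ^ B := h1
      _ ≤ C * √x / (Real.log x / 2) ^ B := by gcongr
      _ = C * 2 ^ B * √x / (Real.log x) ^ B := by
          rw [div_pow]; field_simp
      _ ≤ C * 2 ^ B * √x / (Real.log x) ^ A := by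
          gcongr
          rw [← Real.rpow_natCast]
          exact Real.rpow_le_rpow_of_exponent_le hx1 hAB
      _ ≤ _ := by gcongr; exact le_max_left _ _

end

end Pool.Agent.CHM
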